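import Mathlib
import Pool.Agent.Lib.MP_5babb6_co.Core

set_option autoImplicit false

/-!
Definitions for Theorem W: graphs without a `K*_{r,s}` minor, `s >= C r log (r+1)`.
-/

namespace Pool.Agent.Lib.MP_5babb6_co.W

open Finset Classical

variable {V : Type}

/-- the neighbours of `v` in `X` -/
noncomputable def nb (G : SimpleGraph V) (X : Finset V) (v : V) : Finset V :=
  X.filter (fun y => G.Adj v y)

/-- the number of neighbours of `v` in `X` -/
noncomputable def dg (G : SimpleGraph V) (X : Finset V) (v : V) : ℕ := (nb G X v).card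

/-- the number of common neighbours of `v` and `w` in `X` -/
noncomputable def cod (G : SimpleGraph V) (X : Finset V) (v w : V) : ℕ :=
  (X.filter (fun y => G.Adj v y ∧ G.Adj w y)).card

/-- the sum of the degrees inside `X` -/
noncomputable def ds (G : SimpleGraph V) (X : Finset V) : ℕ := ∑ v ∈ X, dg G X v

/-- `X` is nonempty and induces a connected subgraph -/
def Conn (G : SimpleGraph V) (X : Finset V) : Prop := (G.induce (X : Set V)).Connected

/-- a `K*_{r,s}` minor inside `X`, with connected sets on both sides -/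
def HasK (G : SimpleGraph V) (r s : ℕ) (X : Finset V) : Prop :=
  ∃ A : Fin r → Finset V, ∃ B : Fin s → Finset V,
    (∀ i, A i ⊆ X) ∧ (∀ j, B j ⊆ X) ∧ (∀ i, Conn G (A i)) ∧ (∀ j, Conn G (B j)) ∧
    (∀ i i', i ≠ i' → Disjoint (A i) (A i')) ∧ (∀ j j', j ≠ j' → Disjoint (B j) (B j')) ∧
    (∀ i j, Disjoint (A i) (B j)) ∧
    (∀ i i', i ≠ i' → ∃ x ∈ A i, ∃ y ∈ A i', G.Adj x y) ∧
    (∀ i j, ∃ x ∈ A i, ∃ y ∈ B j, G.Adj x y)

/-- `Q` stays connected when at most `l` vertices are deleted and has all degrees at least `w` -/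
def Robust (G : SimpleGraph V) (Q : Finset V) (l w : ℕ) : Prop :=
  (∀ R : Finset V, R.card ≤ l → Conn G (Q \ R)) ∧ ∀ v ∈ Q, w ≤ dg G Q v

/-- small connected dominating sets: every connected set of at most `N` vertices with all degrees
at least `u` has a connected dominating set of at most `c` vertices -/
def Cds (V : Type) (N u c : ℕ) : Prop :=
  ∀ (G : SimpleGraph V) (X : Finset V), X.card ≤ N → Conn G X → (∀ v ∈ X, u ≤ dg G X v) →
    ∃ D ⊆ X, Conn G D ∧ D.card ≤ c ∧ ∀ x ∈ X, x ∉ D → ∃ y ∈ D, G.Adj y x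

/-- the parameters: `t = r + s` is about `1000 u`, `u = 10^6 k`, and `20 r (c + 3) ≤ k` -/
structure Par (r s t k u c : ℕ) : Prop where
  hr : 1 ≤ r
  hs : 1 ≤ s
  ht : t = r + s
  hc : 1 ≤ c
  hu : u = 1000000 * k
  h1 : 1000 * u ≤ t
  h2 : t ≤ 1001 * u
  hN : 20 * (r * (c + 3)) ≤ k

/-- the outer neighbours of `X` in `A` -/
noncomputable def bdry (G : SimpleGraph V) (A X : Finset V) : Finset V :=
  (A \ X).filter (fun y => ∃ x ∈ X, G.Adj x y)

/-- `X` is a leaf of `A`: a nonempty set with at most `k0` outer neighbours such that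
`X` together with its outer neighbours is as small as possible -/
structure Leaf (G : SimpleGraph V) (A X : Finset V) (k0 : ℕ) : Prop where
  sub : X ⊆ A
  ne : X.Nonempty
  small : (bdry G A X).card ≤ k0
  min : ∀ Y ⊆ A, Y.Nonempty → (bdry G A Y).card ≤ k0 →
    (X ∪ bdry G A X).card ≤ (Y ∪ bdry G A Y).card

/-- `G` with every `Q l` made a clique -/
def clq {m : ℕ} (G : SimpleGraph V) (Q : Fin m → Finset V) : SimpleGraph V where
  Adj x y := x ≠ y ∧ (G.Adj x y ∨ ∃ l, x ∈ Q l ∧ y ∈ Q l)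
  symm := by
    constructor
    rintro x y ⟨h, h'⟩
    refine ⟨h.symm, ?_⟩
    rcases h' with h' | ⟨l, h1, h2⟩
    · exact Or.inl h'.symm
    · exact Or.inr ⟨l, h2, h1⟩
  loopless := by
    constructor
    rintro x ⟨h, -⟩
    exact h rfl

/-- `G` with all edges inside `S` added -/
def addClique (G : SimpleGraph V) (S : Finset V) : SimpleGraph V where
  Adj x y := x ≠ y ∧ (G.Adj x y ∨ (x ∈ S ∧ y ∈ S))
  symm := by
    constructor
    rintro x y ⟨h, h'⟩
    refine ⟨h.symm, ?_⟩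
    rcases h' with h' | ⟨h1, h2⟩
    · exact Or.inl h'.symm
    · exact Or.inr ⟨h2, h1⟩
  loopless := by
    constructor
    rintro x ⟨h, -⟩
    exact h rfl

/-- the graph on the values of a branch map `φ`: `a` and `b` are adjacent if an edge of `G` joins
`φ a` and `φ b` -/
def quo (G : SimpleGraph V) (φ : V → Finset V) : SimpleGraph V where
  Adj a b := a ≠ b ∧ ∃ x ∈ φ a, ∃ y ∈ φ b, G.Adj x y
  symm := by
    constructor
    rintro a b ⟨h, x, hx, y, hy, hxy⟩
    exact ⟨h.symm, y, hy, x, hx, hxy.symm⟩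
  loopless := by
    constructor
    rintro x ⟨h, -⟩
    exact h rfl

/-- the branch map of the contraction of `y` into `x` -/
noncomputable def ctrMap (x y : V) : V → Finset V := fun a => if a = x then {x, y} else {a}

/-- seven disjoint robust subsets of `B` -/
structure Pieces (G : SimpleGraph V) (B : Finset V) (u : ℕ) (Q : Fin 7 → Finset V) : Prop where
  sub : ∀ l, Q l ⊆ B
  disj : ∀ l l', l ≠ l' → Disjoint (Q l) (Q l')
  rob : ∀ l, Robust G (Q l) (10 * u) (200 * u)
  card : ∀ l, (Q l).card ≤ 2525 * u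

/-- disjoint connected sets (`C i j` joins `Q 0` to `Q j.succ`) which meet every `Q l` in at most
`b` vertices -/
structure Links (H : SimpleGraph V) (B : Finset V) (Q : Fin 7 → Finset V) (r b : ℕ)
    (C : Fin r → Fin 6 → Finset V) : Prop where
  sub : ∀ i j, C i j ⊆ B
  conn : ∀ i j, Conn H (C i j)
  meet0 : ∀ i j, ∃ x ∈ C i j, x ∈ Q 0
  meetj : ∀ i j, ∃ x ∈ C i j, x ∈ Q j.succ
  few : ∀ i j l, (C i j ∩ Q l).card ≤ b
  disj : ∀ i j i' j', (i, j) ≠ (i', j') → Disjoint (C i j) (C i' j')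

/-- a matching of poor edges between vertices of small degree, as a set of ordered pairs -/
structure PoorM (G : SimpleGraph V) (B X : Finset V) (t u : ℕ) (M : Finset (V × V)) : Prop where
  adj : ∀ e ∈ M, G.Adj e.1 e.2
  mem : ∀ e ∈ M, e.1 ∈ X ∧ e.2 ∈ X
  low : ∀ e ∈ M, dg G B e.1 ≤ 2 * t ∧ dg G B e.2 ≤ 2 * t
  poor : ∀ e ∈ M, cod G B e.1 e.2 < 475 * u
  disj : ∀ e ∈ M, ∀ e' ∈ M, e ≠ e' → e.1 ≠ e'.1 ∧ e.1 ≠ e'.2 ∧ e.2 ≠ e'.1 ∧ e.2 ≠ e'.2

/-- two pairs are related if an edge joins them -/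
def Rel (G : SimpleGraph V) (e e' : V × V) : Prop :=
  e ≠ e' ∧ (G.Adj e.1 e'.1 ∨ G.Adj e.1 e'.2 ∨ G.Adj e.2 e'.1 ∨ G.Adj e.2 e'.2)

end Pool.Agent.Lib.MP_5babb6_co.W
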