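import Mathlib
import Pool.Agent.Lib.MP_5babb6_co.W.Defs

set_option autoImplicit false

/-!
Basic facts on connected sets and `K*_{r,s}` minors.
-/

namespace Pool.Agent.Lib.MP_5babb6_co.W

open Finset Classical

variable {V : Type}

lemma conn_singleton (G : SimpleGraph V) (v : V) : Conn G {v} := by
  unfold Conn
  rw [coe_singleton]
  exact connected_singleton G v

lemma Conn.nonempty {G : SimpleGraph V} {X : Finset V} (h : Conn G X) : X.Nonempty := by
  obtain ⟨⟨x, hx⟩⟩ := SimpleGraph.Connected.nonempty h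
  exact ⟨x, by exact_mod_cast hx⟩

lemma Conn.mono_graph {G G' : SimpleGraph V} {X : Finset V} (h : Conn G X) (hG : G ≤ G') :
    Conn G' X := by
  refine SimpleGraph.Connected.mono ?_ h
  intro a b hab
  exact hG hab

lemma Conn.insert {G : SimpleGraph V} {X : Finset V} {x y : V} (h : Conn G X) (hx : x ∈ X)
    (hxy : G.Adj x y) : Conn G (insert y X) := by
  unfold Conn
  rw [coe_insert]
  exact connected_insert h (x := x) (by exact_mod_cast hx) hxy

lemma Conn.union {G : SimpleGraph V} {X Y : Finset V} (hX : Conn G X) (hY : Conn G Y)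
    (h : ∃ x ∈ X, ∃ y ∈ Y, x = y ∨ G.Adj x y) : Conn G (X ∪ Y) := by
  obtain ⟨x, hx, y, hy, hxy⟩ := h
  have key : ∀ {Y' : Finset V}, Conn G Y' → x ∈ Y' → Conn G (X ∪ Y') := by
    intro Y' hY' hxY'
    unfold Conn
    rw [coe_union]
    exact SimpleGraph.induce_union_connected (SimpleGraph.Connected.preconnected hX)
      (SimpleGraph.Connected.preconnected hY')
      ⟨x, by exact_mod_cast hx, by exact_mod_cast hxY'⟩
  rcases hxy with rfl | hxy
  · exact key hY hy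
  · have h1 := key (hY.insert hy hxy.symm) (mem_insert_self _ _)
    have h2 : X ∪ Insert.insert x Y = X ∪ Y := by
      rw [union_insert, insert_eq_of_mem (mem_union_left _ hx)]
    rwa [h2] at h1

/-- a connected core together with vertices that have a neighbour in it -/
lemma Conn.union_dom {G : SimpleGraph V} {X Y : Finset V} (hX : Conn G X)
    (h : ∀ y ∈ Y, y ∈ X ∨ ∃ x ∈ X, G.Adj x y) : Conn G (X ∪ Y) := by
  induction Y using Finset.induction_on with
  | empty => simpa using hX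
  | insert b Y hb ih =>
    have h1 := ih (fun v hv => h v (mem_insert_of_mem hv))
    rw [union_insert]
    rcases h b (mem_insert_self _ _) with hbX | ⟨a, ha, hab⟩
    · rw [insert_eq_of_mem (mem_union_left _ hbX)]
      exact h1
    · exact h1.insert (mem_union_left _ ha) hab

lemma Conn.biUnion {ι : Type} {G : SimpleGraph V} {X : Finset V} (hX : Conn G X) (T : Finset ι)
    (f : ι → Finset V)
    (hf : ∀ i ∈ T, Conn G (f i) ∧ ∃ x ∈ X, ∃ y ∈ f i, x = y ∨ G.Adj x y) :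
    Conn G (X ∪ T.biUnion f) := by
  induction T using Finset.induction_on with
  | empty => simpa using hX
  | insert i T hi ih =>
    have h1 := ih (fun v hv => hf v (mem_insert_of_mem hv))
    obtain ⟨h2, x, hx, y, hy, hxy⟩ := hf i (mem_insert_self _ _)
    have h3 : X ∪ (Insert.insert i T).biUnion f = (X ∪ T.biUnion f) ∪ f i := by
      rw [biUnion_insert, union_assoc, union_comm (T.biUnion f)]
    rw [h3]
    exact h1.union h2 ⟨x, mem_union_left _ hx, y, hy, hxy⟩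

/-- a nonempty set which is not connected splits -/
lemma exists_split {G : SimpleGraph V} {X : Finset V} (hX : X.Nonempty) (h : ¬ Conn G X) :
    ∃ P Q : Finset V, P.Nonempty ∧ Q.Nonempty ∧ Disjoint P Q ∧ P ∪ Q = X ∧
      ∀ x ∈ P, ∀ y ∈ Q, ¬ G.Adj x y := by
  obtain ⟨x, hx⟩ := hX
  obtain ⟨C, hCX, hxC, hCc, hno⟩ := exists_component G X hx
  refine ⟨C, X \ C, ⟨x, hxC⟩, ?_, disjoint_sdiff, union_sdiff_of_subset hCX, ?_⟩
  · by_contra hemp
    rw [not_nonempty_iff_eq_empty, sdiff_eq_empty_iff_subset] at hemp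
    have : C = X := Subset.antisymm hCX hemp
    rw [this] at hCc
    exact h hCc
  · intro a ha b hb
    rw [mem_sdiff] at hb
    exact hno a ha b hb.1 hb.2

/-- the part of `X` which can be reached from `P` -/
lemma exists_reach (G : SimpleGraph V) {X P : Finset V} (hP : P ⊆ X) :
    ∃ D ⊆ X, P ⊆ D ∧ (∀ x ∈ D, ∃ C ⊆ D, Conn G C ∧ x ∈ C ∧ ∃ p ∈ P, p ∈ C) ∧
      ∀ x ∈ D, ∀ y ∈ X, y ∉ D → ¬ G.Adj x y := by
  have hex : ∀ p : V, ∃ C : Finset V, p ∈ P → (C ⊆ X ∧ p ∈ C ∧ Conn G C ∧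
      ∀ u ∈ C, ∀ v ∈ X, v ∉ C → ¬ G.Adj u v) := by
    intro p
    by_cases hp : p ∈ P
    · obtain ⟨C, h1, h2, h3, h4⟩ := exists_component G X (hP hp)
      exact ⟨C, fun _ => ⟨h1, h2, h3, h4⟩⟩
    · exact ⟨∅, fun h => absurd h hp⟩
  choose F hF using hex
  refine ⟨P.biUnion F, ?_, ?_, ?_, ?_⟩
  · rw [biUnion_subset]
    intro p hp
    exact (hF p hp).1
  · intro p hp
    exact mem_biUnion.2 ⟨p, hp, (hF p hp).2.1⟩
  · intro x hx
    obtain ⟨p, hp, hxp⟩ := mem_biUnion.1 hx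
    exact ⟨F p, subset_biUnion_of_mem F hp, (hF p hp).2.2.1, hxp, p, hp, (hF p hp).2.1⟩
  · intro x hx y hy hyD
    obtain ⟨p, hp, hxp⟩ := mem_biUnion.1 hx
    exact (hF p hp).2.2.2 x hxp y hy (fun h => hyD (mem_biUnion.2 ⟨p, hp, h⟩))

lemma HasK.mono {G : SimpleGraph V} {r s : ℕ} {X Y : Finset V} (h : HasK G r s X)
    (hXY : X ⊆ Y) : HasK G r s Y := by
  obtain ⟨A, B, h1, h2, h3⟩ := h
  exact ⟨A, B, fun i => (h1 i).trans hXY, fun i => (h2 i).trans hXY, h3⟩

lemma HasK.mono_graph {G G' : SimpleGraph V} {r s : ℕ} {X : Finset V} (h : HasK G r s X)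
    (hG : G ≤ G') : HasK G' r s X := by
  obtain ⟨A, B, h1, h2, h3, h4, h5, h6, h7, h8, h9⟩ := h
  refine ⟨A, B, h1, h2, fun i => (h3 i).mono_graph hG, fun i => (h4 i).mono_graph hG, h5, h6, h7,
    ?_, ?_⟩
  · intro i i' hne
    obtain ⟨x, hx, y, hy, hxy⟩ := h8 i i' hne
    exact ⟨x, hx, y, hy, hG hxy⟩
  · intro i j
    obtain ⟨x, hx, y, hy, hxy⟩ := h9 i j
    exact ⟨x, hx, y, hy, hG hxy⟩

lemma hasK_of_star {G : SimpleGraph V} {r s : ℕ} {X : Finset V}
    (h : HasStarIn G r s (X : Set V)) : HasK G r s X := by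
  obtain ⟨A, B, hB, hAX, hBX, hAc, hAd, hAA, hAB⟩ := h
  let e : Fin s ≃ B := (Fintype.equivFinOfCardEq (by rw [Fintype.card_coe, hB])).symm
  have hcoe : ∀ i, ((X.filter (fun v => v ∈ A i) : Finset V) : Set V) = A i := by
    intro i
    ext v
    rw [coe_filter]
    constructor
    · rintro ⟨-, h⟩
      exact h
    · intro h
      exact ⟨by exact_mod_cast hAX i h, h⟩
  have hmem : ∀ i v, v ∈ X.filter (fun v => v ∈ A i) ↔ v ∈ A i := by
    intro i v
    rw [← mem_coe, hcoe]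
  refine ⟨fun i => X.filter (fun v => v ∈ A i), fun j => {(e j : V)}, ?_, ?_, ?_, ?_, ?_, ?_, ?_,
    ?_, ?_⟩
  · intro i
    exact filter_subset _ _
  · intro j
    rw [singleton_subset_iff]
    exact_mod_cast hBX (mem_coe.2 (e j).2)
  · intro i
    unfold Conn
    rw [hcoe]
    exact hAc i
  · intro j
    exact conn_singleton G _
  · intro i i' hne
    rw [disjoint_left]
    intro v hv hv'
    exact Set.disjoint_left.1 (hAd i i' hne) ((hmem i v).1 hv) ((hmem i' v).1 hv')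
  · intro j j' hne
    rw [disjoint_singleton]
    intro h
    exact hne (e.injective (Subtype.ext h))
  · intro i j
    rw [disjoint_singleton_right, hmem]
    exact (hAB i _ (e j).2).1
  · intro i i' hne
    obtain ⟨x, hx, y, hy, hxy⟩ := hAA i i' hne
    exact ⟨x, (hmem i x).2 hx, y, (hmem i' y).2 hy, hxy⟩
  · intro i j
    obtain ⟨x, hx, hxb⟩ := (hAB i _ (e j).2).2
    exact ⟨x, (hmem i x).2 hx, _, mem_singleton_self _, hxb⟩

/-- Unions of connected sets along a connected set. -/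
lemma connected_biUnion {G G' : SimpleGraph V} {K : Set V} (π : V → Set V)
    (hK : (G'.induce K).Connected) (hc : ∀ x ∈ K, (G.induce (π x)).Connected)
    (hadj : ∀ x ∈ K, ∀ y ∈ K, G'.Adj x y → ∃ a ∈ π x, ∃ b ∈ π y, G.Adj a b) :
    (G.induce (⋃ x ∈ K, π x)).Connected := by
  have hsub : ∀ x ∈ K, π x ⊆ ⋃ x ∈ K, π x := fun x hx => Set.subset_biUnion_of_mem hx
  have hin : ∀ x (hx : x ∈ K) a (ha : a ∈ π x) b (hb : b ∈ π x),
      (G.induce (⋃ x ∈ K, π x)).Reachable ⟨a, hsub x hx ha⟩ ⟨b, hsub x hx hb⟩ := by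
    intro x hx a ha b hb
    have h1 := (hc x hx).preconnected ⟨a, ha⟩ ⟨b, hb⟩
    exact h1.map (SimpleGraph.induceHomOfLE G (hsub x hx)).toHom
  have hmain : ∀ x y : K, (G'.induce K).Reachable x y → ∀ a (ha : a ∈ π x) b (hb : b ∈ π y),
      (G.induce (⋃ x ∈ K, π x)).Reachable ⟨a, hsub x x.2 ha⟩ ⟨b, hsub y y.2 hb⟩ := by
    rintro x y ⟨p⟩
    induction p with
    | nil =>
      intro a ha b hb
      exact hin _ (Subtype.property _) a ha b hb
    | @cons x y z hxy p ih =>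
      intro a ha b hb
      obtain ⟨a', ha', b', hb', hab⟩ := hadj x x.2 y y.2 hxy
      refine (hin x x.2 a ha a' ha').trans (SimpleGraph.Reachable.trans ?_ (ih b' hb' b hb))
      refine SimpleGraph.Adj.reachable ?_
      exact hab
  obtain ⟨⟨x0, hx0⟩⟩ := hK.nonempty
  obtain ⟨⟨a0, ha0⟩⟩ := (hc x0 hx0).nonempty
  have : Nonempty ↥(⋃ x ∈ K, π x) := ⟨⟨a0, hsub x0 hx0 ha0⟩⟩
  refine SimpleGraph.Connected.mk ?_
  rintro ⟨a, ha⟩ ⟨b, hb⟩
  obtain ⟨x, hx, hax⟩ := Set.mem_iUnion₂.1 ha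
  obtain ⟨y, hy, hby⟩ := Set.mem_iUnion₂.1 hb
  exact hmain ⟨x, hx⟩ ⟨y, hy⟩ (hK.preconnected _ _) a hax b hby

/-- unions of connected sets along a connected set, finsets -/
lemma Conn.biUnion_map {G H : SimpleGraph V} {K : Finset V} (hK : Conn H K) (φ : V → Finset V)
    (h2 : ∀ a ∈ K, Conn G (φ a))
    (h4 : ∀ a ∈ K, ∀ b ∈ K, H.Adj a b → ∃ x ∈ φ a, ∃ y ∈ φ b, G.Adj x y) :
    Conn G (K.biUnion φ) := by
  unfold Conn
  rw [coe_biUnion]
  refine connected_biUnion (fun v => (φ v : Set V)) hK ?_ ?_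
  · intro a ha
    exact h2 a (by exact_mod_cast ha)
  · intro a ha b hb hab
    obtain ⟨x, hx, y, hy, hxy⟩ := h4 a (by exact_mod_cast ha) b (by exact_mod_cast hb) hab
    exact ⟨x, by exact_mod_cast hx, y, by exact_mod_cast hy, hxy⟩

/-- minors of minors -/
lemma HasK.lift {G H : SimpleGraph V} {r s : ℕ} {X X' : Finset V} (φ : V → Finset V)
    (h1 : ∀ a ∈ X', φ a ⊆ X) (h2 : ∀ a ∈ X', Conn G (φ a))
    (h3 : ∀ a ∈ X', ∀ b ∈ X', a ≠ b → Disjoint (φ a) (φ b))
    (h4 : ∀ a ∈ X', ∀ b ∈ X', H.Adj a b → ∃ x ∈ φ a, ∃ y ∈ φ b, G.Adj x y)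
    (h : HasK H r s X') : HasK G r s X := by
  obtain ⟨A, B, g1, g2, g3, g4, g5, g6, g7, g8, g9⟩ := h
  have hconn : ∀ K ⊆ X', Conn H K → Conn G (K.biUnion φ) := by
    intro K hK hKc
    exact hKc.biUnion_map φ (fun a ha => h2 a (hK ha)) (fun a ha b hb => h4 a (hK ha) b (hK hb))
  have hdisj : ∀ K ⊆ X', ∀ K' ⊆ X', Disjoint K K' → Disjoint (K.biUnion φ) (K'.biUnion φ) := by
    intro K hK K' hK' hd
    rw [disjoint_biUnion_left]
    intro a ha
    rw [disjoint_biUnion_right]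
    intro b hb
    refine h3 a (hK ha) b (hK' hb) ?_
    rintro rfl
    exact disjoint_left.1 hd ha hb
  have hsub : ∀ K ⊆ X', K.biUnion φ ⊆ X := by
    intro K hK
    rw [biUnion_subset]
    exact fun a ha => h1 a (hK ha)
  have hedge : ∀ K ⊆ X', ∀ K' ⊆ X', (∃ x ∈ K, ∃ y ∈ K', H.Adj x y) →
      ∃ x ∈ K.biUnion φ, ∃ y ∈ K'.biUnion φ, G.Adj x y := by
    rintro K hK K' hK' ⟨a, ha, b, hb, hab⟩
    obtain ⟨x, hx, y, hy, hxy⟩ := h4 a (hK ha) b (hK' hb) hab
    exact ⟨x, mem_biUnion.2 ⟨a, ha, hx⟩, y, mem_biUnion.2 ⟨b, hb, hy⟩, hxy⟩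
  refine ⟨fun i => (A i).biUnion φ, fun j => (B j).biUnion φ, ?_, ?_, ?_, ?_, ?_, ?_, ?_, ?_, ?_⟩
  · exact fun i => hsub _ (g1 i)
  · exact fun i => hsub _ (g2 i)
  · exact fun i => hconn _ (g1 i) (g3 i)
  · exact fun i => hconn _ (g2 i) (g4 i)
  · exact fun i i' hne => hdisj _ (g1 i) _ (g1 i') (g5 i i' hne)
  · exact fun i i' hne => hdisj _ (g2 i) _ (g2 i') (g6 i i' hne)
  · exact fun i j => hdisj _ (g1 i) _ (g2 j) (g7 i j)
  · exact fun i i' hne => hedge _ (g1 i) _ (g1 i') (g8 i i' hne)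
  · exact fun i j => hedge _ (g1 i) _ (g2 j) (g9 i j)

end Pool.Agent.Lib.MP_5babb6_co.W
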