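import Mathlib
import Pool.Agent.Lib.MP_5babb6_co.W.Defs

set_option autoImplicit false

/-!
Basic facts on degrees.
-/

namespace Pool.Agent.Lib.MP_5babb6_co.W

open Finset Classical

variable {V : Type}

lemma mem_nb {G : SimpleGraph V} {X : Finset V} {v y : V} : y ∈ nb G X v ↔ y ∈ X ∧ G.Adj v y := by
  simp [nb]

lemma dg_mono {G : SimpleGraph V} {X Y : Finset V} (h : X ⊆ Y) (v : V) : dg G X v ≤ dg G Y v :=
  card_le_card (filter_subset_filter _ h)

lemma dg_lt_card {G : SimpleGraph V} {X : Finset V} {v : V} (hv : v ∈ X) : dg G X v < X.card := by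
  refine card_lt_card ?_
  unfold nb
  rw [filter_ssubset]
  exact ⟨v, hv, G.loopless.irrefl v⟩

lemma dg_le_card {G : SimpleGraph V} {X : Finset V} {v : V} : dg G X v ≤ X.card :=
  card_filter_le _ _

lemma dg_union_le {G : SimpleGraph V} {X Y : Finset V} {v : V} :
    dg G (X ∪ Y) v ≤ dg G X v + dg G Y v := by
  unfold dg nb
  rw [filter_union]
  exact card_union_le _ _

/-- removing `R` lowers the degree by at most `|R|` -/
lemma dg_le_sdiff {G : SimpleGraph V} {X R : Finset V} {v : V} :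
    dg G X v ≤ dg G (X \ R) v + R.card := by
  have h1 : X ⊆ (X \ R) ∪ R := by
    intro x hx
    by_cases h : x ∈ R
    · exact mem_union_right _ h
    · exact mem_union_left _ (mem_sdiff.2 ⟨hx, h⟩)
  refine (dg_mono h1 v).trans (dg_union_le.trans ?_)
  exact Nat.add_le_add_left dg_le_card _

lemma cod_le_dg {G : SimpleGraph V} {X : Finset V} {v w : V} : cod G X v w ≤ dg G X v := by
  refine card_le_card ?_
  intro z hz
  rw [mem_filter] at hz
  exact mem_nb.2 ⟨hz.1, hz.2.1⟩

lemma cod_comm {G : SimpleGraph V} {X : Finset V} {v w : V} : cod G X v w = cod G X w v := by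
  unfold cod
  congr 1
  ext z
  simp only [mem_filter]
  tauto

lemma ds_mono {G : SimpleGraph V} {X Y : Finset V} (h : X ⊆ Y) : ds G X ≤ ds G Y := by
  unfold ds
  exact (sum_le_sum fun v _ => dg_mono h v).trans (sum_le_sum_of_subset h)

lemma dg_mono_graph {G G' : SimpleGraph V} {X : Finset V} (h : G ≤ G') (v : V) :
    dg G X v ≤ dg G' X v := by
  refine card_le_card ?_
  intro z hz
  rw [mem_nb] at hz ⊢
  exact ⟨hz.1, h hz.2⟩

lemma ds_mono_graph {G G' : SimpleGraph V} {X : Finset V} (h : G ≤ G') : ds G X ≤ ds G' X :=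
  sum_le_sum fun v _ => dg_mono_graph h v

lemma ds_le_sq {G : SimpleGraph V} {X : Finset V} : ds G X ≤ X.card * X.card := by
  unfold ds
  have h1 : ∑ v ∈ X, dg G X v ≤ ∑ _v ∈ X, X.card := sum_le_sum fun v _ => dg_le_card
  rwa [sum_const, smul_eq_mul] at h1

lemma exists_nbr {G : SimpleGraph V} {X : Finset V} {v : V} (h : 0 < dg G X v) :
    ∃ y ∈ X, G.Adj v y := by
  obtain ⟨y, hy⟩ := card_pos.1 h
  exact ⟨y, mem_nb.1 hy⟩

lemma dg_erase {G : SimpleGraph V} {X : Finset V} {v : V} (hv : v ∈ X) (w : V) :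
    dg G X w = dg G (X.erase v) w + (if G.Adj w v then 1 else 0) := by
  unfold dg nb
  rw [filter_erase]
  by_cases h : G.Adj w v
  · rw [if_pos h, card_erase_add_one (mem_filter.2 ⟨hv, h⟩)]
  · rw [if_neg h, add_zero, erase_eq_of_notMem]
    simp [h]

/-- deleting a vertex -/
lemma ds_erase {G : SimpleGraph V} {X : Finset V} {v : V} (hv : v ∈ X) :
    ds G (X.erase v) + 2 * dg G X v = ds G X := by
  have h0 : ds G X = dg G X v + ∑ w ∈ X.erase v, dg G X w := by
    unfold ds
    rw [← add_sum_erase X (fun w => dg G X w) hv]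
  have h1 : ∑ w ∈ X.erase v, dg G X w =
      ds G (X.erase v) + ∑ w ∈ X.erase v, (if G.Adj w v then 1 else 0) := by
    unfold ds
    rw [← sum_add_distrib]
    exact sum_congr rfl fun w _ => dg_erase hv w
  have h2 : ∑ w ∈ X.erase v, (if G.Adj w v then 1 else 0) = dg G X v := by
    rw [← card_filter]
    unfold dg nb
    congr 1
    ext w
    simp only [mem_filter, mem_erase]
    constructor
    · rintro ⟨⟨_, h⟩, h'⟩
      exact ⟨h, h'.symm⟩
    · rintro ⟨h, h'⟩
      exact ⟨⟨h'.ne', h⟩, h'.symm⟩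
  omega

/-- deletion of the edge `x y` -/
private def dele (G : SimpleGraph V) (x y : V) : SimpleGraph V where
  Adj a b := G.Adj a b ∧ ¬ (a = x ∧ b = y) ∧ ¬ (a = y ∧ b = x)
  symm := ⟨by
    rintro a b ⟨h, h1, h2⟩
    exact ⟨h.symm, fun h => h2 ⟨h.2, h.1⟩, fun h => h1 ⟨h.2, h.1⟩⟩⟩
  loopless := ⟨fun a h => h.1.ne rfl⟩

/-- deleting an edge -/
lemma ds_del {G : SimpleGraph V} {X : Finset V} {x y : V} (hx : x ∈ X) (hy : y ∈ X)
    (h : G.Adj x y) : ∃ G' : SimpleGraph V, G' ≤ G ∧ ds G' X + 2 = ds G X := by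
  refine ⟨dele G x y, fun a b hab => hab.1, ?_⟩
  set G' := dele G x y with hG'
  have hgen : ∀ w z0 : V, z0 ∈ X → G.Adj w z0 → ¬ G'.Adj w z0 →
      (∀ z, G.Adj w z → z ≠ z0 → G'.Adj w z) → dg G X w = dg G' X w + 1 := by
    intro w z0 hz0 h1 h2 h3
    have e : nb G X w = insert z0 (nb G' X w) := by
      ext z
      rw [mem_insert, mem_nb, mem_nb]
      constructor
      · rintro ⟨hz, hwz⟩
        by_cases hzz : z = z0
        · exact Or.inl hzz
        · exact Or.inr ⟨hz, h3 z hwz hzz⟩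
      · rintro (rfl | ⟨hz, hwz⟩)
        · exact ⟨hz0, h1⟩
        · exact ⟨hz, hwz.1⟩
    unfold dg
    rw [e, card_insert_of_notMem (fun hmem => h2 (mem_nb.1 hmem).2)]
  have h1 : ∀ w ∈ X, dg G X w = dg G' X w +
      ((if w = x then 1 else 0) + (if w = y then 1 else 0)) := by
    intro w _
    by_cases hwx : w = x
    · have hwy : w ≠ y := fun e => h.ne (hwx.symm.trans e)
      rw [if_pos hwx, if_neg hwy]
      subst hwx
      exact hgen w y hy h (fun h' => h'.2.1 ⟨rfl, rfl⟩)
        (fun z hz hzy => ⟨hz, fun h' => hzy h'.2, fun h' => hwy h'.1⟩)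
    · by_cases hwy : w = y
      · rw [if_neg hwx, if_pos hwy]
        subst hwy
        exact hgen w x hx h.symm (fun h' => h'.2.2 ⟨rfl, rfl⟩)
          (fun z hz hzx => ⟨hz, fun h' => hwx h'.1, fun h' => hzx h'.2⟩)
      · rw [if_neg hwx, if_neg hwy, add_zero, add_zero]
        unfold dg
        congr 1
        ext z
        rw [mem_nb, mem_nb]
        constructor
        · rintro ⟨hz, hwz⟩
          exact ⟨hz, hwz, fun h' => hwx h'.1, fun h' => hwy h'.1⟩
        · rintro ⟨hz, hwz⟩
          exact ⟨hz, hwz.1⟩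
  unfold ds
  rw [sum_congr rfl h1, sum_add_distrib, sum_add_distrib, sum_ite_eq', sum_ite_eq', if_pos hx,
    if_pos hy]

/-- a separation -/
lemma ds_sep {G : SimpleGraph V} {X1 X2 : Finset V}
    (h : ∀ x ∈ X1, ∀ y ∈ X2, G.Adj x y → x ∈ X2 ∨ y ∈ X1) :
    ds G (X1 ∪ X2) ≤ ds G X1 + ds G X2 := by
  have h1 : ∀ v ∈ X1 ∪ X2, dg G (X1 ∪ X2) v ≤
      (if v ∈ X1 then dg G X1 v else 0) + (if v ∈ X2 then dg G X2 v else 0) := by
    intro v hv
    by_cases h1 : v ∈ X1
    · by_cases h2 : v ∈ X2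
      · rw [if_pos h1, if_pos h2]
        exact dg_union_le
      · rw [if_pos h1, if_neg h2, add_zero]
        refine card_le_card ?_
        intro z hz
        rw [mem_nb, mem_union] at hz
        rw [mem_nb]
        refine ⟨?_, hz.2⟩
        rcases hz.1 with h3 | h3
        · exact h3
        · rcases h v h1 z h3 hz.2 with h4 | h4
          · exact absurd h4 h2
          · exact h4
    · have h2 : v ∈ X2 := (mem_union.1 hv).resolve_left h1
      rw [if_neg h1, if_pos h2, zero_add]
      refine card_le_card ?_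
      intro z hz
      rw [mem_nb, mem_union] at hz
      rw [mem_nb]
      refine ⟨?_, hz.2⟩
      rcases hz.1 with h3 | h3
      · rcases h z h3 v h2 hz.2.symm with h4 | h4
        · exact h4
        · exact absurd h4 h1
      · exact h3
  have h2 := sum_le_sum h1
  rw [sum_add_distrib, sum_ite_mem, sum_ite_mem, union_inter_cancel_left,
    union_inter_cancel_right] at h2
  exact h2

/-- contraction of the edge `x y` onto `x` -/
private def contr (G : SimpleGraph V) (x y : V) : SimpleGraph V where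
  Adj a b := a ≠ b ∧ (G.Adj a b ∨ (a = x ∧ G.Adj y b) ∨ (b = x ∧ G.Adj y a))
  symm := ⟨by
    rintro a b ⟨h, h'⟩
    refine ⟨h.symm, ?_⟩
    rcases h' with h' | h' | h'
    · exact Or.inl h'.symm
    · exact Or.inr (Or.inr h')
    · exact Or.inr (Or.inl h')⟩
  loopless := ⟨fun a h => h.1 rfl⟩

private lemma contr_le_quo (G : SimpleGraph V) (x y : V) : contr G x y ≤ quo G (ctrMap x y) := by
  intro a b hab
  obtain ⟨hne, h⟩ := hab
  have hself : ∀ z : V, z ∈ ctrMap x y z := by
    intro z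
    unfold ctrMap
    by_cases hz : z = x
    · rw [if_pos hz, hz]
      exact mem_insert_self _ _
    · rw [if_neg hz]
      exact mem_singleton_self _
  have hy : y ∈ ctrMap x y x := by
    unfold ctrMap
    rw [if_pos rfl]
    exact mem_insert_of_mem (mem_singleton_self _)
  refine ⟨hne, ?_⟩
  rcases h with h | ⟨rfl, h⟩ | ⟨rfl, h⟩
  · exact ⟨a, hself a, b, hself b, h⟩
  · exact ⟨y, hy, b, hself b, h⟩
  · exact ⟨a, hself a, y, hy, h.symm⟩

/-- contracting an edge -/
lemma ds_ctr {G : SimpleGraph V} {X : Finset V} {x y : V} (hx : x ∈ X) (hy : y ∈ X)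
    (h : G.Adj x y) :
    ds G X ≤ ds (quo G (ctrMap x y)) (X.erase y) + 2 * (cod G X x y + 1) := by
  refine le_trans ?_ (Nat.add_le_add_right (ds_mono_graph (contr_le_quo G x y)) _)
  set G' := contr G x y with hG'
  set X' := X.erase y with hX'
  have hx' : x ∈ X' := mem_erase.2 ⟨h.ne, hx⟩
  have hadj : ∀ a b, a ≠ b → (G.Adj a b ∨ (a = x ∧ G.Adj y b) ∨ (b = x ∧ G.Adj y a)) →
      G'.Adj a b := fun a b h1 h2 => ⟨h1, h2⟩
  -- the vertex `x`
  have h1 : dg G X x + dg G X y ≤ dg G' X' x + cod G X x y + 2 := by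
    have e1 := card_union_add_card_inter (nb G X x) (nb G X y)
    have e2 : nb G X x ∩ nb G X y = X.filter (fun z => G.Adj x z ∧ G.Adj y z) :=
      (filter_and _ _ _).symm
    rw [e2] at e1
    have e3 : nb G X x ∪ nb G X y ⊆ insert x (insert y (nb G' X' x)) := by
      intro z hz
      rw [mem_insert, mem_insert, mem_nb]
      by_cases hzx : z = x
      · exact Or.inl hzx
      by_cases hzy : z = y
      · exact Or.inr (Or.inl hzy)
      right; right
      rw [mem_union, mem_nb, mem_nb] at hz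
      rcases hz with ⟨hzX, h⟩ | ⟨hzX, h⟩
      · exact ⟨mem_erase.2 ⟨hzy, hzX⟩, hadj _ _ (Ne.symm hzx) (Or.inl h)⟩
      · exact ⟨mem_erase.2 ⟨hzy, hzX⟩, hadj _ _ (Ne.symm hzx) (Or.inr (Or.inl ⟨rfl, h⟩))⟩
    have e4 := card_le_card e3
    have e5 := card_insert_le x (insert y (nb G' X' x))
    have e6 := card_insert_le y (nb G' X' x)
    unfold dg cod
    omega
  -- the other vertices
  have hmono : ∀ w, dg G X' w ≤ dg G' X' w := by
    intro w
    refine card_le_card ?_
    intro z hz
    rw [mem_nb] at hz ⊢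
    exact ⟨hz.1, hadj _ _ hz.2.ne (Or.inl hz.2)⟩
  have h2 : ∀ w ∈ X'.erase x, dg G X w ≤ dg G' X' w +
      (if G.Adj x w ∧ G.Adj y w then 1 else 0) := by
    intro w hw
    have hwx : w ≠ x := (mem_erase.1 hw).1
    rw [dg_erase hy w, ← hX']
    have hm := hmono w
    by_cases hyw : G.Adj w y
    · rw [if_pos hyw]
      by_cases hxw : G.Adj w x
      · rw [if_pos ⟨hxw.symm, hyw.symm⟩]
        omega
      · rw [if_neg (fun h => hxw h.1.symm)]
        have hsub : insert x (nb G X' w) ⊆ nb G' X' w := by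
          intro z hz
          rw [mem_insert] at hz
          rw [mem_nb]
          rcases hz with rfl | hz
          · exact ⟨hx', hadj _ _ hwx (Or.inr (Or.inr ⟨rfl, hyw.symm⟩))⟩
          · rw [mem_nb] at hz
            exact ⟨hz.1, hadj _ _ hz.2.ne (Or.inl hz.2)⟩
        have h3 := card_le_card hsub
        rw [card_insert_of_notMem (by
          rw [mem_nb]
          rintro ⟨-, h⟩
          exact hxw h)] at h3
        unfold dg
        omega
    · rw [if_neg hyw]
      omega
  have h3 : ∑ w ∈ X'.erase x, (if G.Adj x w ∧ G.Adj y w then 1 else 0) ≤ cod G X x y := by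
    rw [← card_filter]
    exact card_le_card (filter_subset_filter _ ((erase_subset _ _).trans (erase_subset _ _)))
  have h4 : ds G X = dg G X y + (dg G X x + ∑ w ∈ X'.erase x, dg G X w) := by
    unfold ds
    rw [← add_sum_erase X (fun w => dg G X w) hy, ← hX',
      ← add_sum_erase X' (fun w => dg G X w) hx']
  have h5 : ds G' X' = dg G' X' x + ∑ w ∈ X'.erase x, dg G' X' w := by
    unfold ds
    rw [← add_sum_erase X' (fun w => dg G' X' w) hx']
  have h6 := sum_le_sum h2
  rw [sum_add_distrib] at h6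
  omega

end Pool.Agent.Lib.MP_5babb6_co.W
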