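import Mathlib
import Pool.Agent.Lib.MP_5babb6_co.W.BaseD
import Pool.Agent.Lib.MP_5babb6_co.W.BaseC

set_option autoImplicit false

/-!
Basic facts.
-/

namespace Pool.Agent.Lib.MP_5babb6_co.W

open Finset Classical

variable {V : Type}



end Pool.Agent.Lib.MP_5babb6_co.W
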