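import Mathlib
import Pool.Agent.Lib.MP_5babb6_co.W.Base
import Pool.Agent.Lib.MP_078aef_co_q.Menger

set_option autoImplicit false

/-!
Lemma 4, first part: disjoint paths by Menger, shortened.
-/

namespace Pool.Agent.Lib.MP_5babb6_co.W

open Finset Classical Pool.Agent.RamseyHam

variable {V : Type}

/-- a connected set contains a path between any two of its vertices -/
lemma seg_of_conn {G : SimpleGraph V} {C : Finset V} (h : Conn G C) {x y : V} (hx : x ∈ C)
    (hy : y ∈ C) : ∃ l : List V, Seg G x l y ∧ ∀ v ∈ l, v ∈ C := by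
  have hr : (G.induce (C : Set V)).Reachable ⟨x, hx⟩ ⟨y, hy⟩ := h.preconnected _ _
  obtain ⟨p⟩ := hr
  have key : ∀ (a b : (C : Set V)) (_ : (G.induce (C : Set V)).Walk a b),
      ∃ l : List V, Seg G a.1 l b.1 ∧ ∀ v ∈ l, v ∈ C := by
    intro a b p
    induction p with
    | nil =>
      rename_i u
      exact ⟨[u.1], Seg.single _, by intro v hv; rw [List.mem_singleton] at hv; subst hv; exact u.2⟩
    | cons hadj _ ih =>
      rename_i u v w _
      obtain ⟨l, hl, hlC⟩ := ih
      refine ⟨[u.1] ++ l, (Seg.single u.1).append hl hadj, ?_⟩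
      intro z hz
      rw [List.mem_append, List.mem_singleton] at hz
      rcases hz with rfl | hz
      · exact u.2
      · exact hlC z hz
  exact key _ _ p

/-- the vertices of a path form a connected set -/
lemma conn_of_chain {G : SimpleGraph V} : ∀ {l : List V}, l ≠ [] → l.IsChain G.Adj →
    Conn G l.toFinset := by
  intro l
  induction l with
  | nil => intro h; exact absurd rfl h
  | cons a t ih =>
    intro _ hc
    rcases t with _ | ⟨b, t⟩
    · have : ([a] : List V).toFinset = {a} := by simp
      rw [this]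
      exact conn_singleton G a
    · rw [List.isChain_cons_cons] at hc
      have h1 := ih (List.cons_ne_nil _ _) hc.2
      rw [List.toFinset_cons]
      exact h1.insert (x := b) (by simp) hc.1.symm

/-- a list without shortcuts meets a clique at most twice -/
lemma few_of_noshort {Q : Finset V} : ∀ {l : List V},
    (∀ (l1 : List V) (x : V) (l2 : List V) (y : V) (l3 : List V),
      l = l1 ++ x :: (l2 ++ y :: l3) → x ∈ Q → y ∈ Q → l2 = []) →
    (l.toFinset ∩ Q).card ≤ 2 := by
  intro l
  induction l with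
  | nil => intro _; simp
  | cons a t ih =>
    intro h
    by_cases ha : a ∈ Q
    · rcases t with _ | ⟨b, t⟩
      · refine le_trans (card_le_card inter_subset_left) ?_
        simp
      · have hsub : (a :: b :: t).toFinset ∩ Q ⊆ {a, b} := by
          intro z hz
          rw [mem_inter, List.mem_toFinset, List.mem_cons, List.mem_cons] at hz
          rw [mem_insert, mem_singleton]
          obtain ⟨hz1, hz2⟩ := hz
          rcases hz1 with rfl | rfl | hz1
          · exact Or.inl rfl
          · exact Or.inr rfl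
          · obtain ⟨s, t', rfl⟩ := List.append_of_mem hz1
            exact absurd (h [] a (b :: s) z t' rfl ha hz2) (List.cons_ne_nil _ _)
        exact (card_le_card hsub).trans card_le_two
    · have hsub : (a :: t).toFinset ∩ Q ⊆ t.toFinset ∩ Q := by
        intro z hz
        rw [mem_inter, List.mem_toFinset, List.mem_cons] at hz
        rw [mem_inter, List.mem_toFinset]
        obtain ⟨hz1, hz2⟩ := hz
        rcases hz1 with rfl | hz1
        · exact absurd hz2 ha
        · exact ⟨hz1, hz2⟩
      refine (card_le_card hsub).trans (ih ?_)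
      intro l1 x l2 y l3 hl hx hy
      exact h (a :: l1) x l2 y l3 (by rw [hl]; rfl) hx hy

/-- a shortest path with vertices in `P` meets every `Q l` at most twice -/
lemma exists_short {m : ℕ} {G : SimpleGraph V} {Q : Fin m → Finset V} {S T P : Finset V}
    (h : ∃ (l : List V) (a b : V), a ∈ S ∧ b ∈ T ∧ Seg (clq G Q) a l b ∧ ∀ v ∈ l, v ∈ P) :
    ∃ C ⊆ P, Conn (clq G Q) C ∧ (∃ x ∈ C, x ∈ S) ∧ (∃ x ∈ C, x ∈ T) ∧
      ∀ l, (C ∩ Q l).card ≤ 2 := by
  have hex : ∃ n, ∃ l : List V, (∃ a b : V, a ∈ S ∧ b ∈ T ∧ Seg (clq G Q) a l b ∧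
      ∀ v ∈ l, v ∈ P) ∧ l.length = n := by
    obtain ⟨l, a, b, h⟩ := h
    exact ⟨_, l, ⟨a, b, h⟩, rfl⟩
  obtain ⟨l, ⟨a, b, ha, hb, hl, hP⟩, hlen⟩ := Nat.find_spec hex
  have hmin : ∀ (l' : List V) (a b : V), a ∈ S → b ∈ T → Seg (clq G Q) a l' b →
      (∀ v ∈ l', v ∈ P) → l.length ≤ l'.length := by
    intro l' a b h1 h2 h3 h4
    rw [hlen]
    exact Nat.find_min' hex ⟨l', ⟨a, b, h1, h2, h3, h4⟩, rfl⟩
  have hne : l ≠ [] := by
    rintro rfl
    have := hl.head
    simp at this
  have hal : a ∈ l := List.mem_of_head? hl.head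
  have hbl : b ∈ l := List.mem_of_getLast? hl.last
  refine ⟨l.toFinset, fun v hv => hP v (List.mem_toFinset.1 hv), conn_of_chain hne hl.chain,
    ⟨a, List.mem_toFinset.2 hal, ha⟩, ⟨b, List.mem_toFinset.2 hbl, hb⟩, ?_⟩
  intro i
  apply few_of_noshort
  intro l1 x l2 y l3 hdec hx hy
  by_contra hl2
  have hl2' : 1 ≤ l2.length := List.length_pos_iff.2 hl2
  have hch := hl.chain
  have hhd := hl.head
  have hls := hl.last
  have hPl := hP
  rw [hdec] at hch hhd hls hPl
  rw [List.isChain_split] at hch
  have hch2 : (y :: l3).IsChain (clq G Q).Adj := by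
    have := hch.2
    rw [← List.cons_append, List.isChain_split] at this
    exact this.2
  have hlenl : l.length = l1.length + (1 + (l2.length + (1 + l3.length))) := by
    rw [hdec]
    simp only [List.length_append, List.length_cons]
    omega
  by_cases hxy : x = y
  · subst hxy
    have h1 : Seg (clq G Q) a (l1 ++ x :: l3) b := by
      refine ⟨?_, ?_, ?_⟩
      · rw [List.isChain_split]
        exact ⟨hch.1, hch2⟩
      · rw [← hhd]
        cases l1 <;> rfl
      · rw [← hls, List.getLast?_append_of_ne_nil _ (List.cons_ne_nil _ _),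
          List.getLast?_append_of_ne_nil _ (List.cons_ne_nil _ _), ← List.cons_append,
          List.getLast?_append_of_ne_nil _ (List.cons_ne_nil _ _)]
    have h2 := hmin _ a b ha hb h1 (by
      intro v hv
      apply hPl
      simp only [List.mem_append, List.mem_cons] at hv ⊢
      tauto)
    simp only [List.length_append, List.length_cons] at h2
    omega
  · have hadj : (clq G Q).Adj x y := ⟨hxy, Or.inr ⟨i, hx, hy⟩⟩
    have h1 : Seg (clq G Q) a (l1 ++ x :: y :: l3) b := by
      refine ⟨?_, ?_, ?_⟩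
      · rw [List.isChain_split]
        refine ⟨hch.1, ?_⟩
        rw [List.isChain_cons_cons]
        exact ⟨hadj, hch2⟩
      · rw [← hhd]
        cases l1 <;> rfl
      · rw [← hls, List.getLast?_append_of_ne_nil _ (List.cons_ne_nil _ _),
          List.getLast?_append_of_ne_nil _ (List.cons_ne_nil _ _), ← List.cons_append,
          List.getLast?_append_of_ne_nil _ (List.cons_ne_nil _ _)]
        rfl
    have h2 := hmin _ a b ha hb h1 (by
      intro v hv
      apply hPl
      simp only [List.mem_append, List.mem_cons] at hv ⊢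
      tauto)
    simp only [List.length_append, List.length_cons] at h2
    omega

/-- the graph for Menger's theorem: new vertices `(i, j)` joined to `Q j.succ` -/
def star1Graph (G : SimpleGraph V) (B : Finset V) (Q : Fin 7 → Finset V) (r : ℕ) :
    SimpleGraph (V ⊕ (Fin r × Fin 6)) where
  Adj x y := match x, y with
    | Sum.inl x, Sum.inl y => x ∈ B ∧ y ∈ B ∧ (clq G Q).Adj x y
    | Sum.inl x, Sum.inr p => x ∈ Q p.2.succ
    | Sum.inr p, Sum.inl x => x ∈ Q p.2.succ
    | Sum.inr _, Sum.inr _ => False
  symm := by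
    constructor
    rintro (x | p) (y | q) h
    · exact ⟨h.2.1, h.1, h.2.2.symm⟩
    · exact h
    · exact h
    · exact h
  loopless := by
    constructor
    rintro (x | p) h
    · exact h.2.2.ne rfl
    · exact h

lemma star1_lift {G : SimpleGraph V} {B : Finset V} {Q : Fin 7 → Finset V} {r : ℕ} :
    ∀ {l : List V}, l.IsChain G.Adj → (∀ v ∈ l, v ∈ B) →
      (l.map (Sum.inl : V → V ⊕ (Fin r × Fin 6))).IsChain (star1Graph G B Q r).Adj := by
  intro l
  induction l with
  | nil => intro _ _; simp
  | cons a t ih =>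
    intro hc hB
    rcases t with _ | ⟨b, t⟩
    · simp
    · rw [List.isChain_cons_cons] at hc
      have h1 := ih hc.2 (fun v hv => hB v (List.mem_cons_of_mem _ hv))
      rw [List.map_cons, List.map_cons, List.isChain_cons_cons]
      refine ⟨⟨hB a (by simp), hB b (by simp), hc.1.ne, Or.inl hc.1⟩, ?_⟩
      rw [List.map_cons] at h1
      exact h1

lemma star1_path {G : SimpleGraph V} {B : Finset V} {Q : Fin 7 → Finset V} {r : ℕ}
    (hQ : ∀ l, Q l ⊆ B) {p : Fin r × Fin 6} : ∀ {L : List (V ⊕ (Fin r × Fin 6))} {x0 : V},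
      Seg (star1Graph G B Q r) (Sum.inl x0) L (Sum.inr p) →
      (∀ q : Fin r × Fin 6, Sum.inr q ∈ L → q = p) →
      ∃ (l : List V) (z : V), Seg (clq G Q) x0 l z ∧ z ∈ Q p.2.succ ∧
        ∀ v ∈ l, v ∈ B ∧ Sum.inl v ∈ L := by
  intro L
  induction L with
  | nil =>
    intro x0 h _
    have := h.head
    simp at this
  | cons w t ih =>
    intro x0 h honly
    have hw : w = Sum.inl x0 := by
      have := h.head
      simpa using this
    subst hw
    rcases t with _ | ⟨w', t⟩
    · have := h.last
      simp at this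
    · have hc := h.chain
      rw [List.isChain_cons_cons] at hc
      rcases w' with y | q
      · have hadj : x0 ∈ B ∧ y ∈ B ∧ (clq G Q).Adj x0 y := hc.1
        have hseg : Seg (star1Graph G B Q r) (Sum.inl y) (Sum.inl y :: t) (Sum.inr p) := by
          refine ⟨hc.2, rfl, ?_⟩
          have := h.last
          rw [List.getLast?_cons_cons] at this
          exact this
        obtain ⟨l, z, hl, hz, hlL⟩ := ih hseg
          (fun q hq => honly q (List.mem_cons_of_mem _ hq))
        refine ⟨[x0] ++ l, z, (Seg.single x0).append hl hadj.2.2, hz, ?_⟩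
        intro v hv
        rw [List.mem_append, List.mem_singleton] at hv
        rcases hv with rfl | hv
        · exact ⟨hadj.1, by simp⟩
        · exact ⟨(hlL v hv).1, List.mem_cons_of_mem _ (hlL v hv).2⟩
      · have hq : q = p := honly q (by simp)
        subst hq
        have hadj : x0 ∈ Q q.2.succ := hc.1
        refine ⟨[x0], x0, Seg.single x0, hadj, ?_⟩
        intro v hv
        rw [List.mem_singleton] at hv
        subst hv
        exact ⟨hQ _ hadj, by simp⟩

/-- disjoint paths in `G` with every `Q l` made a clique -/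
lemma star_paths [Fintype V] {G : SimpleGraph V} {u : ℕ} (r : ℕ) {B : Finset V}
    {Q : Fin 7 → Finset V} (hQ : Pieces G B u Q)
    (hlink : ∀ Z : Finset V, Z.card < 6 * r → ∀ j : Fin 6, ∃ C ⊆ B \ Z, Conn G C ∧
      (∃ x ∈ C, x ∈ Q 0) ∧ ∃ x ∈ C, x ∈ Q j.succ) :
    ∃ C : Fin r → Fin 6 → Finset V, Links (clq G Q) B Q r 2 C := by
  have hcardP : Fintype.card (Fin r × Fin 6) = 6 * r := by
    rw [Fintype.card_prod, Fintype.card_fin, Fintype.card_fin, mul_comm]
  obtain ⟨f, a, b, L⟩ := Pool.Agent.RamQ.menger (star1Graph G B Q r)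
    ((Q 0).image (Sum.inl : V → V ⊕ (Fin r × Fin 6)))
    ((univ : Finset (Fin r × Fin 6)).image (Sum.inr : _ → V ⊕ (Fin r × Fin 6))) (6 * r) (by
      intro S hS
      by_contra hlt
      rw [not_le] at hlt
      have hZ : ((univ : Finset V).filter (fun x => (Sum.inl x : V ⊕ (Fin r × Fin 6)) ∈ S)).card
          ≤ S.card := by
        refine card_le_card_of_injOn (Sum.inl : V → V ⊕ (Fin r × Fin 6)) ?_
          (fun x _ y _ h => Sum.inl_injective h)
        intro x hx
        exact (mem_filter.1 hx).2
      obtain ⟨p, hp⟩ : ∃ p : Fin r × Fin 6, (Sum.inr p : V ⊕ (Fin r × Fin 6)) ∉ S := by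
        by_contra hcon
        push Not at hcon
        have h1 : ((univ : Finset (Fin r × Fin 6)).image
            (Sum.inr : _ → V ⊕ (Fin r × Fin 6))).card ≤ S.card := by
          apply card_le_card
          intro z hz
          rw [mem_image] at hz
          obtain ⟨q, -, rfl⟩ := hz
          exact hcon q
        rw [card_image_of_injective _ Sum.inr_injective, card_univ, hcardP] at h1
        omega
      obtain ⟨C, hC, hconn, ⟨x, hxC, hx0⟩, y, hyC, hyj⟩ := hlink _ (hZ.trans_lt hlt) p.2
      obtain ⟨l, hl, hlC⟩ := seg_of_conn hconn hxC hyC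
      have hlB : ∀ v ∈ l, v ∈ B := fun v hv => (mem_sdiff.1 (hC (hlC v hv))).1
      have h1 : Seg (star1Graph G B Q r) (Sum.inl x) (l.map Sum.inl) (Sum.inl y) := by
        refine ⟨star1_lift hl.chain hlB, ?_, ?_⟩
        · rw [List.head?_map, hl.head]; rfl
        · rw [List.getLast?_map, hl.last]; rfl
      have hyp : (star1Graph G B Q r).Adj (Sum.inl y) (Sum.inr p) := hyj
      obtain ⟨v, hv, hvS⟩ := hS _ _ _ (mem_image_of_mem _ hx0)
        (mem_image_of_mem _ (mem_univ p)) (h1.append (Seg.single _) hyp)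
      rw [List.mem_append, List.mem_map, List.mem_singleton] at hv
      rcases hv with ⟨z, hz, rfl⟩ | rfl
      · exact (mem_sdiff.1 (hC (hlC z hz))).2 (mem_filter.2 ⟨mem_univ _, hvS⟩)
      · exact hp hvS)
  have hbq : ∀ e, ∃ q : Fin r × Fin 6, b e = Sum.inr q := by
    intro e
    have := L.memB e
    rw [mem_image] at this
    obtain ⟨q, -, hq⟩ := this
    exact ⟨q, hq.symm⟩
  choose q hq using hbq
  have hbf : ∀ e, b e ∈ f e := fun e => List.mem_of_getLast? (L.sg e).last
  have hinj : Function.Injective q := by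
    intro e e' h
    by_contra hne
    refine L.disj e e' hne (b e) (hbf e) ?_
    rw [hq e, h, ← hq e']
    exact hbf e'
  have hbij : Function.Bijective q := by
    rw [Fintype.bijective_iff_injective_and_card]
    exact ⟨hinj, by rw [hcardP, Fintype.card_fin]⟩
  choose E hE using hbij.2
  have hx0 : ∀ e, ∃ x, x ∈ Q 0 ∧ a e = Sum.inl x := by
    intro e
    have := L.memA e
    rw [mem_image] at this
    obtain ⟨x, hx, hx'⟩ := this
    exact ⟨x, hx, hx'.symm⟩
  choose x hxQ hxa using hx0
  have hpath : ∀ p : Fin r × Fin 6, ∃ C ⊆ B.filter (fun v => Sum.inl v ∈ f (E p)),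
      Conn (clq G Q) C ∧ (∃ x ∈ C, x ∈ Q 0) ∧ (∃ x ∈ C, x ∈ Q p.2.succ) ∧
      ∀ l, (C ∩ Q l).card ≤ 2 := by
    intro p
    apply exists_short
    have hs := L.sg (E p)
    rw [hxa, hq, hE] at hs
    obtain ⟨l, z, hl, hz, hlL⟩ := star1_path hQ.sub hs (by
      intro q' hq'
      have := L.onlyB (E p) _ hq' (mem_image_of_mem _ (mem_univ _))
      rw [hq, hE] at this
      exact Sum.inr_injective this)
    exact ⟨l, x (E p), z, hxQ _, hz, hl, fun v hv => mem_filter.2 (hlL v hv)⟩
  choose C hC1 hC2 hC3 hC4 hC5 using hpath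
  refine ⟨fun i j => C (i, j), ?_, ?_, ?_, ?_, ?_, ?_⟩
  · intro i j v hv
    exact (mem_filter.1 (hC1 _ hv)).1
  · intro i j
    exact hC2 _
  · intro i j
    exact hC3 _
  · intro i j
    exact hC4 _
  · intro i j l
    exact hC5 _ l
  · intro i j i' j' hne
    rw [disjoint_left]
    intro v hv hv'
    have h1 := (mem_filter.1 (hC1 _ hv)).2
    have h2 := (mem_filter.1 (hC1 _ hv')).2
    refine L.disj _ _ ?_ _ h1 h2
    intro h
    apply hne
    rw [← hE (i, j), h, hE]

end Pool.Agent.Lib.MP_5babb6_co.W
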