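import Mathlib
import Pool.Agent.Lib.MP_5babb6_co.W.Base

set_option autoImplicit false

/-!
Robust sets.
-/

namespace Pool.Agent.Lib.MP_5babb6_co.W

open Finset Classical

variable {V : Type}

lemma Robust.mono {G : SimpleGraph V} {Q : Finset V} {l w l' w' : ℕ} (h : Robust G Q l w)
    (hl : l' ≤ l) (hw : w' ≤ w) : Robust G Q l' w' :=
  ⟨fun R hR => h.1 R (hR.trans hl), fun v hv => hw.trans (h.2 v hv)⟩

lemma Robust.self_conn {G : SimpleGraph V} {Q : Finset V} {l w : ℕ} (h : Robust G Q l w) :
    Conn G Q := by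
  have := h.1 ∅ (by simp)
  rwa [sdiff_empty] at this

lemma Robust.card_lt {G : SimpleGraph V} {Q : Finset V} {l w : ℕ} (h : Robust G Q l w) :
    w < Q.card := by
  obtain ⟨v, hv⟩ := h.self_conn.nonempty
  have h1 := h.2 v hv
  have h2 := dg_lt_card (G := G) hv
  omega

/-- removing a small set from a robust set -/
lemma Robust.sdiff {G : SimpleGraph V} {Q : Finset V} {l w : ℕ} (h : Robust G Q l w)
    (D : Finset V) {l' w' : ℕ} (hl : l' + D.card ≤ l) (hw : w' + D.card ≤ w) :
    Robust G (Q \ D) l' w' := by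
  refine ⟨fun R hR => ?_, fun v hv => ?_⟩
  · have h1 : (Q \ D) \ R = Q \ (D ∪ R) := by
      ext x
      simp only [mem_sdiff, mem_union, not_or]
      tauto
    rw [h1]
    exact h.1 _ ((card_union_le _ _).trans (by omega))
  · have h1 := h.2 v (mem_sdiff.1 hv).1
    have h2 := dg_le_sdiff (G := G) (X := Q) (R := D) (v := v)
    omega

/-- Lemma 1: robust subsets -/
lemma exists_robust (G : SimpleGraph V) (l w m : ℕ) (P : Finset V) (hP : P.Nonempty)
    (hc : P.card ≤ m * w) (hd : ∀ v ∈ P, w + l * m ≤ dg G P v) : ∃ Q ⊆ P, Robust G Q l w := by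
  induction m generalizing P with
  | zero =>
    rw [Nat.zero_mul, Nat.le_zero, card_eq_zero] at hc
    exact absurd hc hP.ne_empty
  | succ m ih =>
    by_cases hrob : Robust G P l w
    · exact ⟨P, Subset.refl _, hrob⟩
    have hdw : ∀ v ∈ P, w ≤ dg G P v := fun v hv => le_trans (Nat.le_add_right _ _) (hd v hv)
    obtain ⟨R, hR, hRc⟩ : ∃ R : Finset V, R.card ≤ l ∧ ¬ Conn G (P \ R) := by
      by_contra hcon
      push Not at hcon
      exact hrob ⟨hcon, hdw⟩
    obtain ⟨v0, hv0⟩ := hP
    have h1 := dg_lt_card (G := G) hv0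
    have h2 := hd v0 hv0
    have hne : (P \ R).Nonempty := by
      rw [← card_pos]
      have h3 := le_card_sdiff R P
      have h4 : l ≤ l * (m + 1) := Nat.le_mul_of_pos_right _ (Nat.succ_pos _)
      omega
    obtain ⟨C, Y, hCne, hYne, hCY, hun, hno⟩ := exists_split hne hRc
    have hCX : C ⊆ P \ R := by
      rw [← hun]
      exact subset_union_left
    have hYX : Y ⊆ P \ R := by
      rw [← hun]
      exact subset_union_right
    have hCP : C ⊆ P := hCX.trans sdiff_subset
    have hYP : Y ⊆ P := hYX.trans sdiff_subset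
    have hsplit : ∀ z ∈ P, z ∉ R → z ∈ C ∨ z ∈ Y := by
      intro z hz hzR
      have : z ∈ C ∪ Y := by
        rw [hun]
        exact mem_sdiff.2 ⟨hz, hzR⟩
      exact mem_union.1 this
    -- the size of `Y`
    have hYcard : w ≤ Y.card := by
      obtain ⟨y, hy⟩ := hYne
      have h3 : dg G P y ≤ dg G (Y ∪ R) y := by
        refine card_le_card ?_
        intro z hz
        rw [mem_nb] at hz ⊢
        refine ⟨?_, hz.2⟩
        rw [mem_union]
        by_cases hzR : z ∈ R
        · exact Or.inr hzR
        left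
        rcases hsplit z hz.1 hzR with h | h
        · exact absurd hz.2.symm (hno z h y hy)
        · exact h
      have h4 := dg_lt_card (G := G) (mem_union_left R hy)
      have h5 := card_union_le Y R
      have h6 := hd y (hYP hy)
      have h7 : l ≤ l * (m + 1) := Nat.le_mul_of_pos_right _ (Nat.succ_pos _)
      omega
    have hCcard : C.card ≤ m * w := by
      have h3 : (C ∪ Y).card ≤ P.card := card_le_card (union_subset hCP hYP)
      rw [card_union_of_disjoint hCY] at h3
      have h4 : (m + 1) * w = m * w + w := by ring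
      omega
    obtain ⟨Q, hQ, hQr⟩ := ih C hCne hCcard (by
      intro v hv
      have h3 : dg G P v ≤ dg G (C ∪ R) v := by
        refine card_le_card ?_
        intro z hz
        rw [mem_nb] at hz ⊢
        refine ⟨?_, hz.2⟩
        rw [mem_union]
        by_cases hzR : z ∈ R
        · exact Or.inr hzR
        left
        rcases hsplit z hz.1 hzR with h | h
        · exact h
        · exact absurd hz.2 (hno v hv z h)
      have h4 := dg_union_le (G := G) (X := C) (Y := R) (v := v)
      have h5 := dg_le_card (G := G) (X := R) (v := v)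
      have h6 := hd v (hCP hv)
      have h7 : l * (m + 1) = l * m + l := by ring
      omega)
    exact ⟨Q, hQ.trans hCP, hQr⟩

/-- Lemma 2: one piece -/
lemma one_piece {G : SimpleGraph V} {r s N u c l w : ℕ} {Q : Finset V} (hC : Cds V N u c)
    (hQ : Robust G Q l w) (hN : Q.card ≤ N) (hw : l + u ≤ w) (hl : r * c ≤ l)
    (hs : s + r * c ≤ Q.card) : HasStarIn G r s (Q : Set V) := by
  induction r generalizing Q l w with
  | zero =>
    obtain ⟨B, hB, hBs⟩ := Finset.exists_subset_card_eq (show s ≤ Q.card by omega)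
    exact ⟨Fin.elim0, B, hBs, fun i => i.elim0, by exact_mod_cast hB, fun i => i.elim0,
      fun i => i.elim0, fun i => i.elim0, fun i => i.elim0⟩
  | succ r ih =>
    have hrc' : (r + 1) * c = r * c + c := by ring
    obtain ⟨D, hDQ, hDc, hDcard, hdom⟩ := hC G Q hN hQ.self_conn
      (fun x hx => le_trans (by omega) (hQ.2 x hx))
    have hle := card_le_card hDQ
    have h1 : Robust G (Q \ D) (l - c) (w - c) := hQ.sdiff D (by omega) (by omega)
    have h2 := ih (Q := Q \ D) (l := l - c) (w := w - c) h1
      ((card_le_card sdiff_subset).trans hN) (by omega)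
      (by omega) (by
        rw [card_sdiff_of_subset hDQ]
        omega)
    refine h2.succ hDc (by exact_mod_cast hDQ) (by exact_mod_cast sdiff_subset) ?_ ?_
    · rw [Set.disjoint_left]
      intro a ha hb
      have hb' : a ∈ Q \ D := by exact_mod_cast hb
      exact (mem_sdiff.1 hb').2 (by exact_mod_cast ha)
    · intro y hy
      have hy' : y ∈ Q \ D := by exact_mod_cast hy
      obtain ⟨d, hd, hdy⟩ := hdom y (mem_sdiff.1 hy').1 (mem_sdiff.1 hy').2
      exact ⟨d, by exact_mod_cast hd, hdy⟩

/-- Lemma 3: a piece with satellites -/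
lemma satellites {G : SimpleGraph V} {l w u : ℕ} {Q W : Finset V} (hQ : Robust G Q l w)
    (hw : l + u ≤ w) (hu : 1 ≤ u) (hd : Disjoint Q W) (hW : ∀ v ∈ W, l + u ≤ dg G Q v) :
    Robust G (Q ∪ W) l (l + u) := by
  refine ⟨fun R hR => ?_, fun v hv => ?_⟩
  · have h1 : (Q ∪ W) \ R = (Q \ R) ∪ (W \ R) := by
      ext x
      simp only [mem_sdiff, mem_union]
      tauto
    rw [h1]
    refine (hQ.1 R hR).union_dom fun v hv => ?_
    right
    have h2 := hW v (mem_sdiff.1 hv).1
    have h3 := dg_le_sdiff (G := G) (X := Q) (R := R) (v := v)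
    obtain ⟨y, hy, hvy⟩ := exists_nbr (G := G) (X := Q \ R) (v := v) (by omega)
    exact ⟨y, hy, hvy.symm⟩
  · rcases mem_union.1 hv with h | h
    · exact hw.trans ((hQ.2 v h).trans (dg_mono subset_union_left v))
    · exact (hW v h).trans (dg_mono subset_union_left v)

/-- seven pieces, found one after the other -/
lemma pieces_of_step {G : SimpleGraph V} {B W : Finset V} {u : ℕ} (hW : W ⊆ B) (T : Prop)
    (step : ∀ m ≤ 6, ∀ Q : Fin m → Finset V, (∀ i, Q i ⊆ W) → (∀ i j, i ≠ j → Disjoint (Q i) (Q j)) →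
      (∀ i, Robust G (Q i) (10 * u) (200 * u)) → (∀ i, (Q i).card ≤ 2525 * u) →
      T ∨ ∃ P ⊆ W, (∀ i, Disjoint P (Q i)) ∧ Robust G P (10 * u) (200 * u) ∧
        P.card ≤ 2525 * u) :
    T ∨ ∃ Q : Fin 7 → Finset V, Pieces G B u Q ∧ ∀ l, Q l ⊆ W := by
  have key : ∀ j ≤ 7, T ∨ ∃ Q : Fin j → Finset V, (∀ i, Q i ⊆ W) ∧
      (∀ i i', i ≠ i' → Disjoint (Q i) (Q i')) ∧ (∀ i, Robust G (Q i) (10 * u) (200 * u)) ∧
      (∀ i, (Q i).card ≤ 2525 * u) := by
    intro j
    induction j with
    | zero =>
      intro _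
      exact Or.inr ⟨Fin.elim0, fun i => i.elim0, fun i => i.elim0, fun i => i.elim0,
        fun i => i.elim0⟩
    | succ j ih =>
      intro hj
      rcases ih (by omega) with h | ⟨Q, hQX, hQd, hQr, hQc⟩
      · exact Or.inl h
      rcases step j (by omega) Q hQX hQd hQr hQc with h | ⟨Q', hQ'X, hQ'd, hQ'r, hQ'c⟩
      · exact Or.inl h
      right
      refine ⟨Fin.cons Q' Q, ?_, ?_, ?_, ?_⟩
      · intro i
        refine Fin.cases ?_ (fun i => ?_) i
        · simpa using hQ'X
        · simpa using hQX i
      · intro i i'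
        refine Fin.cases ?_ (fun i => ?_) i
        · refine Fin.cases ?_ (fun i' => ?_) i'
          · intro h
            exact absurd rfl h
          · intro _
            simpa using hQ'd i'
        · refine Fin.cases ?_ (fun i' => ?_) i'
          · intro _
            simpa using (hQ'd i).symm
          · intro h
            simpa using hQd i i' (fun e => h (by rw [e]))
      · intro i
        refine Fin.cases ?_ (fun i => ?_) i
        · simpa using hQ'r
        · simpa using hQr i
      · intro i
        refine Fin.cases ?_ (fun i => ?_) i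
        · simpa using hQ'c
        · simpa using hQc i
  rcases key 7 le_rfl with h | ⟨Q, hQX, hQd, hQr, hQc⟩
  · exact Or.inl h
  · exact Or.inr ⟨Q, ⟨fun l => (hQX l).trans hW, hQd, hQr, hQc⟩, hQX⟩

end Pool.Agent.Lib.MP_5babb6_co.W
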