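import Mathlib
import Pool.Agent.Lib.MP_5babb6_co.W.Rob

set_option autoImplicit false

/-!
Lemma 4, second part: from paths in the clique graph to connected sets in `G`.
-/

namespace Pool.Agent.Lib.MP_5babb6_co.W

open Finset Classical

variable {V : Type}

/-- Connected sets `R a` in one robust piece containing the vertices of `P a`, one after the other. -/
private lemma star2_piece {G : SimpleGraph V} {Qs : Finset V} {u c : ℕ} (hC : Cds V (10 ^ 10 * u) u c)
    (hQ : Robust G Qs (10 * u) (200 * u)) (hcard : Qs.card ≤ 2525 * u) {A : Type} [Fintype A]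
    (P : A → Finset V) (hd : ∀ a b, a ≠ b → Disjoint (P a) (P b))
    (few : ∀ a, (P a ∩ Qs).card ≤ 2) (hs : Fintype.card A * (c + 4) ≤ 10 * u) (T : Finset A) :
    ∃ R : A → Finset V, (∀ a ∈ T, R a ⊆ Qs) ∧ (∀ a ∈ T, P a ∩ Qs ⊆ R a) ∧
      (∀ a ∈ T, (P a ∩ Qs).Nonempty → Conn G (R a)) ∧ (∀ a ∈ T, P a ∩ Qs = ∅ → R a = ∅) ∧
      (∀ a ∈ T, (R a).card ≤ c + 2) ∧ (∀ a ∈ T, ∀ b, a ≠ b → Disjoint (R a) (P b)) ∧
      (∀ a ∈ T, ∀ b ∈ T, a ≠ b → Disjoint (R a) (R b)) := by
  induction T using Finset.induction_on with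
  | empty =>
    exact ⟨fun _ => ∅, fun a h => absurd h (notMem_empty a), fun a h => absurd h (notMem_empty a),
      fun a h => absurd h (notMem_empty a), fun a h => absurd h (notMem_empty a),
      fun a h => absurd h (notMem_empty a), fun a h => absurd h (notMem_empty a),
      fun a h => absurd h (notMem_empty a)⟩
  | insert a T ha ih =>
    obtain ⟨R, h1, h2, h3, h4, h5, h6, h7⟩ := ih
    -- the new set
    obtain ⟨Ra, g1, g2, g3, g4, g5, g6, g7⟩ : ∃ Ra : Finset V, Ra ⊆ Qs ∧ P a ∩ Qs ⊆ Ra ∧
        ((P a ∩ Qs).Nonempty → Conn G Ra) ∧ (P a ∩ Qs = ∅ → Ra = ∅) ∧ Ra.card ≤ c + 2 ∧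
        (∀ b, a ≠ b → Disjoint Ra (P b)) ∧ ∀ b ∈ T, Disjoint Ra (R b) := by
      rcases eq_empty_or_nonempty (P a ∩ Qs) with he | hne
      · exact ⟨∅, empty_subset _, he.subset, fun h => absurd he h.ne_empty, fun _ => rfl,
          by rw [card_empty]; exact Nat.zero_le _, fun _ _ => disjoint_empty_left _,
          fun _ _ => disjoint_empty_left _⟩
      · let Z : Finset V := ((univ.erase a).biUnion fun b => P b ∩ Qs) ∪ T.biUnion R
        have hZ : Z.card ≤ 10 * u := by
          have e1 : ((univ.erase a).biUnion fun b => P b ∩ Qs).card ≤ (univ.erase a).card * 2 :=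
            card_biUnion_le_card_mul _ _ _ fun b _ => few b
          have e2 : (T.biUnion R).card ≤ T.card * (c + 2) :=
            card_biUnion_le_card_mul _ _ _ fun b hb => h5 b hb
          have e3 : (univ.erase a).card ≤ Fintype.card A := by
            rw [← card_univ]
            exact card_le_card (erase_subset _ _)
          have e4 : T.card ≤ Fintype.card A := card_le_univ T
          have e5 : Z.card ≤ (univ.erase a).card * 2 + T.card * (c + 2) :=
            (card_union_le _ _).trans (Nat.add_le_add e1 e2)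
          have e6 : T.card * (c + 2) ≤ Fintype.card A * (c + 2) := Nat.mul_le_mul_right _ e4
          have e7 : Fintype.card A * (c + 4) = Fintype.card A * (c + 2) + Fintype.card A * 2 := by
            ring
          omega
        have hF := hQ.sdiff Z (l' := 0) (w' := u) (by omega) (by omega)
        have hFc : (Qs \ Z).card ≤ 10 ^ 10 * u := by
          have e1 := card_le_card (sdiff_subset (s := Qs) (t := Z))
          have e2 : 2525 * u ≤ 10 ^ 10 * u := Nat.mul_le_mul_right _ (by norm_num)
          omega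
        obtain ⟨D, hD1, hD2, hD3, hD4⟩ := hC G (Qs \ Z) hFc hF.self_conn hF.2
        have hPF : P a ∩ Qs ⊆ Qs \ Z := by
          intro x hx
          rw [mem_inter] at hx
          rw [mem_sdiff]
          refine ⟨hx.2, fun hxZ => ?_⟩
          rcases mem_union.1 hxZ with h | h
          · obtain ⟨b, hb, hxb⟩ := mem_biUnion.1 h
            exact disjoint_left.1 (hd a b (ne_of_mem_erase hb).symm) hx.1 (mem_inter.1 hxb).1
          · obtain ⟨b, hb, hxb⟩ := mem_biUnion.1 h
            have hba : b ≠ a := fun h => ha (h ▸ hb)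
            exact disjoint_left.1 (h6 b hb a hba) hxb hx.1
        refine ⟨D ∪ (P a ∩ Qs), union_subset (hD1.trans sdiff_subset) inter_subset_right,
          subset_union_right, fun _ => ?_, fun he => absurd he hne.ne_empty, ?_, ?_, ?_⟩
        · refine hD2.union_dom fun y hy => ?_
          by_cases hyD : y ∈ D
          · exact Or.inl hyD
          · exact Or.inr (hD4 y (hPF hy) hyD)
        · exact (card_union_le _ _).trans (Nat.add_le_add hD3 (few a))
        · intro b hab
          rw [disjoint_union_left]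
          refine ⟨disjoint_left.2 fun x hx hxb => ?_, (hd a b hab).mono_left inter_subset_left⟩
          have hxF := mem_sdiff.1 (hD1 hx)
          exact hxF.2 (mem_union_left _ (mem_biUnion.2 ⟨b, mem_erase.2 ⟨hab.symm, mem_univ b⟩,
            mem_inter.2 ⟨hxb, hxF.1⟩⟩))
        · intro b hb
          have hba : b ≠ a := fun h => ha (h ▸ hb)
          rw [disjoint_union_left]
          refine ⟨disjoint_left.2 fun x hx hxb => ?_,
            ((h6 b hb a hba).symm).mono_left inter_subset_left⟩
          exact (mem_sdiff.1 (hD1 hx)).2 (mem_union_right _ (mem_biUnion.2 ⟨b, hb, hxb⟩))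
    have hu : ∀ b ∈ T, Function.update R a Ra b = R b := fun b hb =>
      Function.update_of_ne (fun h : b = a => ha (h ▸ hb)) _ _
    have hua : Function.update R a Ra a = Ra := Function.update_self _ _ _
    refine ⟨Function.update R a Ra, ?_, ?_, ?_, ?_, ?_, ?_, ?_⟩
    · intro b hb
      rcases mem_insert.1 hb with rfl | hb
      · rw [hua]; exact g1
      · rw [hu b hb]; exact h1 b hb
    · intro b hb
      rcases mem_insert.1 hb with rfl | hb
      · rw [hua]; exact g2
      · rw [hu b hb]; exact h2 b hb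
    · intro b hb
      rcases mem_insert.1 hb with rfl | hb
      · rw [hua]; exact g3
      · rw [hu b hb]; exact h3 b hb
    · intro b hb
      rcases mem_insert.1 hb with rfl | hb
      · rw [hua]; exact g4
      · rw [hu b hb]; exact h4 b hb
    · intro b hb
      rcases mem_insert.1 hb with rfl | hb
      · rw [hua]; exact g5
      · rw [hu b hb]; exact h5 b hb
    · intro b hb
      rcases mem_insert.1 hb with rfl | hb
      · rw [hua]; exact g6
      · rw [hu b hb]; exact h6 b hb
    · intro b hb b' hb' hne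
      rcases mem_insert.1 hb with hba | hbT
      · rcases mem_insert.1 hb' with hba' | hbT'
        · exact absurd (hba.trans hba'.symm) hne
        · rw [hba, hua, hu b' hbT']; exact g7 b' hbT'
      · rcases mem_insert.1 hb' with hba' | hbT'
        · rw [hba', hua, hu b hbT]; exact (g7 b hbT).symm
        · rw [hu b hbT, hu b' hbT']; exact h7 b hbT b' hbT' hne

/-- A connected set with two vertices contains an edge. -/
private lemma star2_edge {G : SimpleGraph V} {X : Finset V} (hX : Conn G X) {a b : V} (ha : a ∈ X)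
    (hb : b ∈ X) (hab : a ≠ b) : ∃ x ∈ X, ∃ y ∈ X, G.Adj x y := by
  have h1 := SimpleGraph.Connected.preconnected hX ⟨a, by exact_mod_cast ha⟩
    ⟨b, by exact_mod_cast hb⟩
  obtain ⟨w⟩ := h1
  cases w with
  | nil => exact absurd rfl hab
  | @cons _ v _ h _ => exact ⟨a, ha, v.1, by exact_mod_cast v.2, h⟩

lemma star_links {G : SimpleGraph V} {r s t k u c : ℕ} (hp : Par r s t k u c)
    (hC : Cds V (10 ^ 10 * u) u c) {B : Finset V} {Q : Fin 7 → Finset V} (hQ : Pieces G B u Q)
    {P : Fin r → Fin 6 → Finset V} (hP : Links (clq G Q) B Q r 2 P) :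
    ∃ C : Fin r → Fin 6 → Finset V, Links G B Q r (c + 2) C := by
  have hsz : Fintype.card (Fin r × Fin 6) * (c + 4) ≤ 10 * u := by
    rw [Fintype.card_prod, Fintype.card_fin, Fintype.card_fin]
    have h1 := hp.hN
    have h2 := hp.hu
    have h3 : r * 6 * (c + 4) ≤ 20 * (r * (c + 3)) := by
      have h4 : r * 6 * (c + 4) = 6 * (r * (c + 3)) + 6 * r := by ring
      have h5 : r ≤ r * (c + 3) := Nat.le_mul_of_pos_right _ (by omega)
      omega
    omega
  have hd : ∀ a b : Fin r × Fin 6, a ≠ b → Disjoint (P a.1 a.2) (P b.1 b.2) := by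
    rintro ⟨i, j⟩ ⟨i', j'⟩ h
    exact hP.disj i j i' j' h
  have hpc := fun l : Fin 7 => star2_piece hC (hQ.rob l) (hQ.card l)
    (fun a : Fin r × Fin 6 => P a.1 a.2) hd (fun a => hP.few a.1 a.2 l) hsz univ
  choose R h1 h2 h3 h4 h5 h6 h7 using hpc
  refine ⟨fun i j => P i j ∪ univ.biUnion fun l => R l (i, j), ?_, ?_, ?_, ?_, ?_, ?_⟩
  · intro i j
    refine union_subset (hP.sub i j) (biUnion_subset.2 fun l _ => ?_)
    exact (h1 l (i, j) (mem_univ _)).trans (hQ.sub l)
  · intro i j
    have hφ : P i j ∪ (univ.biUnion fun l => R l (i, j)) = (P i j).biUnion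
        (fun a => {a} ∪ (univ.filter fun l => a ∈ Q l).biUnion fun l => R l (i, j)) := by
      ext x
      rw [mem_union, mem_biUnion, mem_biUnion]
      constructor
      · rintro (hx | ⟨l, -, hx⟩)
        · exact ⟨x, hx, mem_union_left _ (mem_singleton_self x)⟩
        · have hne : (P i j ∩ Q l).Nonempty := by
            rw [nonempty_iff_ne_empty]
            intro he
            rw [h4 l (i, j) (mem_univ _) he] at hx
            exact notMem_empty x hx
          obtain ⟨a, ha⟩ := hne
          rw [mem_inter] at ha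
          exact ⟨a, ha.1, mem_union_right _ (mem_biUnion.2 ⟨l, mem_filter.2 ⟨mem_univ l, ha.2⟩,
            hx⟩)⟩
      · rintro ⟨a, ha, hx⟩
        rcases mem_union.1 hx with hx | hx
        · rw [mem_singleton] at hx
          exact Or.inl (hx ▸ ha)
        · obtain ⟨l, -, hx⟩ := mem_biUnion.1 hx
          exact Or.inr ⟨l, mem_univ l, hx⟩
    have hmem : ∀ a ∈ P i j, ∀ l, a ∈ Q l → a ∈ R l (i, j) := fun a ha l hl =>
      h2 l (i, j) (mem_univ _) (mem_inter.2 ⟨ha, hl⟩)
    have hco : ∀ a ∈ P i j, ∀ l, a ∈ Q l → Conn G (R l (i, j)) := fun a ha l hl =>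
      h3 l (i, j) (mem_univ _) ⟨a, mem_inter.2 ⟨ha, hl⟩⟩
    rw [hφ]
    refine (hP.conn i j).biUnion_map _ ?_ ?_
    · intro a ha
      refine (conn_singleton G a).biUnion _ _ fun l hl => ?_
      have hal := (mem_filter.1 hl).2
      exact ⟨hco a ha l hal, a, mem_singleton_self a, a, hmem a ha l hal, Or.inl rfl⟩
    · intro a ha b hb hab
      obtain ⟨hne, hab⟩ := hab
      rcases hab with hab | ⟨l, hal, hbl⟩
      · exact ⟨a, mem_union_left _ (mem_singleton_self a), b,
          mem_union_left _ (mem_singleton_self b), hab⟩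
      · obtain ⟨x, hx, y, hy, hxy⟩ := star2_edge (hco a ha l hal) (hmem a ha l hal)
          (hmem b hb l hbl) hne
        exact ⟨x, mem_union_right _ (mem_biUnion.2 ⟨l, mem_filter.2 ⟨mem_univ l, hal⟩, hx⟩), y,
          mem_union_right _ (mem_biUnion.2 ⟨l, mem_filter.2 ⟨mem_univ l, hbl⟩, hy⟩), hxy⟩
  · intro i j
    obtain ⟨x, hx, hx2⟩ := hP.meet0 i j
    exact ⟨x, mem_union_left _ hx, hx2⟩
  · intro i j
    obtain ⟨x, hx, hx2⟩ := hP.meetj i j
    exact ⟨x, mem_union_left _ hx, hx2⟩
  · intro i j l
    refine (card_le_card ?_).trans (h5 l (i, j) (mem_univ _))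
    intro x hx
    rw [mem_inter, mem_union, mem_biUnion] at hx
    obtain ⟨hx1 | ⟨l', -, hx1⟩, hx2⟩ := hx
    · exact h2 l (i, j) (mem_univ _) (mem_inter.2 ⟨hx1, hx2⟩)
    · by_cases hl : l' = l
      · rw [← hl]
        exact hx1
      · exact absurd hx2 (disjoint_left.1 (hQ.disj l' l hl) (h1 l' (i, j) (mem_univ _) hx1))
  · intro i j i' j' hne
    rw [disjoint_union_left, disjoint_union_right, disjoint_union_right]
    refine ⟨⟨hP.disj i j i' j' hne, ?_⟩, ?_, ?_⟩
    · rw [disjoint_biUnion_right]
      intro l _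
      exact (h6 l (i', j') (mem_univ _) (i, j) hne.symm).symm
    · rw [disjoint_biUnion_left]
      intro l _
      exact h6 l (i, j) (mem_univ _) (i', j') hne
    · rw [disjoint_biUnion_left]
      intro l _
      rw [disjoint_biUnion_right]
      intro l' _
      by_cases hl : l = l'
      · rw [← hl]
        exact h7 l (i, j) (mem_univ _) (i', j') (mem_univ _) hne
      · exact ((hQ.disj l l' hl).mono_left (h1 l (i, j) (mem_univ _))).mono_right
          (h1 l' (i', j') (mem_univ _))

end Pool.Agent.Lib.MP_5babb6_co.W
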