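import Mathlib
import Pool.Agent.Lib.MP_5babb6_co.W.Star1
import Pool.Agent.Lib.MP_5babb6_co.W.Star2

set_option autoImplicit false

/-!
Lemma 5: seven linked pieces.
-/

namespace Pool.Agent.Lib.MP_5babb6_co.W

open Finset Classical

variable {V : Type}

/-- the links with first index satisfying `P` -/
private noncomputable def lks {r : ℕ} (C : Fin r → Fin 6 → Finset V) (P : ℕ → Prop) : Finset V :=
  (Finset.univ.filter (fun p : Fin r × Fin 6 => P p.1.val)).biUnion (fun p => C p.1 p.2)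

private lemma mem_lks {r : ℕ} {C : Fin r → Fin 6 → Finset V} {P : ℕ → Prop} {x : V} :
    x ∈ lks C P ↔ ∃ i j, P i.val ∧ x ∈ C i j := by
  simp only [lks, mem_biUnion, mem_filter, Finset.mem_univ, true_and, Prod.exists]

/-- the pure rest -/
private noncomputable def rest {r : ℕ} (Q : Fin 7 → Finset V) (C : Fin r → Fin 6 → Finset V)
    (R : Finset V) : Finset V :=
  (Finset.univ.biUnion Q) \ (lks C (fun _ => True) ∪ R)

private lemma mem_rest {r : ℕ} {Q : Fin 7 → Finset V} {C : Fin r → Fin 6 → Finset V}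
    {R : Finset V} {x : V} :
    x ∈ rest Q C R ↔ (∃ l, x ∈ Q l) ∧ x ∉ lks C (fun _ => True) ∧ x ∉ R := by
  simp only [rest, mem_sdiff, mem_biUnion, Finset.mem_univ, true_and, mem_union, not_or]

private lemma card_lks {G : SimpleGraph V} {r b : ℕ} {B : Finset V} {Q : Fin 7 → Finset V}
    {C : Fin r → Fin 6 → Finset V} (hL : Links G B Q r b C) (P : ℕ → Prop) (l : Fin 7) :
    (lks C P ∩ Q l).card ≤ 6 * r * b := by
  unfold lks
  rw [biUnion_inter]
  refine (card_biUnion_le_card_mul _ _ b (fun p _ => hL.few p.1 p.2 l)).trans ?_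
  refine Nat.mul_le_mul_right _ ?_
  refine (card_filter_le _ _).trans ?_
  rw [card_univ, Fintype.card_prod, Fintype.card_fin, Fintype.card_fin]
  omega

private lemma core_step {G : SimpleGraph V} {r s t k u c : ℕ} (hp : Par r s t k u c)
    (hC : Cds V (10 ^ 10 * u) u c) {B : Finset V} {Q : Fin 7 → Finset V} (hQ : Pieces G B u Q)
    {C : Fin r → Fin 6 → Finset V} (hL : Links G B Q r (c + 2) C) :
    ∀ j ≤ r, ∀ R : Finset V, Disjoint R (lks C (fun _ => True)) →
      (∀ l, (R ∩ Q l).card ≤ (r - j) * (c + 1)) →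
      ∃ (A : Fin j → Finset V) (T : Finset V), T.card = s ∧ T ⊆ rest Q C R ∧
        (∀ i, A i ⊆ rest Q C R ∪ lks C (fun n => n < j)) ∧
        (∀ i, ∃ x ∈ A i, x ∈ rest Q C R) ∧ (∀ i, Conn G (A i)) ∧
        (∀ i i', i ≠ i' → Disjoint (A i) (A i')) ∧
        (∀ i i', i ≠ i' → ∃ x ∈ A i, ∃ y ∈ A i', G.Adj x y) ∧
        (∀ i, ∀ b ∈ T, b ∉ A i ∧ ∃ x ∈ A i, G.Adj x b) := by
  obtain ⟨hr, hs, ht, hc, hu, h1, h2, hN⟩ := id hp
  obtain ⟨LK, hLK⟩ : ∃ LK, LK = lks C (fun _ => True) := ⟨_, rfl⟩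
  have e1 : r * (c + 3) = r * c + 3 * r := by ring
  have e2 : 6 * r * (c + 2) = 6 * (r * c) + 12 * r := by ring
  have hLl : ∀ (P : ℕ → Prop) l, (lks C P ∩ Q l).card ≤ 6 * (r * c) + 12 * r := by
    intro P l
    rw [← e2]
    exact card_lks hL P l
  intro j
  induction j with
  | zero =>
    intro _ R _ hRc
    have hcard : s ≤ (rest Q C R).card := by
      have h3 : (Finset.univ.biUnion (fun l => Q l \ (LK ∪ R))) ⊆ rest Q C R := by
        intro x hx
        simp only [mem_biUnion, Finset.mem_univ, true_and, mem_sdiff, mem_union, not_or] at hx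
        obtain ⟨l, hx, hx1, hx2⟩ := hx
        rw [mem_rest, ← hLK]
        exact ⟨⟨l, hx⟩, hx1, hx2⟩
      refine le_trans ?_ (card_le_card h3)
      rw [card_biUnion (fun l _ l' _ hll => (hQ.disj l l' hll).mono sdiff_subset sdiff_subset)]
      have h4 : ∀ l ∈ (Finset.univ : Finset (Fin 7)), 200 * u - k ≤ (Q l \ (LK ∪ R)).card := by
        intro l _
        have h5 := (hQ.rob l).card_lt
        have h6 : Q l \ (LK ∪ R) = Q l \ ((LK ∩ Q l) ∪ (R ∩ Q l)) := by
          ext x
          simp only [mem_sdiff, mem_union, mem_inter]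
          tauto
        have h7 := le_card_sdiff ((LK ∩ Q l) ∪ (R ∩ Q l)) (Q l)
        rw [← h6] at h7
        have h8 := card_union_le (LK ∩ Q l) (R ∩ Q l)
        have h9 := hRc l
        have h10 := hLl (fun _ => True) l
        rw [← hLK] at h10
        rw [Nat.sub_zero] at h9
        have h11 : r * (c + 1) = r * c + r := by ring
        omega
      have h5 := sum_le_sum h4
      rw [sum_const, card_univ, Fintype.card_fin, smul_eq_mul] at h5
      refine le_trans ?_ h5
      omega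
    obtain ⟨T, hT, hTc⟩ := exists_subset_card_eq hcard
    exact ⟨Fin.elim0, T, hTc, hT, fun i => i.elim0, fun i => i.elim0, fun i => i.elim0,
      fun i => i.elim0, fun i => i.elim0, fun i => i.elim0⟩
  | succ j ihj =>
    intro hjr R hRd hRc
    obtain ⟨i0, hi0⟩ : ∃ i0 : Fin r, i0.val = j := ⟨⟨j, by omega⟩, rfl⟩
    obtain ⟨LK', hLK'⟩ : ∃ LK', LK' = lks C (fun n => n ≠ j) := ⟨_, rfl⟩
    have hsub : LK' ⊆ LK := by
      intro x hx
      rw [hLK', mem_lks] at hx
      obtain ⟨i, j', -, hx⟩ := hx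
      rw [hLK, mem_lks]
      exact ⟨i, j', trivial, hx⟩
    have hjc : (r - (j + 1)) * (c + 1) ≤ r * c + r := by
      have h3 : (r - (j + 1)) * (c + 1) ≤ r * (c + 1) := Nat.mul_le_mul_right _ (Nat.sub_le _ _)
      have h4 : r * (c + 1) = r * c + r := by ring
      omega
    have hrow : ∀ j' x, x ∈ C i0 j' → x ∉ LK' ∧ x ∉ R := by
      intro j' x hx
      constructor
      · rw [hLK', mem_lks]
        rintro ⟨i, j'', hi, hx'⟩
        refine (disjoint_left.1 (hL.disj i0 j' i j'' ?_)) hx hx'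
        intro h
        rw [Prod.mk.injEq] at h
        exact hi (by rw [← h.1, hi0])
      · intro hxR
        refine (disjoint_left.1 hRd) hxR ?_
        rw [mem_lks]
        exact ⟨i0, j', trivial, hx⟩
    -- the connected dominating sets
    have hD : ∀ l, ∃ D ⊆ Q l \ (LK' ∪ R), Conn G D ∧ D.card ≤ c ∧
        ∀ x ∈ Q l \ (LK' ∪ R), x ∉ D → ∃ y ∈ D, G.Adj y x := by
      intro l
      have h6 : Q l \ (LK' ∪ R) = Q l \ ((LK' ∩ Q l) ∪ (R ∩ Q l)) := by
        ext x
        simp only [mem_sdiff, mem_union, mem_inter]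
        tauto
      have h8 := card_union_le (LK' ∩ Q l) (R ∩ Q l)
      have h9 := hRc l
      have h10 := hLl (fun n => n ≠ j) l
      rw [← hLK'] at h10
      have h7 : ((LK' ∩ Q l) ∪ (R ∩ Q l)).card ≤ k := by omega
      rw [h6]
      refine hC G _ ?_ ((hQ.rob l).1 _ (by omega)) ?_
      · refine (card_le_card sdiff_subset).trans ((hQ.card l).trans ?_)
        omega
      · intro v hv
        have h11 := (hQ.rob l).2 v (mem_sdiff.1 hv).1
        have h12 := dg_le_sdiff (G := G) (X := Q l) (R := (LK' ∩ Q l) ∪ (R ∩ Q l)) (v := v)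
        omega
    choose D hD1 hD2 hD3 hD4 using hD
    have hv : ∀ l, ∃ v, v ∈ Q l ∧ v ∉ LK ∧ v ∉ R := by
      intro l
      by_contra hcon
      push Not at hcon
      have h5 := (hQ.rob l).card_lt
      have h6 : Q l ⊆ (LK ∩ Q l) ∪ (R ∩ Q l) := by
        intro x hx
        rw [mem_union, mem_inter, mem_inter]
        by_cases hxL : x ∈ LK
        · exact Or.inl ⟨hxL, hx⟩
        · exact Or.inr ⟨hcon x hx hxL, hx⟩
      have h7 := card_le_card h6
      have h8 := card_union_le (LK ∩ Q l) (R ∩ Q l)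
      have h9 := hRc l
      have h10 := hLl (fun _ => True) l
      rw [← hLK] at h10
      omega
    choose v hv1 hv2 hv3 using hv
    obtain ⟨E, hE⟩ : ∃ E : Fin 7 → Finset V, E = fun l => D l ∪ {v l} := ⟨_, rfl⟩
    have hEl : ∀ l, E l = D l ∪ {v l} := fun l => by rw [hE]
    have hvF : ∀ l, v l ∈ Q l \ (LK' ∪ R) := by
      intro l
      rw [mem_sdiff, mem_union, not_or]
      exact ⟨hv1 l, fun h => hv2 l (hsub h), hv3 l⟩
    have hEF : ∀ l, E l ⊆ Q l \ (LK' ∪ R) := by
      intro l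
      rw [hEl]
      exact union_subset (hD1 l) (singleton_subset_iff.2 (hvF l))
    have hEc : ∀ l, (E l).card ≤ c + 1 := by
      intro l
      rw [hEl]
      refine (card_union_le _ _).trans ?_
      rw [card_singleton]
      have := hD3 l
      omega
    have hdom : ∀ l, ∀ x ∈ Q l \ (LK' ∪ R), x ∈ E l ∨ ∃ y ∈ E l, G.Adj y x := by
      intro l x hx
      rw [hEl]
      by_cases hxD : x ∈ D l
      · exact Or.inl (mem_union_left _ hxD)
      · obtain ⟨y, hy, hyx⟩ := hD4 l x hx hxD
        exact Or.inr ⟨y, mem_union_left _ hy, hyx⟩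
    have hEconn : ∀ l, Conn G (E l) := by
      intro l
      rw [hEl]
      refine (hD2 l).union_dom ?_
      intro y hy
      rw [mem_singleton] at hy
      rw [hy]
      by_cases hxD : v l ∈ D l
      · exact Or.inl hxD
      · exact Or.inr (hD4 l (v l) (hvF l) hxD)
    have hCF : ∀ j' l x, x ∈ C i0 j' → x ∈ Q l → x ∈ Q l \ (LK' ∪ R) := by
      intro j' l x hx hxl
      rw [mem_sdiff, mem_union, not_or]
      exact ⟨hxl, hrow j' x hx⟩
    obtain ⟨N, hNdef⟩ : ∃ N : Finset V, N = (E 0 ∪ Finset.univ.biUnion (C i0)) ∪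
        Finset.univ.biUnion (fun l : Fin 6 => E l.succ) := ⟨_, rfl⟩
    have hNE : ∀ l, E l ⊆ N := by
      intro l x hx
      rw [hNdef, mem_union, mem_union]
      refine Fin.cases ?_ (fun l => ?_) l hx
      · intro hx
        exact Or.inl (Or.inl hx)
      · intro hx
        exact Or.inr (mem_biUnion.2 ⟨l, Finset.mem_univ _, hx⟩)
    have hNmem : ∀ x ∈ N, (∃ l, x ∈ E l) ∨ ∃ j', x ∈ C i0 j' := by
      intro x hx
      rw [hNdef] at hx
      simp only [mem_union, mem_biUnion, Finset.mem_univ, true_and] at hx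
      rcases hx with (h | h) | ⟨l, h⟩
      · exact Or.inl ⟨0, h⟩
      · exact Or.inr h
      · exact Or.inl ⟨l.succ, h⟩
    have hNconn : Conn G N := by
      rw [hNdef]
      have hc1 : Conn G (E 0 ∪ Finset.univ.biUnion (C i0)) := by
        refine (hEconn 0).biUnion _ _ ?_
        intro j' _
        refine ⟨hL.conn i0 j', ?_⟩
        obtain ⟨x, hx, hx0⟩ := hL.meet0 i0 j'
        rcases hdom 0 x (hCF j' 0 x hx hx0) with h | ⟨y, hy, hyx⟩
        · exact ⟨x, h, x, hx, Or.inl rfl⟩
        · exact ⟨y, hy, x, hx, Or.inr hyx⟩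
      refine hc1.biUnion _ _ ?_
      intro l _
      refine ⟨hEconn _, ?_⟩
      obtain ⟨x, hx, hxl⟩ := hL.meetj i0 l
      have hxN : x ∈ E 0 ∪ Finset.univ.biUnion (C i0) :=
        mem_union_right _ (mem_biUnion.2 ⟨l, Finset.mem_univ _, hx⟩)
      rcases hdom l.succ x (hCF l l.succ x hx hxl) with h | ⟨y, hy, hyx⟩
      · exact ⟨x, hxN, x, h, Or.inl rfl⟩
      · exact ⟨x, hxN, y, hy, Or.inr hyx.symm⟩
    have hNLK' : ∀ x ∈ N, x ∉ LK' := by
      intro x hx
      rcases hNmem x hx with ⟨l, h⟩ | ⟨j', h⟩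
      · intro hxL
        exact (mem_sdiff.1 (hEF l h)).2 (mem_union_left _ hxL)
      · exact (hrow j' x h).1
    have hNsub : N ⊆ rest Q C R ∪ lks C (fun n => n < j + 1) := by
      intro x hx
      rw [mem_union, mem_rest, ← hLK, mem_lks]
      have hxx := hNLK' x hx
      rcases hNmem x hx with ⟨l, h⟩ | ⟨j', h⟩
      · have h3 := mem_sdiff.1 (hEF l h)
        rw [mem_union, not_or] at h3
        by_cases hxL : x ∈ LK
        · right
          rw [hLK, mem_lks] at hxL
          obtain ⟨i, j', -, hxi⟩ := hxL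
          refine ⟨i, j', ?_, hxi⟩
          by_contra hij
          apply hxx
          rw [hLK', mem_lks]
          exact ⟨i, j', by omega, hxi⟩
        · exact Or.inl ⟨⟨l, h3.1⟩, hxL, h3.2.2⟩
      · exact Or.inr ⟨i0, j', by omega, h⟩
    -- the rest
    obtain ⟨R', hR'⟩ : ∃ R', R' = R ∪ (N \ LK) := ⟨_, rfl⟩
    have hR'd : Disjoint R' (lks C (fun _ => True)) := by
      rw [hR', disjoint_union_left, ← hLK]
      exact ⟨by rw [hLK]; exact hRd, sdiff_disjoint⟩
    have hR'c : ∀ l, (R' ∩ Q l).card ≤ (r - j) * (c + 1) := by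
      intro l
      have h3 : R' ∩ Q l ⊆ (R ∩ Q l) ∪ E l := by
        intro x hx
        rw [mem_inter, hR', mem_union, mem_sdiff] at hx
        rw [mem_union, mem_inter]
        obtain ⟨hx | ⟨hxN, hxL⟩, hxl⟩ := hx
        · exact Or.inl ⟨hx, hxl⟩
        · right
          rcases hNmem x hxN with ⟨l', h⟩ | ⟨j', h⟩
          · by_cases hll : l' = l
            · rw [← hll]
              exact h
            · exact ((disjoint_left.1 (hQ.disj l' l hll)) (mem_sdiff.1 (hEF l' h)).1 hxl).elim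
          · exfalso
            apply hxL
            rw [hLK, mem_lks]
            exact ⟨i0, j', trivial, h⟩
      have h4 := (card_le_card h3).trans (card_union_le _ _)
      have h5 := hRc l
      have h6 := hEc l
      have h7 : (r - j) * (c + 1) = (r - (j + 1)) * (c + 1) + (c + 1) := by
        have h8 : r - j = (r - (j + 1)) + 1 := by omega
        rw [h8]
        ring
      omega
    obtain ⟨A, T, hTc, hT, hA1, hA2, hA3, hA4, hA5, hA6⟩ := ihj (by omega) R' hR'd hR'c
    have hrest : ∀ x ∈ rest Q C R', x ∈ rest Q C R ∧ x ∉ N ∧ ∃ y ∈ N, G.Adj y x := by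
      intro x hx
      rw [mem_rest, ← hLK, hR', mem_union, mem_sdiff] at hx
      obtain ⟨⟨l, hl⟩, hxL, hxR⟩ := hx
      have hxR1 : x ∉ R := fun h => hxR (Or.inl h)
      have hxN : x ∉ N := fun h => hxR (Or.inr ⟨h, hxL⟩)
      refine ⟨?_, hxN, ?_⟩
      · rw [mem_rest, ← hLK]
        exact ⟨⟨l, hl⟩, hxL, hxR1⟩
      · rcases hdom l x (by
          rw [mem_sdiff, mem_union, not_or]
          exact ⟨hl, fun h => hxL (hsub h), hxR1⟩) with h | ⟨y, hy, hyx⟩
        · exact (hxN (hNE l h)).elim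
        · exact ⟨y, hNE l hy, hyx⟩
    have hlt : lks C (fun n => n < j) ⊆ lks C (fun n => n < j + 1) := by
      intro x hx
      rw [mem_lks] at hx ⊢
      obtain ⟨i, j', hi, hx⟩ := hx
      exact ⟨i, j', by omega, hx⟩
    have hNA : ∀ i, Disjoint N (A i) := by
      intro i
      rw [disjoint_left]
      intro x hxN hxA
      rcases mem_union.1 (hA1 i hxA) with h | h
      · exact (hrest x h).2.1 hxN
      · apply hNLK' x hxN
        rw [hLK', mem_lks]
        rw [mem_lks] at h
        obtain ⟨i', j', hi, hx⟩ := h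
        exact ⟨i', j', by omega, hx⟩
    have hNA2 : ∀ i, ∃ x ∈ N, ∃ y ∈ A i, G.Adj x y := by
      intro i
      obtain ⟨x, hx, hxr⟩ := hA2 i
      obtain ⟨-, -, y, hy, hyx⟩ := hrest x hxr
      exact ⟨y, hy, x, hx, hyx⟩
    refine ⟨Fin.cons N A, T, hTc, fun x hx => (hrest x (hT hx)).1, ?_, ?_, ?_, ?_, ?_, ?_⟩
    · intro i
      refine Fin.cases ?_ (fun i => ?_) i
      · simpa using hNsub
      · have h3 : A i ⊆ rest Q C R ∪ lks C (fun n => n < j + 1) := by
          intro x hx
          rcases mem_union.1 (hA1 i hx) with h | h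
          · exact mem_union_left _ (hrest x h).1
          · exact mem_union_right _ (hlt h)
        simpa using h3
    · intro i
      refine Fin.cases ?_ (fun i => ?_) i
      · refine ⟨v 0, ?_, ?_⟩
        · rw [Fin.cons_zero]
          apply hNE 0
          rw [hEl]
          exact mem_union_right _ (mem_singleton_self _)
        · rw [mem_rest, ← hLK]
          exact ⟨⟨0, hv1 0⟩, hv2 0, hv3 0⟩
      · obtain ⟨x, hx, hxr⟩ := hA2 i
        exact ⟨x, by rw [Fin.cons_succ]; exact hx, (hrest x hxr).1⟩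
    · intro i
      refine Fin.cases ?_ (fun i => ?_) i
      · exact hNconn
      · exact hA3 i
    · intro i i'
      refine Fin.cases ?_ (fun i => ?_) i
      · refine Fin.cases ?_ (fun i' => ?_) i'
        · intro h
          exact (h rfl).elim
        · intro _
          exact hNA i'
      · refine Fin.cases ?_ (fun i' => ?_) i'
        · intro _
          exact (hNA i).symm
        · intro h
          exact hA4 i i' (fun e => h (by rw [e]))
    · intro i i'
      refine Fin.cases ?_ (fun i => ?_) i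
      · refine Fin.cases ?_ (fun i' => ?_) i'
        · intro h
          exact (h rfl).elim
        · intro _
          exact hNA2 i'
      · refine Fin.cases ?_ (fun i' => ?_) i'
        · intro _
          obtain ⟨x, hx, y, hy, hxy⟩ := hNA2 i
          exact ⟨y, hy, x, hx, hxy.symm⟩
        · intro h
          exact hA5 i i' (fun e => h (by rw [e]))
    · intro i b hb
      refine Fin.cases ?_ (fun i => ?_) i
      · obtain ⟨-, h3, h4⟩ := hrest b (hT hb)
        exact ⟨h3, h4⟩
      · exact hA6 i b hb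

lemma many_core {G : SimpleGraph V} {r s t k u c : ℕ} (hp : Par r s t k u c)
    (hC : Cds V (10 ^ 10 * u) u c) {B : Finset V} {Q : Fin 7 → Finset V} (hQ : Pieces G B u Q)
    {C : Fin r → Fin 6 → Finset V} (hL : Links G B Q r (c + 2) C) :
    HasStarIn G r s (B : Set V) := by
  obtain ⟨A, T, hTc, hT, hA1, -, hA3, hA4, hA5, hA6⟩ := core_step hp hC hQ hL r le_rfl ∅
    (disjoint_empty_left _) (by simp)
  have hrB : rest Q C ∅ ⊆ B := by
    intro x hx
    rw [mem_rest] at hx
    obtain ⟨⟨l, hl⟩, -⟩ := hx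
    exact hQ.sub l hl
  have hlB : lks C (fun n => n < r) ⊆ B := by
    intro x hx
    rw [mem_lks] at hx
    obtain ⟨i, j, -, hx⟩ := hx
    exact hL.sub i j hx
  refine ⟨fun i => (A i : Set V), T, hTc, ?_, ?_, ?_, ?_, ?_, ?_⟩
  · intro i
    exact_mod_cast (hA1 i).trans (union_subset hrB hlB)
  · exact_mod_cast hT.trans hrB
  · intro i
    exact hA3 i
  · intro i j hij
    exact Finset.disjoint_coe.2 (hA4 i j hij)
  · intro i j hij
    obtain ⟨x, hx, y, hy, hxy⟩ := hA5 i j hij
    exact ⟨x, mem_coe.2 hx, y, mem_coe.2 hy, hxy⟩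
  · intro i b hb
    obtain ⟨h1, x, hx, hxb⟩ := hA6 i b hb
    exact ⟨fun h => h1 (mem_coe.1 h), x, mem_coe.2 hx, hxb⟩

lemma many [Fintype V] {G : SimpleGraph V} {r s t k u c : ℕ} (hp : Par r s t k u c)
    (hC : Cds V (10 ^ 10 * u) u c) {B : Finset V} {Q : Fin 7 → Finset V} (hQ : Pieces G B u Q)
    (hlink : ∀ Z : Finset V, Z.card < 6 * r → ∀ j : Fin 6, ∃ C ⊆ B \ Z, Conn G C ∧
      (∃ x ∈ C, x ∈ Q 0) ∧ ∃ x ∈ C, x ∈ Q j.succ) :
    HasStarIn G r s (B : Set V) := by
  obtain ⟨P, hP⟩ := star_paths r hQ hlink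
  obtain ⟨C, hL⟩ := star_links hp hC hQ hP
  exact many_core hp hC hQ hL

end Pool.Agent.Lib.MP_5babb6_co.W
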