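import Mathlib
import Pool.Agent.Lib.MP_5babb6_co.W.Many

set_option autoImplicit false

/-!
Lemma 6, case (v).
-/

namespace Pool.Agent.Lib.MP_5babb6_co.W

open Finset Classical

variable {V : Type}

lemma Par.lin {r s t k u c : ℕ} (hP : Par r s t k u c) : 20 * (r * c) + 60 * r ≤ k := by
  have h := hP.hN
  have e : 20 * (r * (c + 3)) = 20 * (r * c) + 60 * r := by ring
  omega

lemma Par.kpos {r s t k u c : ℕ} (hP : Par r s t k u c) : 1 ≤ k := by
  have h := hP.lin
  have h1 := hP.hr
  omega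

/-- a robust piece in a dense set -/
lemma piece_in {G : SimpleGraph V} {u : ℕ} (P : Finset V) (hne : P.Nonempty)
    (hc : P.card ≤ 2525 * u) (hdeg : ∀ v ∈ P, 330 * u ≤ dg G P v) :
    ∃ Q ⊆ P, Robust G Q (10 * u) (200 * u) ∧ Q.card ≤ 2525 * u := by
  obtain ⟨Q, hQP, hQ⟩ := exists_robust G (10 * u) (200 * u) 13 P hne (by omega) (by
    intro v hv
    have := hdeg v hv
    omega)
  exact ⟨Q, hQP, hQ, (card_le_card hQP).trans hc⟩

/-- the common neighbours of `v` and `w` are in `N(v) - R` or in `N(v) ∩ R` -/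
lemma cod_le_split {G : SimpleGraph V} (X R : Finset V) (v w : V) :
    cod G X v w ≤ dg G (nb G X v \ R) w + dg G R v := by
  have h1 : X.filter (fun z => G.Adj v z ∧ G.Adj w z) ⊆
      nb G (nb G X v \ R) w ∪ nb G R v := by
    intro z hz
    rw [mem_filter] at hz
    by_cases hzR : z ∈ R
    · exact mem_union_right _ (mem_nb.2 ⟨hzR, hz.2.1⟩)
    · exact mem_union_left _ (mem_nb.2 ⟨mem_sdiff.2 ⟨mem_nb.2 ⟨hz.1, hz.2.1⟩, hzR⟩, hz.2.2⟩)
  exact (card_le_card h1).trans (card_union_le _ _)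

lemma dg_le_split {G : SimpleGraph V} (X R : Finset V) (v : V) :
    dg G X v ≤ (nb G X v \ R).card + dg G R v := by
  have h2 : nb G X v ⊆ (nb G X v \ R) ∪ nb G R v := by
    intro z hz
    by_cases hzR : z ∈ R
    · exact mem_union_right _ (mem_nb.2 ⟨hzR, (mem_nb.1 hz).2⟩)
    · exact mem_union_left _ (mem_sdiff.2 ⟨hz, hzR⟩)
  exact (card_le_card h2).trans (card_union_le _ _)

/-- the next piece or a star -/
lemma next_piece {r s t k u c : ℕ} (hP : Par r s t k u c) (hC : Cds V (10 ^ 10 * u) u c)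
    (G : SimpleGraph V) (X : Finset V)
    (hdeg : ∀ v ∈ X, 500 * u ≤ dg G X v)
    (hcod : ∀ x ∈ X, ∀ y ∈ X, G.Adj x y → 500 * u ≤ cod G X x y)
    (hds : ds G X ≤ (t + 8 * k) * X.card) (hbig : 60000 * u < X.card)
    {j : ℕ} (hj : j ≤ 6) (Q : Fin j → Finset V) (hQX : ∀ i, Q i ⊆ X)
    (hQr : ∀ i, Robust G (Q i) (10 * u) (200 * u)) (hQc : ∀ i, (Q i).card ≤ 2525 * u) :
    HasStarIn G r s (X : Set V) ∨ ∃ Q' : Finset V, Q' ⊆ X ∧ (∀ i, Disjoint Q' (Q i)) ∧
      Robust G Q' (10 * u) (200 * u) ∧ Q'.card ≤ 2525 * u := by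
  have hk := hP.kpos
  have hu := hP.hu
  have hlo := hP.h1
  have hhi := hP.h2
  have hlin := hP.lin
  have ht := hP.ht
  have hrc : r * c ≤ k := by omega
  set R : Finset V := univ.biUnion Q with hR
  have hRc : R.card ≤ 15150 * u := by
    have h1 : R.card ≤ ∑ i : Fin j, (Q i).card := card_biUnion_le
    have h2 : ∑ i : Fin j, (Q i).card ≤ ∑ _i : Fin j, 2525 * u := sum_le_sum fun i _ => hQc i
    rw [sum_const, card_univ, Fintype.card_fin, smul_eq_mul] at h2
    have h3 : j * (2525 * u) ≤ 6 * (2525 * u) := Nat.mul_le_mul_right _ hj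
    omega
  set p := t + 8 * k with hp
  set Low := X.filter (fun v => dg G X v ≤ 2 * p) with hLow
  have hLowc : 30000 * u < Low.card := by
    have h1 : ∑ v ∈ X \ Low, 2 * p ≤ ds G X := by
      have h2 : ∑ v ∈ X \ Low, 2 * p ≤ ∑ v ∈ X \ Low, dg G X v := by
        refine sum_le_sum fun v hv => ?_
        rw [mem_sdiff, hLow, mem_filter] at hv
        by_contra hcon
        exact hv.2 ⟨hv.1, by omega⟩
      exact h2.trans (sum_le_sum_of_subset sdiff_subset)
    rw [sum_const, smul_eq_mul] at h1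
    have h3 : (X \ Low).card * (2 * p) ≤ p * X.card := h1.trans hds
    have hppos : 0 < p := by omega
    have h4 : p * (2 * (X \ Low).card) ≤ p * X.card := by
      calc p * (2 * (X \ Low).card) = (X \ Low).card * (2 * p) := by ring
        _ ≤ _ := h3
    have h5 : 2 * (X \ Low).card ≤ X.card := le_of_mul_le_mul_left h4 hppos
    have h6 : Low.card + (X \ Low).card = X.card := by
      rw [add_comm]
      exact card_sdiff_add_card_eq_card (filter_subset _ _)
    omega
  have hLR : 14850 * u ≤ (Low \ R).card := by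
    have := le_card_sdiff R Low
    omega
  by_cases hA : ∃ v ∈ Low \ R, dg G R v ≤ 25 * u
  · -- a new piece
    obtain ⟨v, hv, hvR⟩ := hA
    rw [mem_sdiff, hLow, mem_filter] at hv
    obtain ⟨⟨hvX, hv2p⟩, hvnR⟩ := hv
    right
    set P := nb G X v \ R with hPdef
    have hPX : P ⊆ X := sdiff_subset.trans (filter_subset _ _)
    have hPc : P.card ≤ 2525 * u := by
      have h1 : P.card ≤ dg G X v := card_le_card sdiff_subset
      omega
    have hPne : P.Nonempty := by
      rw [← card_pos]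
      have h1 := dg_le_split (G := G) X R v
      rw [← hPdef] at h1
      have h3 := hdeg v hvX
      omega
    obtain ⟨Q', hQ'P, hQ'r, hQ'c⟩ := piece_in (G := G) P hPne hPc (by
      intro w hw
      have hw' := mem_nb.1 (mem_sdiff.1 hw).1
      have h1 := hcod v hvX w hw'.1 hw'.2
      have h2 := cod_le_split (G := G) X R v w
      rw [← hPdef] at h2
      omega)
    refine ⟨Q', hQ'P.trans hPX, fun i => ?_, hQ'r, hQ'c⟩
    rw [disjoint_left]
    intro z hz hzi
    have h1 := (mem_sdiff.1 (hQ'P hz)).2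
    exact h1 (mem_biUnion.2 ⟨i, mem_univ _, hzi⟩)
  · -- satellites
    push Not at hA
    left
    have hex : ∀ v ∈ Low \ R, ∃ i : Fin j, 4 * u ≤ dg G (Q i) v := by
      intro v hv
      by_contra hcon
      push Not at hcon
      have h1 := hA v hv
      have h2 : dg G R v ≤ ∑ i : Fin j, dg G (Q i) v := by
        have e : nb G R v ⊆ univ.biUnion (fun i : Fin j => nb G (Q i) v) := by
          intro z hz
          rw [mem_nb, hR, mem_biUnion] at hz
          obtain ⟨⟨i, hi, hzi⟩, hvz⟩ := hz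
          exact mem_biUnion.2 ⟨i, hi, mem_nb.2 ⟨hzi, hvz⟩⟩
        exact (card_le_card e).trans card_biUnion_le
      have h3 : ∑ i : Fin j, dg G (Q i) v ≤ ∑ _i : Fin j, 4 * u :=
        sum_le_sum fun i _ => (hcon i).le
      rw [sum_const, card_univ, Fintype.card_fin, smul_eq_mul] at h3
      have h4 : j * (4 * u) ≤ 6 * (4 * u) := Nat.mul_le_mul_right _ hj
      omega
    obtain ⟨i, hi⟩ : ∃ i : Fin j, 2002 * u ≤
        ((Low \ R).filter (fun v => 4 * u ≤ dg G (Q i) v)).card := by
      by_contra hcon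
      push Not at hcon
      have h1 : (Low \ R) ⊆
          univ.biUnion (fun i : Fin j => (Low \ R).filter (fun v => 4 * u ≤ dg G (Q i) v)) := by
        intro v hv
        obtain ⟨i, hi⟩ := hex v hv
        exact mem_biUnion.2 ⟨i, mem_univ _, mem_filter.2 ⟨hv, hi⟩⟩
      have h2 := (card_le_card h1).trans card_biUnion_le
      have h3 : ∑ i : Fin j, ((Low \ R).filter (fun v => 4 * u ≤ dg G (Q i) v)).card ≤
          ∑ _i : Fin j, 2002 * u := sum_le_sum fun i _ => (hcon i).le
      rw [sum_const, card_univ, Fintype.card_fin, smul_eq_mul] at h3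
      have h4 : j * (2002 * u) ≤ 6 * (2002 * u) := Nat.mul_le_mul_right _ hj
      omega
    obtain ⟨W, hW, hWc⟩ := exists_subset_card_eq hi
    have hWdeg : ∀ v ∈ W, 3 * u + u ≤ dg G (Q i) v := by
      intro v hv
      have := (mem_filter.1 (hW hv)).2
      omega
    have hWX : W ⊆ X := by
      intro v hv
      exact (mem_filter.1 (mem_sdiff.1 (mem_filter.1 (hW hv)).1).1).1
    have hQW : Disjoint (Q i) W := by
      rw [disjoint_left]
      intro z hz hzW
      have h1 := (mem_sdiff.1 (mem_filter.1 (hW hzW)).1).2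
      exact h1 (mem_biUnion.2 ⟨i, mem_univ _, hz⟩)
    have hrob := satellites ((hQr i).mono (show 3 * u ≤ 10 * u by omega) le_rfl)
      (show 3 * u + u ≤ 200 * u by omega) (show 1 ≤ u by omega) hQW hWdeg
    have hcard : 2002 * u ≤ (Q i ∪ W).card := by
      rw [← hWc]
      exact card_le_card subset_union_right
    have hcard2 : (Q i ∪ W).card ≤ 10 ^ 10 * u := by
      have h1 := card_union_le (Q i) W
      have h2 := hQc i
      omega
    have h := one_piece (r := r) (s := s) hC hrob hcard2 le_rfl (by omega) (by omega)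
    exact h.mono (by exact_mod_cast union_subset (hQX i) hWX)

/-- Lemma 6, case (v) -/
lemma ko_dense [Fintype V] {r s t k u c : ℕ} (hp : Par r s t k u c)
    (hC : Cds V (10 ^ 10 * u) u c) (G : SimpleGraph V) (X : Finset V)
    (hX : t + 6 * k ≤ X.card) (hrob : Robust G X k (500 * u))
    (hcod : ∀ x ∈ X, ∀ y ∈ X, G.Adj x y → 500 * u ≤ cod G X x y)
    (hds : ds G X ≤ (t + 8 * k) * X.card) : HasStarIn G r s (X : Set V) := by
  have hk := hp.kpos
  have hu := hp.hu
  have hlin := hp.lin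
  have ht := hp.ht
  have hrc : r * c ≤ k := by omega
  by_cases hsmall : X.card ≤ 60000 * u
  · exact one_piece hC hrob (by omega) (by omega) hrc (by omega)
  push Not at hsmall
  rcases pieces_of_step (G := G) (u := u) (Subset.refl X) (HasStarIn G r s (X : Set V))
    (fun m hm Q hQX _ hQr hQc =>
      next_piece hp hC G X hrob.2 hcod hds hsmall hm Q hQX hQr hQc) with h | ⟨Q, hQ, -⟩
  · exact h
  refine many hp hC hQ ?_
  intro Z hZ j
  have hmeet : ∀ i, ∃ x ∈ X \ Z, x ∈ Q i := by
    intro i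
    have h1 := (hQ.rob i).card_lt
    have h2 := le_card_sdiff Z (Q i)
    have h3 : (Q i \ Z).Nonempty := by
      rw [← card_pos]
      omega
    obtain ⟨z, hz⟩ := h3
    rw [mem_sdiff] at hz
    exact ⟨z, mem_sdiff.2 ⟨hQ.sub i hz.1, hz.2⟩, hz.1⟩
  exact ⟨X \ Z, Subset.refl _, hrob.1 Z (by omega), hmeet 0, hmeet j.succ⟩

end Pool.Agent.Lib.MP_5babb6_co.W
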