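import Mathlib
import Pool.Agent.Lib.MP_5babb6_co.W.Dense

set_option autoImplicit false

/-!
Lemma 6: dense graphs have a `K*_{r,s}` minor.
-/

namespace Pool.Agent.Lib.MP_5babb6_co.W

open Finset Classical

variable {V : Type}

/-- pulling a minor back along the contraction of one edge -/
lemma HasK.of_ctr {G : SimpleGraph V} {r s : ℕ} {X : Finset V} {x y : V} (hx : x ∈ X)
    (hy : y ∈ X) (hxy : G.Adj x y) (h : HasK (quo G (ctrMap x y)) r s (X.erase y)) :
    HasK G r s X := by
  have hif : ∀ z : V, (z = x ∧ ctrMap x y z = {x, y}) ∨ (z ≠ x ∧ ctrMap x y z = {z}) := by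
    intro z
    by_cases hz : z = x
    · exact Or.inl ⟨hz, if_pos hz⟩
    · exact Or.inr ⟨hz, if_neg hz⟩
  refine HasK.lift (ctrMap x y) ?_ ?_ ?_ ?_ h
  · intro z hz
    rcases hif z with ⟨h1, h2⟩ | ⟨h1, h2⟩
    · rw [h2, insert_subset_iff, singleton_subset_iff]
      exact ⟨hx, hy⟩
    · rw [h2, singleton_subset_iff]
      exact (mem_erase.1 hz).2
  · intro z _
    rcases hif z with ⟨h1, h2⟩ | ⟨h1, h2⟩
    · rw [h2, pair_comm]
      exact (conn_singleton G x).insert (mem_singleton_self _) hxy
    · rw [h2]
      exact conn_singleton G z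
  · intro a ha b hb hab
    have ha' : a ≠ y := (mem_erase.1 ha).1
    have hb' : b ≠ y := (mem_erase.1 hb).1
    rcases hif a with ⟨h1, h2⟩ | ⟨h1, h2⟩
    · rcases hif b with ⟨h3, h4⟩ | ⟨h3, h4⟩
      · exact absurd (h1.trans h3.symm) hab
      · rw [h2, h4, disjoint_singleton_right, mem_insert, mem_singleton]
        rintro (h | h)
        · exact h3 h
        · exact hb' h
    · rcases hif b with ⟨h3, h4⟩ | ⟨h3, h4⟩
      · rw [h2, h4, disjoint_singleton_left, mem_insert, mem_singleton]
        rintro (h | h)
        · exact h1 h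
        · exact ha' h
      · rw [h2, h4, disjoint_singleton]
        exact hab
  · intro a _ b _ hab
    exact hab.2

private theorem ko_aux [Fintype V] {r s t k u c : ℕ} (hp : Par r s t k u c)
    (hC : Cds V (10 ^ 10 * u) u c) :
    ∀ (m n : ℕ) (G : SimpleGraph V) (X : Finset V), X.card = m → ds G X = n → 2 * k ≤ X.card →
      (t + 8 * k) * X.card ≤ ds G X + (t + 8 * k) * k → HasK G r s X := by
  have hk := hp.kpos
  have hu := hp.hu
  have hlo := hp.h1
  have hhi := hp.h2
  have hlin := hp.lin
  have ht := hp.ht
  set p := t + 8 * k with hpdef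
  intro m
  induction m using Nat.strong_induction_on with
  | _ m ih =>
  intro n
  induction n using Nat.strong_induction_on with
  | _ n ihn =>
  intro G X hm hn hX hds
  -- (0)
  have h0 : p < X.card + 2 * k := by
    by_contra hcon
    push Not at hcon
    have h1 := ds_le_sq (G := G) (X := X)
    obtain ⟨a, ha⟩ := Nat.exists_eq_add_of_le hX
    obtain ⟨b, hb⟩ := Nat.exists_eq_add_of_le hcon
    have h2 : p * X.card ≤ X.card * X.card + p * k := hds.trans (Nat.add_le_add_right h1 _)
    have h3 : X.card * X.card + (2 * k + b) * X.card ≤ X.card * X.card + p * k := by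
      calc X.card * X.card + (2 * k + b) * X.card = p * X.card := by rw [hb]; ring
        _ ≤ _ := h2
    have h4 : (2 * k + b) * X.card ≤ p * k := Nat.le_of_add_le_add_left h3
    rw [hb, ha] at h4
    have h5 : (2 * k + b) * (2 * k + a) = 4 * (k * k) + 2 * (k * a) + 2 * (k * b) + a * b := by ring
    have h6 : (2 * k + a + 2 * k + b) * k = 4 * (k * k) + k * a + k * b := by ring
    rw [h5, h6] at h4
    have h7 : k * a + k * b = 0 := by omega
    have h8 : a = 0 := by
      rcases Nat.eq_zero_or_pos a with h | h
      · exact h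
      · have := Nat.mul_pos (show 0 < k by omega) h
        omega
    have h9 : b = 0 := by
      rcases Nat.eq_zero_or_pos b with h | h
      · exact h
      · have := Nat.mul_pos (show 0 < k by omega) h
        omega
    omega
  -- (i)
  by_cases hi : ∃ v ∈ X, 2 * dg G X v ≤ p
  · obtain ⟨v, hv, hvp⟩ := hi
    have h1 := ds_erase (G := G) hv
    have h2 : (X.erase v).card + 1 = X.card := card_erase_add_one hv
    have h3 : p * X.card = p * (X.erase v).card + p := by
      rw [← h2]
      ring
    exact (ih _ (by omega) _ G (X.erase v) rfl rfl (by omega) (by omega)).mono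
      (erase_subset v X)
  push Not at hi
  -- (ii)
  by_cases hii : ∃ x ∈ X, ∃ y ∈ X, G.Adj x y ∧ 2 * (cod G X x y + 1) ≤ p
  · obtain ⟨x, hx, y, hy, hxy, hxyp⟩ := hii
    have h1 := ds_ctr hx hy hxy
    have h2 : (X.erase y).card + 1 = X.card := card_erase_add_one hy
    have h3 : p * X.card = p * (X.erase y).card + p := by
      rw [← h2]
      ring
    exact HasK.of_ctr hx hy hxy
      (ih _ (by omega) _ (quo G (ctrMap x y)) (X.erase y) rfl rfl (by omega) (by omega))
  push Not at hii
  -- (iii)
  by_cases hiii : p * X.card + 2 ≤ ds G X + p * k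
  · have hex : ∃ x ∈ X, ∃ y ∈ X, G.Adj x y := by
      have hXne : X.Nonempty := by
        rw [← card_pos]
        omega
      obtain ⟨x, hx⟩ := hXne
      have h1 := hi x hx
      obtain ⟨y, hy, hxy⟩ := exists_nbr (G := G) (X := X) (v := x) (by omega)
      exact ⟨x, hx, y, hy, hxy⟩
    obtain ⟨x, hx, y, hy, hxy⟩ := hex
    obtain ⟨G', hG', h1⟩ := ds_del hx hy hxy
    exact (ihn _ (by omega) G' X hm rfl hX (by omega)).mono_graph hG'
  push Not at hiii
  -- (iv)
  have hdeg : ∀ v ∈ X, 500 * u ≤ dg G X v := fun v hv => by
    have := hi v hv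
    omega
  by_cases hrob : Robust G X k (500 * u)
  · -- (v)
    have hcod : ∀ x ∈ X, ∀ y ∈ X, G.Adj x y → 500 * u ≤ cod G X x y := by
      intro x hx y hy hxy
      have := hii x hx y hy hxy
      omega
    have hkX : p * k ≤ p * X.card := Nat.mul_le_mul_left _ (by omega)
    have h1 : 1 ≤ p * k := Nat.mul_pos (by omega) (by omega)
    exact hasK_of_star (ko_dense hp hC G X (by omega) hrob hcod
      (show ds G X ≤ p * X.card by omega))
  · obtain ⟨R, hR, hRc⟩ : ∃ R : Finset V, R.card ≤ k ∧ ¬ Conn G (X \ R) := by
      by_contra hcon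
      push Not at hcon
      exact hrob ⟨hcon, hdeg⟩
    have hne : (X \ R).Nonempty := by
      rw [← card_pos]
      have h3 := le_card_sdiff R X
      omega
    obtain ⟨C, Y, hCne, hYne, hCY, hun, hno⟩ := exists_split hne hRc
    set T := R ∩ X with hT
    have hTc : T.card ≤ k := (card_le_card inter_subset_left).trans hR
    have hCX : C ⊆ X \ R := by
      rw [← hun]
      exact subset_union_left
    have hYX : Y ⊆ X \ R := by
      rw [← hun]
      exact subset_union_right
    have hCT : Disjoint C T := by
      rw [disjoint_left]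
      intro a ha hb
      exact (mem_sdiff.1 (hCX ha)).2 (mem_inter.1 hb).1
    have hYT : Disjoint Y T := by
      rw [disjoint_left]
      intro a ha hb
      exact (mem_sdiff.1 (hYX ha)).2 (mem_inter.1 hb).1
    have hCP : C ⊆ X := hCX.trans sdiff_subset
    have hYP : Y ⊆ X := hYX.trans sdiff_subset
    have hcardX : C.card + Y.card + T.card = X.card := by
      have h1 : (X \ R).card + T.card = X.card := by
        rw [hT, inter_comm]
        exact card_sdiff_add_card_inter X R
      have h2 : (X \ R).card = C.card + Y.card := by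
        rw [← hun, card_union_of_disjoint hCY]
      omega
    have hC1 : (C ∪ T).card = C.card + T.card := card_union_of_disjoint hCT
    have hY1 : (Y ∪ T).card = Y.card + T.card := card_union_of_disjoint hYT
    have hsplit : ∀ z ∈ X, z ∈ C ∨ z ∈ Y ∨ z ∈ T := by
      intro z hz
      by_cases hzR : z ∈ R
      · exact Or.inr (Or.inr (mem_inter.2 ⟨hzR, hz⟩))
      · have h1 : z ∈ C ∪ Y := by
          rw [hun]
          exact mem_sdiff.2 ⟨hz, hzR⟩
        rcases mem_union.1 h1 with h | h
        · exact Or.inl h
        · exact Or.inr (Or.inl h)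
    -- sizes of the sides
    have hsideC : p < 2 * (C ∪ T).card := by
      obtain ⟨a, ha⟩ := hCne
      have h1 := hi a (hCP ha)
      have h2 : dg G X a ≤ (C ∪ T).card := by
        refine card_le_card ?_
        intro z hz
        rw [mem_nb] at hz
        rw [mem_union]
        rcases hsplit z hz.1 with h | h | h
        · exact Or.inl h
        · exact absurd hz.2 (hno a ha z h)
        · exact Or.inr h
      omega
    have hsideY : p < 2 * (Y ∪ T).card := by
      obtain ⟨a, ha⟩ := hYne
      have h1 := hi a (hYP ha)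
      have h2 : dg G X a ≤ (Y ∪ T).card := by
        refine card_le_card ?_
        intro z hz
        rw [mem_nb] at hz
        rw [mem_union]
        rcases hsplit z hz.1 with h | h | h
        · exact absurd hz.2.symm (hno z h a ha)
        · exact Or.inl h
        · exact Or.inr h
      omega
    have hsubC : C ∪ T ⊆ X := union_subset hCP inter_subset_right
    have hsubY : Y ∪ T ⊆ X := union_subset hYP inter_subset_right
    have hCpos := card_pos.2 hCne
    have hYpos := card_pos.2 hYne
    by_cases hCd : p * (C ∪ T).card ≤ ds G (C ∪ T) + p * k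
    · exact (ih _ (by omega) _ G (C ∪ T) rfl rfl (by omega) hCd).mono hsubC
    by_cases hYd : p * (Y ∪ T).card ≤ ds G (Y ∪ T) + p * k
    · exact (ih _ (by omega) _ G (Y ∪ T) rfl rfl (by omega) hYd).mono hsubY
    exfalso
    push Not at hCd hYd
    have hcut : ds G X ≤ ds G (C ∪ T) + ds G (Y ∪ T) := by
      have h1 := ds_sep (G := G) (X1 := C ∪ T) (X2 := Y ∪ T) (by
        intro x hx y hy hxy
        rw [mem_union] at hx hy ⊢
        rw [mem_union]
        rcases hx with hx | hx
        · rcases hy with hy | hy
          · exact absurd hxy (hno x hx y hy)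
          · exact Or.inr (Or.inr hy)
        · exact Or.inl (Or.inr hx))
      refine le_trans (ds_mono ?_) h1
      intro z hz
      rcases hsplit z hz with h | h | h
      · exact mem_union_left _ (mem_union_left _ h)
      · exact mem_union_right _ (mem_union_left _ h)
      · exact mem_union_left _ (mem_union_right _ h)
    have h1 : p * (C ∪ T).card + p * (Y ∪ T).card = p * X.card + p * T.card := by
      rw [hC1, hY1, ← hcardX]
      ring
    have h2 : p * T.card ≤ p * k := Nat.mul_le_mul_left _ hTc
    omega

theorem ko [Fintype V] {r s t k u c : ℕ} (hp : Par r s t k u c)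
    (hC : Cds V (10 ^ 10 * u) u c) (G : SimpleGraph V) (X : Finset V) (hX : 2 * k ≤ X.card)
    (h : (t + 8 * k) * X.card ≤ ds G X + (t + 8 * k) * k) : HasK G r s X :=
  ko_aux hp hC _ _ G X rfl rfl hX h

end Pool.Agent.Lib.MP_5babb6_co.W
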