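import Mathlib
import Pool.Agent.Lib.MP_5babb6_co.W.Defs

set_option autoImplicit false

/-!
Lemma 7: colouring the related pairs.
-/

namespace Pool.Agent.Lib.MP_5babb6_co.W

open Finset Classical

variable {V : Type}

/-- the number of monochromatic related (ordered) pairs -/
private noncomputable def monoCost {α : Type} (R : α → α → Prop) (M : Finset α) {q : ℕ}
    (f : α → Fin q) : ℕ :=
  ∑ x ∈ M, ∑ y ∈ M, if R x y ∧ f x = f y then 1 else 0

private lemma monoCost_split {α : Type} (R : α → α → Prop) (hR : ∀ x y, R x y → R y x)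
    (hirr : ∀ x, ¬ R x x) (M : Finset α) {q : ℕ} (f : α → Fin q) {e : α} (he : e ∈ M) :
    monoCost R M f = monoCost R (M.erase e) f +
      2 * ∑ y ∈ M.erase e, if R e y ∧ f y = f e then 1 else 0 := by
  unfold monoCost
  rw [← Finset.add_sum_erase M _ he]
  have h1 : ∀ x : α, (∑ y ∈ M, if R x y ∧ f x = f y then 1 else 0) =
      (if R x e ∧ f x = f e then 1 else 0) +
        ∑ y ∈ M.erase e, if R x y ∧ f x = f y then 1 else 0 := fun x =>
    (Finset.add_sum_erase M _ he).symm
  simp_rw [h1]
  rw [Finset.sum_add_distrib]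
  have h2 : (∑ x ∈ M.erase e, if R x e ∧ f x = f e then 1 else 0) =
      ∑ y ∈ M.erase e, if R e y ∧ f y = f e then 1 else 0 := by
    apply Finset.sum_congr rfl
    intro x _
    have : R x e ↔ R e x := ⟨hR _ _, hR _ _⟩
    simp only [this]
  have h3 : (∑ y ∈ M.erase e, if R e y ∧ f e = f y then 1 else 0) =
      ∑ y ∈ M.erase e, if R e y ∧ f y = f e then 1 else 0 := by
    apply Finset.sum_congr rfl
    intro x _
    have : f e = f x ↔ f x = f e := ⟨Eq.symm, Eq.symm⟩
    simp only [this]
  rw [h2, h3, if_neg (fun h => hirr e h.1)]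
  ring

/-- a sparse class -/
lemma exists_class {α : Type} (R : α → α → Prop) (hR : ∀ x y, R x y → R y x) (M : Finset α)
    (q D : ℕ) (hq : 1 ≤ q) (hD : ∀ e ∈ M, (M.filter (fun e' => R e e')).card ≤ D)
    (hirr : ∀ x, ¬ R x x) :
    ∃ M' ⊆ M, M.card ≤ q * M'.card ∧
      ∀ e ∈ M', q * (M'.filter (fun e' => R e e')).card ≤ D := by
  have hne : Nonempty (Fin q) := ⟨⟨0, hq⟩⟩
  have hneF : Nonempty (α → Fin q) := ⟨fun _ => ⟨0, hq⟩⟩
  obtain ⟨f, hf⟩ : ∃ f : α → Fin q, ∀ g : α → Fin q, monoCost R M f ≤ monoCost R M g :=
    ⟨Function.argmin (monoCost R M), fun g => Function.argmin_le (monoCost R M) g⟩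
  -- every element has few related elements of its own colour
  have key : ∀ e ∈ M, q * (M.filter (fun y => R e y ∧ f y = f e)).card ≤ D := by
    intro e he
    have hcol : ∀ c : Fin q, (M.filter (fun y => R e y ∧ f y = f e)).card ≤
        (M.filter (fun y => R e y ∧ f y = c)).card := by
      intro c
      have h1 := hf (Function.update f e c)
      rw [monoCost_split R hR hirr M f he, monoCost_split R hR hirr M _ he] at h1
      have h2 : monoCost R (M.erase e) (Function.update f e c) = monoCost R (M.erase e) f := by
        unfold monoCost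
        apply Finset.sum_congr rfl
        intro x hx
        apply Finset.sum_congr rfl
        intro y hy
        rw [Function.update_of_ne (Finset.ne_of_mem_erase hx),
          Function.update_of_ne (Finset.ne_of_mem_erase hy)]
      have h3 : (∑ y ∈ M.erase e, if R e y ∧ Function.update f e c y = Function.update f e c e
          then 1 else 0) = ∑ y ∈ M.erase e, if R e y ∧ f y = c then 1 else 0 := by
        apply Finset.sum_congr rfl
        intro y hy
        rw [Function.update_of_ne (Finset.ne_of_mem_erase hy), Function.update_self]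
      rw [h2, h3] at h1
      have h4 : ∀ d : Fin q, (M.filter (fun y => R e y ∧ f y = d)).card =
          ∑ y ∈ M.erase e, if R e y ∧ f y = d then 1 else 0 := by
        intro d
        rw [Finset.card_filter, ← Finset.add_sum_erase M _ he, if_neg (fun h => hirr e h.1),
          zero_add]
      rw [h4, h4]
      omega
    calc q * (M.filter (fun y => R e y ∧ f y = f e)).card
        = ∑ _c : Fin q, (M.filter (fun y => R e y ∧ f y = f e)).card := by
          rw [Finset.sum_const, Finset.card_univ, Fintype.card_fin, smul_eq_mul]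
      _ ≤ ∑ c : Fin q, (M.filter (fun y => R e y ∧ f y = c)).card :=
          Finset.sum_le_sum (fun c _ => hcol c)
      _ = (M.filter (fun y => R e y)).card := by
          rw [Finset.card_eq_sum_card_fiberwise (f := f) (t := (Finset.univ : Finset (Fin q)))
            (fun x _ => Finset.mem_coe.2 (Finset.mem_univ _))]
          apply Finset.sum_congr rfl
          intro c _
          rw [Finset.filter_filter]
      _ ≤ D := hD e he
  -- a largest class
  obtain ⟨c, hc⟩ : ∃ c : Fin q, M.card ≤ q * (M.filter (fun y => f y = c)).card := by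
    have hs : ∑ _c : Fin q, M.card ≤ ∑ c : Fin q, q * (M.filter (fun y => f y = c)).card := by
      rw [← Finset.mul_sum, ← Finset.card_eq_sum_card_fiberwise (f := f)
        (t := (Finset.univ : Finset (Fin q))) (fun x _ => Finset.mem_coe.2 (Finset.mem_univ _)),
        Finset.sum_const, Finset.card_univ, Fintype.card_fin, smul_eq_mul]
    obtain ⟨c, -, hc⟩ := Finset.exists_le_of_sum_le (Finset.univ_nonempty) hs
    exact ⟨c, hc⟩
  refine ⟨M.filter (fun y => f y = c), Finset.filter_subset _ _, hc, ?_⟩
  intro e he
  rw [Finset.mem_filter] at he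
  have h1 := key e he.1
  have h2 : (M.filter (fun y => f y = c)).filter (fun e' => R e e') =
      M.filter (fun y => R e y ∧ f y = f e) := by
    rw [Finset.filter_filter]
    apply Finset.filter_congr
    intro y _
    rw [he.2]
    exact and_comm
  rw [h2]
  exact h1

/-- the number of related pairs -/
lemma rel_card {G : SimpleGraph V} {B X : Finset V} {t u : ℕ} {M : Finset (V × V)} (hX : X ⊆ B)
    (hM : PoorM G B X t u M) : ∀ e ∈ M, (M.filter (fun e' => Rel G e e')).card ≤ 4 * t := by
  intro e he
  have hlow := hM.low e he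
  let g : V × V → V := fun e' => if G.Adj e.1 e'.1 ∨ G.Adj e.2 e'.1 then e'.1 else e'.2
  have h1 : (M.filter (fun e' => Rel G e e')).card ≤ (nb G B e.1 ∪ nb G B e.2).card := by
    apply Finset.card_le_card_of_injOn g
    · intro e' he'
      rw [Finset.mem_coe, Finset.mem_filter] at he'
      obtain ⟨hm, -, hr⟩ := he'
      have hb := hM.mem e' hm
      have hb1 := hX hb.1
      have hb2 := hX hb.2
      rw [Finset.mem_coe, Finset.mem_union]
      by_cases hc : G.Adj e.1 e'.1 ∨ G.Adj e.2 e'.1
      · have hg : g e' = e'.1 := if_pos hc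
        rw [hg]
        rcases hc with hc | hc
        · exact Or.inl (Finset.mem_filter.2 ⟨hb1, hc⟩)
        · exact Or.inr (Finset.mem_filter.2 ⟨hb1, hc⟩)
      · have hg : g e' = e'.2 := if_neg hc
        rw [hg]
        push Not at hc
        rcases hr with hr | hr | hr | hr
        · exact absurd hr hc.1
        · exact Or.inl (Finset.mem_filter.2 ⟨hb2, hr⟩)
        · exact absurd hr hc.2
        · exact Or.inr (Finset.mem_filter.2 ⟨hb2, hr⟩)
    · intro a ha b hb hab
      rw [Finset.mem_coe, Finset.mem_filter] at ha hb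
      by_contra hne
      obtain ⟨h11, h12, h21, h22⟩ := hM.disj a ha.1 b hb.1 hne
      have hga : g a = a.1 ∨ g a = a.2 := by
        by_cases hc : G.Adj e.1 a.1 ∨ G.Adj e.2 a.1
        · exact Or.inl (if_pos hc)
        · exact Or.inr (if_neg hc)
      have hgb : g b = b.1 ∨ g b = b.2 := by
        by_cases hc : G.Adj e.1 b.1 ∨ G.Adj e.2 b.1
        · exact Or.inl (if_pos hc)
        · exact Or.inr (if_neg hc)
      rcases hga with ha' | ha' <;> rcases hgb with hb' | hb'
      · exact h11 (by rw [← ha', ← hb', hab])
      · exact h12 (by rw [← ha', ← hb', hab])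
      · exact h21 (by rw [← ha', ← hb', hab])
      · exact h22 (by rw [← ha', ← hb', hab])
  have h2 : (nb G B e.1 ∪ nb G B e.2).card ≤ dg G B e.1 + dg G B e.2 :=
    Finset.card_union_le _ _
  omega

end Pool.Agent.Lib.MP_5babb6_co.W
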