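import Mathlib
import Pool.Agent.Lib.MP_5babb6_co.W.Base

set_option autoImplicit false

/-!
Lemma 7: contracting a matching.
-/

namespace Pool.Agent.Lib.MP_5babb6_co.W

open Finset Classical

variable {V : Type}

/-- branch map of the contraction of the edges in `I` -/
private noncomputable def matb_phi (I : Finset (V × V)) (a : V) : Finset V :=
  {a} ∪ (I.filter (fun e => e.1 = a)).image Prod.snd

private lemma matb_mem {I : Finset (V × V)} {a z : V} :
    z ∈ matb_phi I a ↔ z = a ∨ ∃ e ∈ I, e.1 = a ∧ e.2 = z := by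
  unfold matb_phi
  rw [Finset.mem_union, Finset.mem_singleton, Finset.mem_image]
  constructor
  · rintro (h | ⟨e, he, h⟩)
    · exact Or.inl h
    · rw [Finset.mem_filter] at he
      exact Or.inr ⟨e, he.1, he.2, h⟩
  · rintro (h | ⟨e, he, h1, h2⟩)
    · exact Or.inl h
    · exact Or.inr ⟨e, Finset.mem_filter.2 ⟨he, h1⟩, h2⟩

private lemma matb_ds {G G' : SimpleGraph V} {X : Finset V}
    (h : ∀ a ∈ X, ∀ b ∈ X, G.Adj a b → G'.Adj a b) : ds G X ≤ ds G' X := by
  unfold ds
  apply Finset.sum_le_sum
  intro v hv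
  unfold dg nb
  apply Finset.card_le_card
  intro y hy
  rw [Finset.mem_filter] at hy ⊢
  exact ⟨hy.1, h v hv y hy.1 hy.2⟩

private lemma matb_step {G : SimpleGraph V} {B X : Finset V} {t u : ℕ} {M : Finset (V × V)}
    (hX : X ⊆ B) (hM : PoorM G B X t u M) (I : Finset (V × V)) : I ⊆ M →
    ds G B ≤ ds (quo G (matb_phi I)) (B \ I.image Prod.snd) +
      2 * ∑ e ∈ I, (cod G B e.1 e.2 + (M.filter (fun e' => Rel G e e')).card + 1) := by
  induction I using Finset.induction_on with
  | empty =>
    intro _
    rw [Finset.image_empty, Finset.sdiff_empty, Finset.sum_empty, mul_zero, add_zero]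
    apply matb_ds
    intro a _ b _ hab
    exact ⟨hab.ne, a, matb_mem.2 (Or.inl rfl), b, matb_mem.2 (Or.inl rfl), hab⟩
  | insert e I heI ih =>
    intro hI
    have heM : e ∈ M := hI (Finset.mem_insert_self _ _)
    have hIM : I ⊆ M := fun x hx => hI (Finset.mem_insert_of_mem hx)
    have hne : ∀ e' ∈ I, e ≠ e' := fun e' he' h => heI (h ▸ he')
    have hd : ∀ e' ∈ I, e.1 ≠ e'.1 ∧ e.1 ≠ e'.2 ∧ e.2 ≠ e'.1 ∧ e.2 ≠ e'.2 :=
      fun e' he' => hM.disj e heM e' (hIM he') (hne e' he')
    have h1 : e.1 ∈ B \ I.image Prod.snd := by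
      rw [Finset.mem_sdiff, Finset.mem_image]
      refine ⟨hX (hM.mem e heM).1, ?_⟩
      rintro ⟨e', he', h⟩
      exact (hd e' he').2.1 h.symm
    have h2 : e.2 ∈ B \ I.image Prod.snd := by
      rw [Finset.mem_sdiff, Finset.mem_image]
      refine ⟨hX (hM.mem e heM).2, ?_⟩
      rintro ⟨e', he', h⟩
      exact (hd e' he').2.2.2 h.symm
    have hadj : G.Adj e.1 e.2 := hM.adj e heM
    have h3 : (quo G (matb_phi I)).Adj e.1 e.2 :=
      ⟨hadj.ne, e.1, matb_mem.2 (Or.inl rfl), e.2, matb_mem.2 (Or.inl rfl), hadj⟩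
    have hp1 : ∀ z ∈ matb_phi I e.1, z = e.1 := by
      intro z hz
      rcases matb_mem.1 hz with h | ⟨e', he', h, -⟩
      · exact h
      · exact absurd h.symm (hd e' he').1
    have hp2 : ∀ z ∈ matb_phi I e.2, z = e.2 := by
      intro z hz
      rcases matb_mem.1 hz with h | ⟨e', he', h, -⟩
      · exact h
      · exact absurd h.symm (hd e' he').2.2.1
    have h4 := ds_ctr (G := quo G (matb_phi I)) (X := B \ I.image Prod.snd) h1 h2 h3
    have h5 : (B \ I.image Prod.snd).erase e.2 = B \ (insert e I).image Prod.snd := by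
      ext z
      rw [Finset.mem_erase, Finset.mem_sdiff, Finset.mem_sdiff, Finset.image_insert,
        Finset.mem_insert, not_or]
      tauto
    have h6 : ds (quo (quo G (matb_phi I)) (ctrMap e.1 e.2)) ((B \ I.image Prod.snd).erase e.2) ≤
        ds (quo G (matb_phi (insert e I))) (B \ (insert e I).image Prod.snd) := by
      rw [h5]
      apply matb_ds
      rintro a ha b hb ⟨hab, x, hx, y, hy, -, x', hx', y', hy', hxy⟩
      have key : ∀ a x x' : V, x ∈ ctrMap e.1 e.2 a → x' ∈ matb_phi I x →
          x' ∈ matb_phi (insert e I) a := by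
        intro a x x' hx hx'
        unfold ctrMap at hx
        split_ifs at hx with ha1
        · rw [Finset.mem_insert, Finset.mem_singleton] at hx
          rw [matb_mem]
          rcases hx with hx | hx
          · left
            rw [hx] at hx'
            rw [ha1]
            exact hp1 x' hx'
          · right
            rw [hx] at hx'
            exact ⟨e, Finset.mem_insert_self _ _, ha1.symm, (hp2 x' hx').symm⟩
        · rw [Finset.mem_singleton] at hx
          rw [hx] at hx'
          rw [matb_mem]
          rcases matb_mem.1 hx' with h | ⟨e', he', h, h'⟩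
          · exact Or.inl h
          · exact Or.inr ⟨e', Finset.mem_insert_of_mem he', h, h'⟩
      exact ⟨hab, x', key a x x' hx hx', y', key b y y' hy hy', hxy⟩
    have h7 : cod (quo G (matb_phi I)) (B \ I.image Prod.snd) e.1 e.2 ≤
        cod G B e.1 e.2 + (M.filter (fun e' => Rel G e e')).card := by
      have h8 : (B \ I.image Prod.snd).filter (fun y => (quo G (matb_phi I)).Adj e.1 y ∧
          (quo G (matb_phi I)).Adj e.2 y) ⊆ B.filter (fun y => G.Adj e.1 y ∧ G.Adj e.2 y) ∪
          (M.filter (fun e' => Rel G e e')).image Prod.fst := by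
        intro y hy
        rw [Finset.mem_filter, Finset.mem_sdiff] at hy
        obtain ⟨⟨hyB, -⟩, ⟨-, x1, hx1, y1, hy1, hxy1⟩, ⟨-, x2, hx2, y2, hy2, hxy2⟩⟩ := hy
        rw [hp1 x1 hx1] at hxy1
        rw [hp2 x2 hx2] at hxy2
        rw [Finset.mem_union]
        rcases matb_mem.1 hy1 with h | ⟨e', he', h, h'⟩
        · rcases matb_mem.1 hy2 with h0 | ⟨e', he', h0, h0'⟩
          · left
            rw [h] at hxy1
            rw [h0] at hxy2
            exact Finset.mem_filter.2 ⟨hyB, hxy1, hxy2⟩
          · right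
            rw [Finset.mem_image]
            refine ⟨e', Finset.mem_filter.2 ⟨hIM he', hne e' he', ?_⟩, h0⟩
            rw [← h0'] at hxy2
            exact Or.inr (Or.inr (Or.inr hxy2))
        · right
          rw [Finset.mem_image]
          refine ⟨e', Finset.mem_filter.2 ⟨hIM he', hne e' he', ?_⟩, h⟩
          rw [← h'] at hxy1
          exact Or.inr (Or.inl hxy1)
      unfold cod
      exact (Finset.card_le_card h8).trans ((Finset.card_union_le _ _).trans
        (Nat.add_le_add_left Finset.card_image_le _))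
    rw [Finset.sum_insert heI]
    have h9 := ih hIM
    omega

lemma ds_match {G : SimpleGraph V} {B X : Finset V} {t u : ℕ} {M : Finset (V × V)} (hX : X ⊆ B)
    (hM : PoorM G B X t u M) :
    ∃ (H : SimpleGraph V) (B' : Finset V), B'.card + M.card = B.card ∧
      ds G B ≤ ds H B' +
        2 * ∑ e ∈ M, (cod G B e.1 e.2 + (M.filter (fun e' => Rel G e e')).card + 1) ∧
      ∀ r s : ℕ, HasK H r s B' → HasK G r s B := by
  refine ⟨quo G (matb_phi M), B \ M.image Prod.snd, ?_, matb_step hX hM M (Finset.Subset.refl _),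
    ?_⟩
  · have h1 : (M.image Prod.snd).card = M.card := by
      apply Finset.card_image_of_injOn
      intro e he e' he' h
      by_contra hne
      exact (hM.disj e he e' he' hne).2.2.2 h
    have h2 : M.image Prod.snd ⊆ B := by
      intro z hz
      obtain ⟨e, he, rfl⟩ := Finset.mem_image.1 hz
      exact hX (hM.mem e he).2
    rw [← h1]
    exact Finset.card_sdiff_add_card_eq_card h2
  · intro r s hH
    refine HasK.lift (matb_phi M) ?_ ?_ ?_ ?_ hH
    · intro a ha z hz
      rcases matb_mem.1 hz with h | ⟨e, he, -, h⟩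
      · rw [h]
        exact (Finset.mem_sdiff.1 ha).1
      · rw [← h]
        exact hX (hM.mem e he).2
    · intro a _
      unfold matb_phi
      refine Conn.union_dom (conn_singleton G a) ?_
      intro y hy
      obtain ⟨e, he, rfl⟩ := Finset.mem_image.1 hy
      rw [Finset.mem_filter] at he
      right
      refine ⟨a, Finset.mem_singleton_self a, ?_⟩
      rw [← he.2]
      exact hM.adj e he.1
    · intro a ha b hb hab
      rw [Finset.disjoint_left]
      intro z hza hzb
      rw [Finset.mem_sdiff, Finset.mem_image] at ha hb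
      rcases matb_mem.1 hza with h | ⟨e, he, h, h'⟩
      · rcases matb_mem.1 hzb with h0 | ⟨e', he', h0, h0'⟩
        · exact hab (h.symm.trans h0)
        · exact ha.2 ⟨e', he', h0'.trans h⟩
      · rcases matb_mem.1 hzb with h0 | ⟨e', he', h0, h0'⟩
        · exact hb.2 ⟨e, he, h'.trans h0⟩
        · have hne : e ≠ e' := by
            rintro rfl
            exact hab (h.symm.trans h0)
          exact (hM.disj e he e' he' hne).2.2.2 (h'.trans h0'.symm)
    · rintro a _ b _ ⟨-, h⟩
      exact h

end Pool.Agent.Lib.MP_5babb6_co.W
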