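import Mathlib
import Pool.Agent.Lib.MP_5babb6_co.W.MatA
import Pool.Agent.Lib.MP_5babb6_co.W.MatB
import Pool.Agent.Lib.MP_5babb6_co.W.KO

set_option autoImplicit false

/-!
Lemma 7: poor matchings are small.
-/

namespace Pool.Agent.Lib.MP_5babb6_co.W

open Finset Classical

variable {V : Type}

/-- a subset of a poor matching is a poor matching -/
private lemma PoorM.subset {G : SimpleGraph V} {B X : Finset V} {t u : ℕ}
    {M M' : Finset (V × V)} (hM : PoorM G B X t u M) (h : M' ⊆ M) : PoorM G B X t u M' where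
  adj e he := hM.adj e (h he)
  mem e he := hM.mem e (h he)
  low e he := hM.low e (h he)
  poor e he := hM.poor e (h he)
  disj e he e' he' hne := hM.disj e (h he) e' (h he') hne

/-- a matching in `B` has at most `|B| / 2` edges -/
private lemma PoorM.two_card_le {G : SimpleGraph V} {B X : Finset V} {t u : ℕ}
    {M : Finset (V × V)} (hX : X ⊆ B) (hM : PoorM G B X t u M) : 2 * M.card ≤ B.card := by
  have h1 : (M.image Prod.fst).card = M.card := by
    apply Finset.card_image_of_injOn
    intro a ha b hb hab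
    by_contra hne
    exact (hM.disj a ha b hb hne).1 hab
  have h2 : (M.image Prod.snd).card = M.card := by
    apply Finset.card_image_of_injOn
    intro a ha b hb hab
    by_contra hne
    exact (hM.disj a ha b hb hne).2.2.2 hab
  have h3 : Disjoint (M.image Prod.fst) (M.image Prod.snd) := by
    rw [Finset.disjoint_left]
    intro x hx hx'
    rw [Finset.mem_image] at hx hx'
    obtain ⟨a, ha, rfl⟩ := hx
    obtain ⟨b, hb, hb'⟩ := hx'
    by_cases hab : a = b
    · subst hab
      exact (hM.adj a ha).ne hb'.symm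
    · exact (hM.disj a ha b hb hab).2.1 hb'.symm
  have h4 : M.image Prod.fst ∪ M.image Prod.snd ⊆ B := by
    intro x hx
    rw [Finset.mem_union, Finset.mem_image, Finset.mem_image] at hx
    rcases hx with ⟨a, ha, rfl⟩ | ⟨a, ha, rfl⟩
    · exact hX (hM.mem a ha).1
    · exact hX (hM.mem a ha).2
  have h5 := Finset.card_le_card h4
  rw [Finset.card_union_of_disjoint h3, h1, h2] at h5
  omega

theorem poor_small [Fintype V] {r s t k u c : ℕ} (hp : Par r s t k u c)
    (hC : Cds V (10 ^ 10 * u) u c) (G : SimpleGraph V) {B X : Finset V} (hX : X ⊆ B)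
    (hS : (B \ X).card ≤ k) (hn : 10 ^ 10 * u ≤ B.card) (hdeg : ∀ v ∈ X, t ≤ dg G B v + 1)
    (hno : ¬ HasK G r s B) (M : Finset (V × V)) (hM : PoorM G B X t u M) :
    5000 * M.card ≤ B.card := by
  -- parameters
  have hk : 80 ≤ k := by
    have h1 := hp.hr
    have h2 := hp.hc
    have h3 : 1 * (1 + 3) ≤ r * (c + 3) := Nat.mul_le_mul h1 (by omega)
    have h4 := hp.hN
    omega
  have hu := hp.hu
  have ht1 := hp.h1
  have ht2 := hp.h2
  -- the sparse class
  obtain ⟨M', hM'M, hcard, hrel⟩ := exists_class (Rel G)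
    (fun x y h => ⟨h.1.symm, by
      rcases h.2 with h | h | h | h
      · exact Or.inl h.symm
      · exact Or.inr (Or.inr (Or.inl h.symm))
      · exact Or.inr (Or.inl h.symm)
      · exact Or.inr (Or.inr (Or.inr h.symm))⟩) M 400 (4 * t) (by norm_num)
    (rel_card hX hM) (fun x h => h.1 rfl)
  have hP := hM.subset hM'M
  have h2M := hP.two_card_le hX
  obtain ⟨H, B', hB', hds, hlift⟩ := ds_match hX hP
  -- the sum
  have hsum : ∑ e ∈ M', (cod G B e.1 e.2 + (M'.filter (fun e' => Rel G e e')).card + 1) ≤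
      M'.card * (486 * u) := by
    rw [← smul_eq_mul]
    apply Finset.sum_le_card_nsmul
    intro e he
    have h1 := hP.poor e he
    have h2 := hrel e he
    omega
  -- the degree sum from below
  have hlow : (B.card - k) * (t - 1) ≤ ds G B := by
    have h1 : X.card * (t - 1) ≤ ds G B := by
      unfold ds
      calc X.card * (t - 1) = ∑ _v ∈ X, (t - 1) := by rw [Finset.sum_const, smul_eq_mul]
        _ ≤ ∑ v ∈ X, dg G B v := Finset.sum_le_sum (fun v hv => by have := hdeg v hv; omega)
        _ ≤ ∑ v ∈ B, dg G B v := Finset.sum_le_sum_of_subset hX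
    have h2 : B.card - k ≤ X.card := by
      have := Finset.card_sdiff_add_card_eq_card hX
      omega
    exact (Nat.mul_le_mul_right _ h2).trans h1
  -- no minor
  have hko : ds H B' + (t + 8 * k) * k < (t + 8 * k) * B'.card := by
    by_contra hcon
    push Not at hcon
    exact hno (hlift r s (ko hp hC H B' (by omega) hcon))
  -- the calculation, over the integers
  set n := B.card with hndef
  set m := M'.card with hmdef
  have hkn : k ≤ n := by omega
  have ht0 : 1 ≤ t := by omega
  zify [hkn, ht0] at hlow hko hds hsum hB' hcard h2M ht1 ht2 hu hk hn ⊢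
  have hB'' : (B'.card : ℤ) = n - m := by linarith
  rw [hB''] at hko
  have e1 : ((n : ℤ) - k) * (t - 1) + (t + 8 * k) * k < (t + 8 * k) * (n - m) + 972 * (u * m) := by
    have : (2 : ℤ) * ∑ e ∈ M', ((cod G B e.1 e.2 : ℤ) +
        ((M'.filter (fun e' => Rel G e e')).card : ℤ) + 1) ≤ 2 * (m * (486 * u)) := by linarith
    nlinarith [hlow, hko, hds, this]
  have e2 : ((t : ℤ) + 8 * k) * m + k * k * 8 + k ≤ 8 * (k * n) + n + 972 * (u * m) := by
    nlinarith [e1]
  have hm0 : (0 : ℤ) ≤ m := by positivity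
  have hn0 : (0 : ℤ) ≤ n := by positivity
  have e3 : (1000 : ℤ) * u * m ≤ t * m := mul_le_mul_of_nonneg_right ht1 hm0
  have e4 : (28 : ℤ) * (u * m) ≤ 9 * (k * n) := by
    have h1 : (1 : ℤ) * n ≤ k * n := mul_le_mul_of_nonneg_right (by linarith) hn0
    have h2 : (0 : ℤ) ≤ 8 * k * m := by positivity
    nlinarith [e2, e3, h1, h2, mul_self_nonneg (k : ℤ)]
  have e5 : (28000000 : ℤ) * m ≤ 9 * n := by
    rw [hu] at e4
    have hk0 : (0 : ℤ) < k := by linarith
    have h3 : (k : ℤ) * (28000000 * m) ≤ k * (9 * n) := by nlinarith [e4]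
    exact le_of_mul_le_mul_left h3 hk0
  linarith

end Pool.Agent.Lib.MP_5babb6_co.W
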