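import Mathlib
import Pool.Agent.Lib.MP_5babb6_co.W.Mat

set_option autoImplicit false

/-!
Lemma 8: big leaves.
-/

namespace Pool.Agent.Lib.MP_5babb6_co.W

open Finset Classical

variable {V : Type}

/-- double counting of the edges between two sets -/
lemma big_double (G : SimpleGraph V) (A C : Finset V) :
    ∑ v ∈ A, dg G C v = ∑ z ∈ C, dg G A z := by
  have h1 : ∀ (D : Finset V) (v : V), dg G D v = ∑ y ∈ D, if G.Adj v y then 1 else 0 := by
    intro D v
    rw [dg, nb, Finset.card_filter]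
  simp only [h1]
  rw [Finset.sum_comm]
  refine Finset.sum_congr rfl fun y _ => Finset.sum_congr rfl fun z _ => ?_
  by_cases h : G.Adj z y
  · rw [if_pos h, if_pos h.symm]
  · rw [if_neg h, if_neg fun h' => h h'.symm]

/-- a maximal matching of poor edges -/
lemma big_max [Fintype V] (G : SimpleGraph V) (B X : Finset V) (t u : ℕ) :
    ∃ M : Finset (V × V), PoorM G B X t u M ∧
      ∀ M' : Finset (V × V), PoorM G B X t u M' → M'.card ≤ M.card := by
  have h0 : PoorM G B X t u ∅ :=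
    ⟨fun e he => absurd he (Finset.notMem_empty e), fun e he => absurd he (Finset.notMem_empty e),
      fun e he => absurd he (Finset.notMem_empty e), fun e he => absurd he (Finset.notMem_empty e),
      fun e he => absurd he (Finset.notMem_empty e)⟩
  obtain ⟨M, hM, hmax⟩ := Finset.exists_max_image
    ((Finset.univ : Finset (Finset (V × V))).filter fun M => PoorM G B X t u M) Finset.card
    ⟨∅, Finset.mem_filter.2 ⟨Finset.mem_univ _, h0⟩⟩
  exact ⟨M, (Finset.mem_filter.1 hM).2, fun M' hM' =>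
    hmax M' (Finset.mem_filter.2 ⟨Finset.mem_univ _, hM'⟩)⟩

/-- outside a maximal matching all edges are rich -/
lemma big_rich {G : SimpleGraph V} {B X : Finset V} {t u : ℕ} {M : Finset (V × V)}
    (hM : PoorM G B X t u M)
    (hmax : ∀ M' : Finset (V × V), PoorM G B X t u M' → M'.card ≤ M.card) {x y : V}
    (hx : x ∈ X) (hy : y ∈ X) (hxl : dg G B x ≤ 2 * t) (hyl : dg G B y ≤ 2 * t)
    (hxM : ∀ e ∈ M, x ≠ e.1 ∧ x ≠ e.2) (hyM : ∀ e ∈ M, y ≠ e.1 ∧ y ≠ e.2)
    (hxy : G.Adj x y) : 475 * u ≤ cod G B x y := by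
  by_contra hlt
  rw [not_le] at hlt
  have hnot : (x, y) ∉ M := fun h => (hxM _ h).1 rfl
  have h1 : PoorM G B X t u (insert (x, y) M) := by
    refine ⟨?_, ?_, ?_, ?_, ?_⟩
    · intro e he
      rcases Finset.mem_insert.1 he with rfl | he
      · exact hxy
      · exact hM.adj e he
    · intro e he
      rcases Finset.mem_insert.1 he with rfl | he
      · exact ⟨hx, hy⟩
      · exact hM.mem e he
    · intro e he
      rcases Finset.mem_insert.1 he with rfl | he
      · exact ⟨hxl, hyl⟩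
      · exact hM.low e he
    · intro e he
      rcases Finset.mem_insert.1 he with rfl | he
      · exact hlt
      · exact hM.poor e he
    · intro e he e' he' hne
      rcases Finset.mem_insert.1 he with rfl | he
      · rcases Finset.mem_insert.1 he' with rfl | he'
        · exact absurd rfl hne
        · exact ⟨(hxM e' he').1, (hxM e' he').2, (hyM e' he').1, (hyM e' he').2⟩
      · rcases Finset.mem_insert.1 he' with rfl | he'
        · exact ⟨(hxM e he).1.symm, (hyM e he).1.symm, (hxM e he).2.symm, (hyM e he).2.symm⟩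
        · exact hM.disj e he e' he' hne
  have h2 := hmax _ h1
  rw [Finset.card_insert_of_notMem hnot] at h2
  omega

/-- the next piece: a vertex with few neighbours outside a rich set `W'` -/
lemma big_next {G : SimpleGraph V} {B W' : Finset V} {t u : ℕ} (hu : 1 ≤ u)
    (h1 : 1000 * u ≤ t) (h2 : t ≤ 1001 * u) (hW : W' ⊆ B)
    (hrich : ∀ x ∈ W', ∀ y ∈ W', G.Adj x y → 475 * u ≤ cod G B x y) {v : V} (hv : v ∈ W')
    (hvt : t ≤ dg G B v + 1) (hvl : dg G B v ≤ 2 * t) (hout : dg G (B \ W') v ≤ u) :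
    ∃ P ⊆ W', Robust G P (10 * u) (200 * u) ∧ P.card ≤ 2525 * u := by
  have hsplit : dg G B v ≤ dg G W' v + dg G (B \ W') v := by
    have h3 : W' ∪ (B \ W') = B := Finset.union_sdiff_of_subset hW
    have h4 := dg_union_le (G := G) (X := W') (Y := B \ W') (v := v)
    rwa [h3] at h4
  have hPc : (nb G W' v).card = dg G W' v := rfl
  have hle : dg G W' v ≤ dg G B v := dg_mono hW v
  have hne : (nb G W' v).Nonempty := by
    rw [← Finset.card_pos, hPc]
    omega
  have hd : ∀ x ∈ nb G W' v, 200 * u + 10 * u * 13 ≤ dg G (nb G W' v) x := by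
    intro x hx
    obtain ⟨hxW, hvx⟩ := mem_nb.1 hx
    have h5 := hrich v hv x hxW hvx
    have h6 : B.filter (fun y => G.Adj v y ∧ G.Adj x y) ⊆
        nb G (nb G W' v) x ∪ nb G (B \ W') v := by
      intro y hy
      obtain ⟨hyB, hvy, hxy⟩ := Finset.mem_filter.1 hy
      by_cases hyW : y ∈ W'
      · exact Finset.mem_union_left _ (mem_nb.2 ⟨mem_nb.2 ⟨hyW, hvy⟩, hxy⟩)
      · exact Finset.mem_union_right _ (mem_nb.2 ⟨Finset.mem_sdiff.2 ⟨hyB, hyW⟩, hvy⟩)
    have h7 : cod G B v x ≤ dg G (nb G W' v) x + dg G (B \ W') v :=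
      (Finset.card_le_card h6).trans (Finset.card_union_le _ _)
    omega
  obtain ⟨Q, hQP, hQ⟩ := exists_robust G (10 * u) (200 * u) 13 (nb G W' v) hne
    (by rw [hPc]; omega) hd
  refine ⟨Q, hQP.trans (Finset.filter_subset _ _), hQ, ?_⟩
  have h8 := Finset.card_le_card hQP
  rw [hPc] at h8
  omega

/-- the numbers -/
lemma big_num {n k u t w' un mn rn T : ℕ} (hk : 1 ≤ k) (hu : u = 1000000 * k)
    (h1 : 1000 * u ≤ t) (h2 : t ≤ 1001 * u) (hn : 10 ^ 10 * u ≤ n) (hU : t * un ≤ 9 * (k * n))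
    (hM : 5000 * mn ≤ n) (hR : rn ≤ 15150 * u) (hw : n ≤ w' + (k + un + 2 * mn + rn))
    (hT : T ≤ 18 * (k * n) + 4 * (t * mn) + 2 * (t * rn)) (hc : u * w' ≤ T) : False := by
  have hun : 1000000000 * un ≤ 9 * n := by
    have h3 : 1000000000 * k ≤ t := by omega
    have h4 : 1000000000 * k * un ≤ t * un := Nat.mul_le_mul_right _ h3
    have h5 : k * (1000000000 * un) ≤ k * (9 * n) := by
      calc k * (1000000000 * un) = 1000000000 * k * un := by ring
        _ ≤ t * un := h4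
        _ ≤ 9 * (k * n) := hU
        _ = k * (9 * n) := by ring
    exact Nat.le_of_mul_le_mul_left h5 hk
  have hw' : 99 * n ≤ 100 * w' := by omega
  have e1 : 1000000 * (k * n) = u * n := by rw [hu]; ring
  have e2 : 5000 * (u * mn) ≤ u * n := by
    calc 5000 * (u * mn) = u * (5000 * mn) := by ring
      _ ≤ u * n := Nat.mul_le_mul_left _ hM
  have e3 : 10 ^ 10 * (u * u) ≤ u * n := by
    calc 10 ^ 10 * (u * u) = u * (10 ^ 10 * u) := by ring
      _ ≤ u * n := Nat.mul_le_mul_left _ hn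
  have e4 : t * mn ≤ 1001 * (u * mn) := by
    calc t * mn ≤ 1001 * u * mn := Nat.mul_le_mul_right _ h2
      _ = 1001 * (u * mn) := by ring
  have e5 : t * rn ≤ 1001 * 15150 * (u * u) := by
    calc t * rn ≤ (1001 * u) * (15150 * u) := Nat.mul_le_mul h2 hR
      _ = 1001 * 15150 * (u * u) := by ring
  have e6 : 99 * (u * n) ≤ 100 * (u * w') := by
    calc 99 * (u * n) = u * (99 * n) := by ring
      _ ≤ u * (100 * w') := Nat.mul_le_mul_left _ hw'
      _ = 100 * (u * w') := by ring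
  have e7 : 0 < u * n := by
    have : 0 < u := by omega
    have : 0 < n := by omega
    positivity
  omega

/-- the sums of the degrees of the exceptional vertices -/
lemma big_sums {G : SimpleGraph V} {B X : Finset V} {t k : ℕ} (hX : X ⊆ B) (hk : 1 ≤ k)
    (hS : (B \ X).card ≤ k) (hdeg : ∀ v ∈ X, t ≤ dg G B v + 1)
    (hds : ds G B + (t + 8 * k) * k < (t + 8 * k) * B.card) :
    (∑ v ∈ X, (dg G B v + 1 - t)) + ∑ v ∈ B \ X, dg G B v ≤ 9 * (k * B.card) := by
  have h1 : ∑ v ∈ B \ X, dg G B v + ∑ v ∈ X, dg G B v = ds G B := Finset.sum_sdiff hX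
  have h2 : (∑ v ∈ X, (dg G B v + 1 - t)) + X.card * t = (∑ v ∈ X, dg G B v) + X.card := by
    rw [← smul_eq_mul, ← Finset.sum_const, ← Finset.sum_add_distrib, Finset.card_eq_sum_ones X,
      ← Finset.sum_add_distrib]
    refine Finset.sum_congr rfl fun v hv => ?_
    exact Nat.sub_add_cancel (hdeg v hv)
  have h3 : (B \ X).card + X.card = B.card := Finset.card_sdiff_add_card_eq_card hX
  have h4 : (t + 8 * k) * B.card ≤ (t + 8 * k) * k + (t + 8 * k) * X.card := by
    rw [← h3, Nat.mul_add]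
    exact Nat.add_le_add_right (Nat.mul_le_mul_left _ hS) _
  have h5 : (t + 8 * k) * X.card = X.card * t + 8 * (k * X.card) := by ring
  have h6 : X.card ≤ k * X.card := Nat.le_mul_of_pos_left _ hk
  have h7 : k * X.card ≤ k * B.card := Nat.mul_le_mul_left _ (Finset.card_le_card hX)
  omega

theorem big_leaf [Fintype V] {r s t k u c : ℕ} (hp : Par r s t k u c)
    (hC : Cds V (10 ^ 10 * u) u c) (G : SimpleGraph V) {B X : Finset V} (hX : X ⊆ B)
    (hS : (B \ X).card ≤ k) (hn : 10 ^ 10 * u ≤ B.card) (hdeg : ∀ v ∈ X, t ≤ dg G B v + 1)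
    (hlink : ∀ Z : Finset V, Z.card < 6 * r → ∀ P1 P2 : Finset V, P1.Nonempty → P2.Nonempty →
      P1 ⊆ X \ Z → P2 ⊆ X \ Z → ∃ C ⊆ B \ Z, Conn G C ∧ (∃ x ∈ C, x ∈ P1) ∧ ∃ x ∈ C, x ∈ P2) :
    HasK G r s B := by
  by_contra hno
  obtain ⟨hr, hs, ht, hc, hu, h1, h2, hN⟩ := hp
  have hp : Par r s t k u c := ⟨hr, hs, ht, hc, hu, h1, h2, hN⟩
  have hrk : 6 * r ≤ k := by
    have : r * 4 ≤ r * (c + 3) := Nat.mul_le_mul_left _ (by omega)
    omega
  have hk : 1 ≤ k := by omega
  have hu1 : 1 ≤ u := by omega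
  have hds : ds G B + (t + 8 * k) * k < (t + 8 * k) * B.card := by
    by_contra hcon
    exact hno (ko hp hC G B (by omega) (not_lt.1 hcon))
  have hsums := big_sums hX hk hS hdeg hds
  obtain ⟨A, hA⟩ : ∃ A : ℕ, A = ∑ v ∈ X, (dg G B v + 1 - t) := ⟨_, rfl⟩
  obtain ⟨DS, hDS⟩ : ∃ A : ℕ, A = ∑ v ∈ B \ X, dg G B v := ⟨_, rfl⟩
  rw [← hA, ← hDS] at hsums
  -- vertices of large degree
  obtain ⟨U, hU⟩ : ∃ U : Finset V, U = X.filter fun v => 2 * t < dg G B v := ⟨_, rfl⟩
  have hUmem : ∀ v, v ∈ U ↔ v ∈ X ∧ 2 * t < dg G B v := by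
    intro v
    rw [hU, Finset.mem_filter]
  have hUsum : ∑ v ∈ U, dg G B v ≤ 2 * A := by
    have h3 : ∑ v ∈ U, dg G B v ≤ ∑ v ∈ U, 2 * (dg G B v + 1 - t) := by
      refine Finset.sum_le_sum fun v hv => ?_
      have := ((hUmem v).1 hv).2
      omega
    have h4 : ∑ v ∈ U, (dg G B v + 1 - t) ≤ ∑ v ∈ X, (dg G B v + 1 - t) :=
      Finset.sum_le_sum_of_subset (fun v hv => ((hUmem v).1 hv).1)
    rw [← Finset.mul_sum] at h3
    rw [hA]
    exact h3.trans (Nat.mul_le_mul_left _ h4)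
  have hUcard : t * U.card ≤ A := by
    have h3 : U.card * (2 * t) ≤ ∑ v ∈ U, dg G B v := by
      have := Finset.card_nsmul_le_sum U (fun v => dg G B v) (2 * t)
        (fun v hv => ((hUmem v).1 hv).2.le)
      rwa [smul_eq_mul] at this
    have h4 : U.card * (2 * t) = 2 * (t * U.card) := by ring
    omega
  -- a maximal matching of poor edges
  obtain ⟨M, hM, hmax⟩ := big_max G B X t u
  have hMc := poor_small hp hC G hX hS hn hdeg hno M hM
  obtain ⟨VM, hVM⟩ : ∃ VM : Finset V, VM = M.image Prod.fst ∪ M.image Prod.snd := ⟨_, rfl⟩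
  have hVMmem : ∀ v, v ∈ VM ↔ ∃ e ∈ M, v = e.1 ∨ v = e.2 := by
    intro v
    rw [hVM, Finset.mem_union, Finset.mem_image, Finset.mem_image]
    constructor
    · rintro (⟨e, he, h⟩ | ⟨e, he, h⟩)
      · exact ⟨e, he, Or.inl h.symm⟩
      · exact ⟨e, he, Or.inr h.symm⟩
    · rintro ⟨e, he, h | h⟩
      · exact Or.inl ⟨e, he, h.symm⟩
      · exact Or.inr ⟨e, he, h.symm⟩
  have hVMc : VM.card ≤ 2 * M.card := by
    have h3 := Finset.card_union_le (M.image Prod.fst) (M.image Prod.snd)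
    have h4 : (M.image Prod.fst).card ≤ M.card := Finset.card_image_le
    have h5 : (M.image Prod.snd).card ≤ M.card := Finset.card_image_le
    rw [hVM]
    omega
  have hVMlow : ∀ v ∈ VM, dg G B v ≤ 2 * t := by
    intro v hv
    obtain ⟨e, he, h | h⟩ := (hVMmem v).1 hv
    · rw [h]
      exact (hM.low e he).1
    · rw [h]
      exact (hM.low e he).2
  obtain ⟨W, hW⟩ : ∃ W : Finset V, W = (X \ U) \ VM := ⟨_, rfl⟩
  have hWmem : ∀ v, v ∈ W ↔ v ∈ X ∧ dg G B v ≤ 2 * t ∧ v ∉ VM := by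
    intro v
    rw [hW, Finset.mem_sdiff, Finset.mem_sdiff, hUmem]
    constructor
    · rintro ⟨⟨h3, h4⟩, h5⟩
      exact ⟨h3, not_lt.1 fun h => h4 ⟨h3, h⟩, h5⟩
    · rintro ⟨h3, h4, h5⟩
      exact ⟨⟨h3, fun h => absurd h.2 (not_lt.2 h4)⟩, h5⟩
  have hWX : W ⊆ X := fun v hv => ((hWmem v).1 hv).1
  have hrich : ∀ x ∈ W, ∀ y ∈ W, G.Adj x y → 475 * u ≤ cod G B x y := by
    intro x hx y hy hxy
    obtain ⟨hxX, hxl, hxM⟩ := (hWmem x).1 hx
    obtain ⟨hyX, hyl, hyM⟩ := (hWmem y).1 hy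
    refine big_rich hM hmax hxX hyX hxl hyl (fun e he => ⟨fun h => hxM ?_, fun h => hxM ?_⟩)
      (fun e he => ⟨fun h => hyM ?_, fun h => hyM ?_⟩) hxy
    · exact (hVMmem x).2 ⟨e, he, Or.inl h⟩
    · exact (hVMmem x).2 ⟨e, he, Or.inr h⟩
    · exact (hVMmem y).2 ⟨e, he, Or.inl h⟩
    · exact (hVMmem y).2 ⟨e, he, Or.inr h⟩
  -- the pieces
  have hpieces := pieces_of_step (G := G) (B := B) (W := W) (u := u) (hWX.trans hX) False (by
    intro m hm Q hQW hQd hQr hQc
    right
    obtain ⟨R, hR⟩ : ∃ R : Finset V, R = Finset.univ.biUnion Q := ⟨_, rfl⟩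
    have hRmem : ∀ v, v ∈ R ↔ ∃ i, v ∈ Q i := by
      intro v
      rw [hR, Finset.mem_biUnion]
      constructor
      · rintro ⟨i, _, h⟩
        exact ⟨i, h⟩
      · rintro ⟨i, h⟩
        exact ⟨i, Finset.mem_univ _, h⟩
    have hRW : R ⊆ W := by
      intro v hv
      obtain ⟨i, hi⟩ := (hRmem v).1 hv
      exact hQW i hi
    have hRc : R.card ≤ 15150 * u := by
      rw [hR]
      refine Finset.card_biUnion_le.trans ?_
      refine (Finset.sum_le_card_nsmul _ _ (2525 * u) fun i _ => hQc i).trans ?_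
      rw [Finset.card_univ, Fintype.card_fin, smul_eq_mul]
      calc m * (2525 * u) ≤ 6 * (2525 * u) := Nat.mul_le_mul_right _ hm
        _ = 15150 * u := by ring
    obtain ⟨W', hW'⟩ : ∃ W' : Finset V, W' = W \ R := ⟨_, rfl⟩
    have hW'W : W' ⊆ W := by
      rw [hW']
      exact Finset.sdiff_subset
    have hW'B : W' ⊆ B := (hW'W.trans hWX).trans hX
    have hcover : B \ W' ⊆ (B \ X) ∪ (U ∪ (VM ∪ R)) := by
      intro z hz
      obtain ⟨hzB, hzW⟩ := Finset.mem_sdiff.1 hz
      by_cases h3 : z ∈ X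
      · refine Finset.mem_union_right _ ?_
        by_cases h4 : z ∈ U
        · exact Finset.mem_union_left _ h4
        · refine Finset.mem_union_right _ ?_
          by_cases h5 : z ∈ VM
          · exact Finset.mem_union_left _ h5
          · refine Finset.mem_union_right _ ?_
            by_contra h6
            apply hzW
            rw [hW']
            refine Finset.mem_sdiff.2 ⟨(hWmem z).2 ⟨h3, ?_, h5⟩, h6⟩
            exact not_lt.1 fun h => h4 ((hUmem z).2 ⟨h3, h⟩)
      · exact Finset.mem_union_left _ (Finset.mem_sdiff.2 ⟨hzB, h3⟩)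
    have hex : ∃ v ∈ W', dg G (B \ W') v ≤ u := by
      by_contra hcon
      push Not at hcon
      have h3 : u * W'.card ≤ ∑ v ∈ W', dg G (B \ W') v := by
        have := Finset.card_nsmul_le_sum W' (fun v => dg G (B \ W') v) u
          (fun v hv => (hcon v hv).le)
        rwa [smul_eq_mul, Nat.mul_comm] at this
      have h4 : ∑ v ∈ W', dg G (B \ W') v ≤
          18 * (k * B.card) + 4 * (t * M.card) + 2 * (t * R.card) := by
        rw [big_double]
        have h5 : ∑ z ∈ B \ W', dg G W' z ≤ ∑ z ∈ (B \ X) ∪ (U ∪ (VM ∪ R)), dg G B z :=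
          (Finset.sum_le_sum fun z _ => dg_mono hW'B z).trans
            (Finset.sum_le_sum_of_subset hcover)
        have hun : ∀ P Q : Finset V, ∑ z ∈ P ∪ Q, dg G B z ≤
            ∑ z ∈ P, dg G B z + ∑ z ∈ Q, dg G B z := by
          intro P Q
          rw [← Finset.sum_union_inter]
          exact Nat.le_add_right _ _
        have h6 := hun (B \ X) (U ∪ (VM ∪ R))
        have h7 := hun U (VM ∪ R)
        have h8 := hun VM R
        have h9 : ∑ z ∈ VM, dg G B z ≤ 4 * (t * M.card) := by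
          refine (Finset.sum_le_card_nsmul _ _ (2 * t) hVMlow).trans ?_
          rw [smul_eq_mul]
          calc VM.card * (2 * t) ≤ 2 * M.card * (2 * t) := Nat.mul_le_mul_right _ hVMc
            _ = 4 * (t * M.card) := by ring
        have h10 : ∑ z ∈ R, dg G B z ≤ 2 * (t * R.card) := by
          refine (Finset.sum_le_card_nsmul _ _ (2 * t)
            fun z hz => ((hWmem z).1 (hRW hz)).2.1).trans ?_
          rw [smul_eq_mul]
          exact le_of_eq (by ring)
        omega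
      have h5 : B.card ≤ W'.card + (k + U.card + 2 * M.card + R.card) := by
        have h6 := Finset.card_le_card hcover
        have h7 := Finset.card_union_le (B \ X) (U ∪ (VM ∪ R))
        have h8 := Finset.card_union_le U (VM ∪ R)
        have h9 := Finset.card_union_le VM R
        have h10 : (B \ W').card + W'.card = B.card := Finset.card_sdiff_add_card_eq_card hW'B
        omega
      exact big_num hk hu h1 h2 hn (by omega) hMc hRc h5 h4 h3
    obtain ⟨v, hv, hvo⟩ := hex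
    have hvW := (hWmem v).1 (hW'W hv)
    obtain ⟨P, hPW, hPr, hPc⟩ := big_next hu1 h1 h2 hW'B
      (fun x hx y hy => hrich x (hW'W hx) y (hW'W hy)) hv (hdeg v hvW.1) hvW.2.1 hvo
    refine ⟨P, hPW.trans hW'W, fun i => ?_, hPr, hPc⟩
    rw [Finset.disjoint_left]
    intro x hxP hxQ
    have := hPW hxP
    rw [hW', Finset.mem_sdiff] at this
    exact this.2 ((hRmem x).2 ⟨i, hxQ⟩))
  rcases hpieces with h | ⟨Q, hQ, hQW⟩
  · exact h
  apply hno
  apply hasK_of_star
  refine many hp hC hQ fun Z hZ j => ?_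
  have hne : ∀ l, (Q l \ Z).Nonempty := by
    intro l
    have h3 := (hQ.rob l).card_lt
    have h4 := Finset.le_card_sdiff Z (Q l)
    rw [← Finset.card_pos]
    omega
  have hsub : ∀ l, Q l \ Z ⊆ X \ Z := fun l =>
    Finset.sdiff_subset_sdiff ((hQW l).trans hWX) (le_refl _)
  obtain ⟨C, hCB, hCc, ⟨x, hx, hx'⟩, y, hy, hy'⟩ := hlink Z hZ (Q 0 \ Z) (Q j.succ \ Z)
    (hne 0) (hne _) (hsub 0) (hsub _)
  exact ⟨C, hCB, hCc, ⟨x, hx, (Finset.mem_sdiff.1 hx').1⟩, y, hy, (Finset.mem_sdiff.1 hy').1⟩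

end Pool.Agent.Lib.MP_5babb6_co.W
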