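import Mathlib
import Pool.Agent.Lib.MP_5babb6_co.W.Base

set_option autoImplicit false

/-!
Theorem W, Lemma 9: the engine with an initial boundary. `main_rec` of `Core.lean` inside a finite
set, with small connected dominating sets (`Cds`) for the connected subsets with at most `N`
vertices.
-/

namespace Pool.Agent.Lib.MP_5babb6_co.W

open Finset Classical

variable {V : Type}

/-- A clique `A₀` and vertices outside it that are complete to it. -/
lemma star_of_cliqueU {G : SimpleGraph V} {r s : ℕ} {U : Finset V} (A₀ B : Finset V)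
    (hA : A₀.card = r) (hB : B.card = s) (hAU : ∀ a ∈ A₀, a ∈ U) (hBU : ∀ b ∈ B, b ∈ U)
    (hAA : ∀ a ∈ A₀, ∀ b ∈ A₀, a ≠ b → G.Adj a b)
    (hAB : ∀ a ∈ A₀, ∀ b ∈ B, b ≠ a ∧ G.Adj a b) : HasStarIn G r s (U : Set V) := by
  obtain ⟨e⟩ : Nonempty (Fin r ≃ A₀) := by
    rw [← Fintype.card_eq]
    simp [hA]
  refine ⟨fun i => {(e i : V)}, B, hB, fun i => ?_, fun b hb => ?_,
    fun i => connected_singleton G _, ?_, ?_, ?_⟩
  · rw [Set.singleton_subset_iff]
    exact mem_coe.2 (hAU _ (e i).2)
  · exact mem_coe.2 (hBU b (mem_coe.1 hb))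
  · intro i j hij
    rw [Set.disjoint_singleton]
    intro h
    exact hij (e.injective (Subtype.ext h))
  · intro i j hij
    refine ⟨_, rfl, _, rfl, hAA _ (e i).2 _ (e j).2 ?_⟩
    intro h
    exact hij (e.injective (Subtype.ext h))
  · intro i b hb
    have := hAB _ (e i).2 b hb
    exact ⟨by simpa using this.1, _, rfl, this.2⟩

/-- A small piece `P` with boundary `Z`: every injective colouring of `Z` extends to `P`. -/
lemma pcolU (G : SimpleGraph V) (r s : ℕ) (hr : 0 < r) (P Z : Finset V)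
    (hPZ : Disjoint P Z) (hcard : P.card + 2 * Z.card ≤ r + 2 * s)
    (hno : ¬ HasStarIn G r s ((P ∪ Z : Finset V) : Set V)) (f : V → Fin (r + s - 1)) (hf : Set.InjOn f Z) :
    ∃ g : V → Fin (r + s - 1), (∀ z ∈ Z, g z = f z) ∧
      ∀ x ∈ P, ∀ y ∈ P ∪ Z, G.Adj x y → g x ≠ g y := by
  obtain ⟨R, hR⟩ : ∃ R : V → V → Prop, R = fun v w => v ≠ w ∧ (G.Adj v w ∨ (v ∈ Z ∧ w ∈ Z)) :=
    ⟨_, rfl⟩
  have hsym : ∀ x y, R x y → R y x := by
    intro x y h
    rw [hR] at h ⊢
    exact ⟨h.1.symm, h.2.imp (fun h => h.symm) (fun h => ⟨h.2, h.1⟩)⟩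
  by_cases hcol : ∃ c : V → ℕ, (∀ v ∈ P ∪ Z, c v < r + s - 1) ∧
      ∀ v ∈ P ∪ Z, ∀ w ∈ P ∪ Z, R v w → c v ≠ c w
  · obtain ⟨c, hc1, hc2⟩ := hcol
    by_cases hemp : P ∪ Z = ∅
    · rw [union_eq_empty] at hemp
      exact ⟨f, fun _ _ => rfl, fun x hx => by simp [hemp.1] at hx⟩
    obtain ⟨v0, hv0⟩ := nonempty_iff_ne_empty.2 hemp
    have hpos : 0 < r + s - 1 := (Nat.zero_le _).trans_lt (hc1 v0 hv0)
    obtain ⟨c', hc'⟩ : ∃ c' : V → Fin (r + s - 1), ∀ v ∈ P ∪ Z, (c' v : ℕ) = c v := by
      refine ⟨fun v => if h : c v < r + s - 1 then ⟨c v, h⟩ else ⟨0, hpos⟩, ?_⟩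
      intro v hv
      simp only
      rw [dif_pos (hc1 v hv)]
    have hc3 : ∀ v ∈ P ∪ Z, ∀ w ∈ P ∪ Z, R v w → c' v ≠ c' w := by
      intro v hv w hw h h'
      apply hc2 v hv w hw h
      rw [← hc' v hv, ← hc' w hw, h']
    have hinj : Set.InjOn c' Z := by
      intro x hx y hy hxy
      by_contra hne
      refine hc3 x (mem_union_right _ (mem_coe.1 hx)) y (mem_union_right _ (mem_coe.1 hy)) ?_ hxy
      rw [hR]
      exact ⟨hne, Or.inr ⟨mem_coe.1 hx, mem_coe.1 hy⟩⟩
    obtain ⟨σ, hσ⟩ := exists_perm Z c' f hinj hf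
    refine ⟨fun v => σ (c' v), hσ, ?_⟩
    intro x hx y hy hxy h
    refine hc3 x (mem_union_left _ hx) y hy ?_ (σ.injective h)
    rw [hR]
    exact ⟨hxy.ne, Or.inl hxy⟩
  · exfalso
    have hex : ∃ k, ∃ c : V → ℕ, (∀ v ∈ P ∪ Z, c v < k) ∧
        ∀ v ∈ P ∪ Z, ∀ w ∈ P ∪ Z, R v w → c v ≠ c w := by
      obtain ⟨e⟩ : Nonempty ((P ∪ Z : Finset V) ≃ Fin (P ∪ Z).card) := by
        rw [← Fintype.card_eq]
        simp
      refine ⟨(P ∪ Z).card, fun v => if h : v ∈ P ∪ Z then (e ⟨v, h⟩ : ℕ) else 0, ?_, ?_⟩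
      · intro v hv
        simp only
        rw [dif_pos hv]
        exact (e ⟨v, hv⟩).2
      · intro v hv w hw h h'
        simp only at h'
        rw [dif_pos hv, dif_pos hw] at h'
        have e1 := e.injective (Fin.ext h')
        rw [hR] at h
        exact h.1 (congrArg Subtype.val e1)
    obtain ⟨k, hk⟩ : ∃ k, k = Nat.find hex := ⟨_, rfl⟩
    obtain ⟨c, hc1, hc2⟩ := Nat.find_spec hex
    rw [← hk] at hc1
    have hkt : r + s ≤ k := by
      by_contra h
      exact hcol ⟨c, fun v hv => (hc1 v hv).trans_le (by omega), hc2⟩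
    have hmin := minCol (P ∪ Z) R hsym k c hc1 hc2 (by
      intro h
      have h1 := Nat.find_min' hex h
      omega)
    have hk0 : 0 < k := by omega
    obtain ⟨v0, -⟩ := hmin 0 hk0
    have : Nonempty V := ⟨v0⟩
    choose! w hw1 hw2 hw3 using hmin
    have hcount := count_single P Z k c w (fun i hi => ⟨hw1 i hi, hw2 i hi⟩)
    obtain ⟨U, hU⟩ : ∃ U, U = P.filter (fun u => ∀ v ∈ P ∪ Z, c v = c u → v = u) := ⟨_, rfl⟩
    rw [← hU] at hcount
    have hUr : r ≤ U.card := by omega
    obtain ⟨A₀, hA₀, hA₀c⟩ := Finset.exists_subset_card_eq hUr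
    have hUP : ∀ u ∈ A₀, u ∈ P ∧ ∀ v ∈ P ∪ Z, c v = c u → v = u := by
      intro u hu
      have := hA₀ hu
      rw [hU, mem_filter] at this
      exact this
    obtain ⟨I, hI⟩ : ∃ I, I = (range k) \ (A₀.image c) := ⟨_, rfl⟩
    have hIc : s ≤ I.card := by
      have h1 := Finset.le_card_sdiff (A₀.image c) (range k)
      have h2 : (A₀.image c).card ≤ A₀.card := card_image_le
      rw [card_range] at h1
      rw [hI]
      omega
    obtain ⟨I', hI', hI'c⟩ := Finset.exists_subset_card_eq hIc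
    have hIk : ∀ i ∈ I', i < k ∧ ∀ a ∈ A₀, c a ≠ i := by
      intro i hi
      have := hI' hi
      rw [hI, mem_sdiff, mem_range, mem_image] at this
      exact ⟨this.1, fun a ha h => this.2 ⟨a, ha, h⟩⟩
    have hadj : ∀ a ∈ A₀, ∀ i < k, a ≠ w i → G.Adj a (w i) := by
      intro a ha i hi hne
      have h1 := hw3 i hi a (mem_union_left _ (hUP a ha).1) (hUP a ha).2 hne
      rw [hR] at h1
      rcases h1.2 with h | h
      · exact h.symm
      · exact ((disjoint_left.1 hPZ) (hUP a ha).1 h.2).elim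
    apply hno
    refine star_of_cliqueU A₀ (I'.image w) hA₀c ?_ (fun a ha => mem_union_left _ (hUP a ha).1)
      (fun b hb => ?_) ?_ ?_
    · rw [card_image_of_injOn, hI'c]
      intro i hi j hj hij
      have e1 := hw2 i (hIk i (mem_coe.1 hi)).1
      have e2 := hw2 j (hIk j (mem_coe.1 hj)).1
      rw [hij] at e1
      exact e1.symm.trans e2
    · obtain ⟨i, hi, rfl⟩ := mem_image.1 hb
      exact hw1 i (hIk i hi).1
    · intro a ha b hb hab
      have h1 := hc1 b (mem_union_left _ (hUP b hb).1)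
      have h2 : w (c b) = b := (hUP b hb).2 _ (hw1 _ h1) (hw2 _ h1)
      have h3 := hadj a ha (c b) h1 (by rw [h2]; exact hab)
      rwa [h2] at h3
    · intro a ha b hb
      obtain ⟨i, hi, rfl⟩ := mem_image.1 hb
      obtain ⟨h1, h2⟩ := hIk i hi
      have hne : a ≠ w i := by
        intro h
        apply h2 a ha
        rw [h, hw2 i h1]
      exact ⟨hne.symm, hadj a ha i h1 hne⟩

/-- the recursion of `main_rec` inside a finite set `U`, with an initial boundary of `k`
vertices -/
lemma main_recU (G : SimpleGraph V) (r s c k N d : ℕ) (hr : 0 < r) (hs : 0 < s)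
    (hc : 2 * (k + r * c) ≤ r + s + 1) (hd : d + (k + (r - 1) * c) ≤ r + s - 1)
    (hdom : Cds V N d c) (U : Finset V) (hno : ¬ HasStarIn G r s (U : Set V)) :
    ∀ j ≤ r, ∀ n : ℕ, ∀ X : Finset V, X.card = n → X ⊆ U → X.card ≤ N →
      ∀ Z : Finset V, Z ⊆ U → Disjoint X Z →
      Z.card ≤ k + (r - j) * c → ¬ HasStarIn G j s (X : Set V) →
      ∀ f : V → Fin (r + s - 1), Set.InjOn f Z →
      ∃ g : V → Fin (r + s - 1), (∀ z ∈ Z, g z = f z) ∧
        ∀ x ∈ X, ∀ y ∈ X ∪ Z, G.Adj x y → g x ≠ g y := by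
  intro j
  induction j with
  | zero =>
    intro _ n X _ hXU _ Z hZU hXZ hZ hX f hf
    have h1 := card_lt_of_not_star hX
    rw [Nat.sub_zero] at hZ
    exact pcolU G r s hr X Z hXZ (by omega)
      (fun h => hno (h.mono (by exact_mod_cast union_subset hXU hZU))) f hf
  | succ j ihj =>
    intro hjr n
    induction n using Nat.strong_induction_on with
    | _ n ihn =>
    intro X hXn hXU hXN Z hZU hXZ hZ hX f hf
    have hjc : (r - (j + 1)) * c + c = (r - j) * c := by
      have e1 : r - j = (r - (j + 1)) + 1 := by omega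
      rw [e1, Nat.add_one_mul]
    have hjc2 : (r - j) * c ≤ r * c := Nat.mul_le_mul_right _ (Nat.sub_le _ _)
    have hjc3 : (r - (j + 1)) * c ≤ (r - 1) * c := Nat.mul_le_mul_right _ (by omega)
    by_cases hdeg : ∃ x ∈ X, ((X ∪ Z).filter (fun y => G.Adj x y)).card < r + s - 1
    · -- a vertex of small degree
      obtain ⟨x, hx, hxd⟩ := hdeg
      obtain ⟨g, hg1, hg2⟩ := ihn (X.erase x).card
        (by rw [← hXn]; exact card_erase_lt_of_mem hx) (X.erase x) rfl
        ((erase_subset _ _).trans hXU) ((card_le_card (erase_subset _ _)).trans hXN) Z hZU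
        (hXZ.mono_left (erase_subset _ _)) hZ
        (fun h => hX (h.mono (by exact_mod_cast erase_subset x X))) f hf
      have hex : ∃ κ : Fin (r + s - 1), κ ∉ ((X ∪ Z).filter (fun y => G.Adj x y)).image g := by
        by_contra hcon
        push Not at hcon
        have h1 : (Finset.univ : Finset (Fin (r + s - 1))) ⊆
            ((X ∪ Z).filter (fun y => G.Adj x y)).image g := fun κ _ => hcon κ
        have h2 := card_le_card h1
        have h3 : (((X ∪ Z).filter (fun y => G.Adj x y)).image g).card ≤ _ := card_image_le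
        rw [card_univ, Fintype.card_fin] at h2
        omega
      obtain ⟨κ, hκ⟩ := hex
      have hκ' : ∀ y ∈ X ∪ Z, G.Adj x y → g y ≠ κ := by
        intro y hy hxy h
        exact hκ (h ▸ mem_image_of_mem g (mem_filter.2 ⟨hy, hxy⟩))
      refine ⟨Function.update g x κ, ?_, ?_⟩
      · intro z hz
        rw [Function.update_of_ne (by rintro rfl; exact (disjoint_left.1 hXZ) hx hz)]
        exact hg1 z hz
      · intro x' hx' y hy hxy
        by_cases h1 : x' = x
        · subst h1
          rw [Function.update_self, Function.update_of_ne hxy.ne']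
          exact (hκ' y hy hxy).symm
        · by_cases h2 : y = x
          · subst h2
            rw [Function.update_self, Function.update_of_ne h1]
            exact hκ' x' (mem_union_left _ hx') hxy.symm
          · rw [Function.update_of_ne h1, Function.update_of_ne h2]
            apply hg2 x' (mem_erase.2 ⟨h1, hx'⟩) y _ hxy
            rcases mem_union.1 hy with h | h
            · exact mem_union_left _ (mem_erase.2 ⟨h2, h⟩)
            · exact mem_union_right _ h
    push Not at hdeg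
    rcases X.eq_empty_or_nonempty with hXe | ⟨x0, hx0⟩
    · exact ⟨f, fun _ _ => rfl, fun x hx => by simp [hXe] at hx⟩
    obtain ⟨C, hCX, hx0C, hCc, hCout⟩ := exists_component G X hx0
    -- the rest
    obtain ⟨g', hg'1, hg'2⟩ := ihn (X \ C).card (by
        rw [← hXn]
        exact card_lt_card (sdiff_ssubset hCX ⟨x0, hx0C⟩)) (X \ C) rfl
        (sdiff_subset.trans hXU) ((card_le_card sdiff_subset).trans hXN) Z hZU
        (hXZ.mono_left sdiff_subset) hZ
        (fun h => hX (h.mono (by exact_mod_cast sdiff_subset))) f hf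
    -- the component
    have hCdeg : ∀ x ∈ C, d ≤ dg G C x := by
      intro x hxC
      have h1 := hdeg x (hCX hxC)
      have h2 : (X ∪ Z).filter (fun y => G.Adj x y) ⊆ (C.filter (fun y => G.Adj x y)) ∪ Z := by
        intro y hy
        rw [mem_filter, mem_union] at hy
        rw [mem_union, mem_filter]
        rcases hy.1 with h | h
        · left
          refine ⟨?_, hy.2⟩
          by_contra hyC
          exact hCout x hxC y h hyC hy.2
        · exact Or.inr h
      have h3 := (card_le_card h2).trans (card_union_le _ _)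
      unfold dg nb
      omega
    have hCN : C.card ≤ N := (card_le_card hCX).trans hXN
    obtain ⟨D, hDC, hD₀c, hD₀n, hD₀d⟩ := hdom G C hCN hCc hCdeg
    have hZD : Disjoint Z D := (hXZ.mono_left (hDC.trans hCX)).symm
    obtain ⟨f1, hf1, hf1i⟩ := extend_inj Z D hZD f hf (by omega)
    obtain ⟨g1, hg11, hg12⟩ := ihj (by omega) _ (C \ D) rfl
        ((sdiff_subset.trans hCX).trans hXU) ((card_le_card sdiff_subset).trans hCN) (Z ∪ D)
        (union_subset hZU ((hDC.trans hCX).trans hXU)) (by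
        rw [disjoint_union_right]
        exact ⟨hXZ.mono_left (sdiff_subset.trans hCX), sdiff_disjoint⟩)
        ((card_union_le _ _).trans (by omega)) (by
        intro h
        apply hX
        refine h.succ hD₀c (by exact_mod_cast hDC.trans hCX)
          (by exact_mod_cast sdiff_subset.trans hCX) ?_ ?_
        · rw [Set.disjoint_left]
          intro v hv hv'
          exact (mem_sdiff.1 (mem_coe.1 hv')).2 (mem_coe.1 hv)
        · intro y hy
          have h5 := mem_sdiff.1 (mem_coe.1 hy)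
          obtain ⟨d', hd', h⟩ := hD₀d y h5.1 h5.2
          exact ⟨d', mem_coe.2 hd', h⟩) f1 hf1i
    have hg1Z : ∀ z ∈ Z, g1 z = f z := fun z hz =>
      (hg11 z (mem_union_left _ hz)).trans (hf1 z hz)
    have hg1C : ∀ x ∈ C, ∀ y ∈ C ∪ Z, G.Adj x y → g1 x ≠ g1 y := by
      intro x hx y hy hxy
      by_cases hxD : x ∈ D
      · by_cases hy' : y ∈ Z ∪ D
        · rw [hg11 x (mem_union_right _ hxD), hg11 y hy']
          intro h
          exact hxy.ne (hf1i (mem_coe.2 (mem_union_right _ hxD)) (mem_coe.2 hy') h)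
        · have hyC : y ∈ C \ D := by
            rw [mem_union] at hy hy'
            rw [mem_sdiff]
            tauto
          exact (hg12 y hyC x (mem_union_right _ (mem_union_right _ hxD)) hxy.symm).symm
      · apply hg12 x (mem_sdiff.2 ⟨hx, hxD⟩) y _ hxy
        simp only [mem_union, mem_sdiff] at hy ⊢
        tauto
    have hCZ : ∀ z ∈ Z, z ∉ C := fun z hz h => (disjoint_left.1 hXZ) (hCX h) hz
    refine ⟨fun v => if v ∈ C then g1 v else g' v, ?_, ?_⟩
    · intro z hz
      simp only
      rw [if_neg (hCZ z hz)]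
      exact hg'1 z hz
    · intro x hx y hy hxy
      simp only
      by_cases hxC : x ∈ C
      · rw [if_pos hxC]
        by_cases hyC : y ∈ C
        · rw [if_pos hyC]
          exact hg1C x hxC y (mem_union_left _ hyC) hxy
        · rw [if_neg hyC]
          rcases mem_union.1 hy with h | h
          · exact (hCout x hxC y h hyC hxy).elim
          · rw [hg'1 y h, ← hg1Z y h]
            exact hg1C x hxC y (mem_union_right _ h) hxy
      · rw [if_neg hxC]
        by_cases hyC : y ∈ C
        · exact (hCout y hyC x hx hxC hxy.symm).elim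
        · rw [if_neg hyC]
          apply hg'2 x (mem_sdiff.2 ⟨hx, hxC⟩) y _ hxy
          rcases mem_union.1 hy with h | h
          · exact mem_union_left _ (mem_sdiff.2 ⟨h, hyC⟩)
          · exact mem_union_right _ h

/-- **Lemma 9**: the engine with the initial boundary `Z` -/
theorem engine {r s t k u c : ℕ} (hp : Par r s t k u c)
    (hC : Cds V (10 ^ 10 * u) u c) (G : SimpleGraph V) (X Z : Finset V) (hXZ : Disjoint X Z)
    (hX : X.card ≤ 10 ^ 10 * u) (hZ : Z.card ≤ k)
    (hno : ¬ HasStarIn G r s ((X ∪ Z : Finset V) : Set V)) (f : V → Fin (r + s - 1))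
    (hf : Set.InjOn f Z) :
    ∃ g : V → Fin (r + s - 1), (∀ z ∈ Z, g z = f z) ∧
      ∀ x ∈ X, ∀ y ∈ X ∪ Z, G.Adj x y → g x ≠ g y := by
  have h1 := hp.hN
  have h2 := hp.hu
  have h3 := hp.h1
  have h4 : r * c + r ≤ 20 * (r * (c + 3)) := by nlinarith
  have h5 : (r - 1) * c ≤ r * c := Nat.mul_le_mul_right _ (Nat.sub_le _ _)
  have h6 := hp.hr
  have h7 := hp.hs
  have h8 := hp.ht
  have h9 : 1 ≤ k := by
    have h10 : 1 ≤ r * (c + 3) := Nat.mul_pos h6 (by omega)
    omega
  refine main_recU G r s c k (10 ^ 10 * u) u h6 h7 (by omega) (by omega) hC (X ∪ Z) hno r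
    le_rfl _ X rfl subset_union_left hX Z subset_union_right hXZ (by omega)
    (fun h => hno (h.mono (by exact_mod_cast subset_union_left))) f hf

end Pool.Agent.Lib.MP_5babb6_co.W
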