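import Mathlib
import Pool.Agent.Lib.MP_5babb6_co.W.Base

set_option autoImplicit false

/-!
Leaves.
-/

namespace Pool.Agent.Lib.MP_5babb6_co.W

open Finset Classical

variable {V : Type}

lemma bdry_self (G : SimpleGraph V) (A : Finset V) : bdry G A A = ∅ := by
  simp [bdry]

lemma exists_leaf (G : SimpleGraph V) {A : Finset V} (hA : A.Nonempty) (k0 : ℕ) :
    ∃ X, Leaf G A X k0 := by
  have hne : (A.powerset.filter
      (fun Y => Y.Nonempty ∧ (bdry G A Y).card ≤ k0)).Nonempty := by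
    refine ⟨A, ?_⟩
    simp [hA, bdry_self]
  obtain ⟨X, hX, hmin⟩ := Finset.exists_min_image _
    (fun Y : Finset V => (Y ∪ bdry G A Y).card) hne
  rw [mem_filter, mem_powerset] at hX
  refine ⟨X, hX.1, hX.2.1, hX.2.2, ?_⟩
  intro Y hY hYne hYs
  exact hmin Y (by rw [mem_filter, mem_powerset]; exact ⟨hY, hYne, hYs⟩)

private lemma leaf_contra {G : SimpleGraph V} {A X : Finset V} {k0 : ℕ} (hL : Leaf G A X k0)
    (Z D : Finset V) (hZ : 2 * Z.card ≤ k0) (hD : D ⊆ (X ∪ bdry G A X) \ Z)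
    (hcl : ∀ x ∈ D, ∀ y ∈ (X ∪ bdry G A X) \ Z, y ∉ D → ¬ G.Adj x y)
    (hS : 2 * (bdry G A X ∩ D).card ≤ k0) (p q : V) (hp : p ∈ D) (hpX : p ∈ X)
    (hq : q ∈ (X ∪ bdry G A X) \ Z) (hqD : q ∉ D) : False := by
  have hSA : bdry G A X ⊆ A \ X := filter_subset _ _
  have hYA : D \ bdry G A X ⊆ X := by
    intro x hx
    rw [mem_sdiff] at hx
    have := hD hx.1
    rw [mem_sdiff, mem_union] at this
    rcases this.1 with h | h
    · exact h
    · exact absurd h hx.2
  have hbd : bdry G A (D \ bdry G A X) ⊆ ((X ∪ bdry G A X) ∩ Z) ∪ (bdry G A X ∩ D) := by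
    intro y hy
    unfold bdry at hy
    rw [mem_filter, mem_sdiff] at hy
    obtain ⟨⟨hyA, hyY⟩, x, hx, hxy⟩ := hy
    have hxX : x ∈ X := hYA hx
    have hxD : x ∈ D := (mem_sdiff.1 hx).1
    have hyB : y ∈ X ∪ bdry G A X := by
      by_cases hyX : y ∈ X
      · exact mem_union_left _ hyX
      · refine mem_union_right _ ?_
        unfold bdry
        rw [mem_filter, mem_sdiff]
        exact ⟨⟨hyA, hyX⟩, x, hxX, hxy⟩
    by_cases hyZ : y ∈ Z
    · exact mem_union_left _ (mem_inter.2 ⟨hyB, hyZ⟩)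
    · have hyD : y ∈ D := by
        by_contra hyD
        exact hcl x hxD y (mem_sdiff.2 ⟨hyB, hyZ⟩) hyD hxy
      refine mem_union_right _ (mem_inter.2 ⟨?_, hyD⟩)
      by_contra hyS
      exact hyY (mem_sdiff.2 ⟨hyD, hyS⟩)
  have hcard : (bdry G A (D \ bdry G A X)).card ≤ k0 := by
    have h1 := card_le_card hbd
    have h2 := card_union_le ((X ∪ bdry G A X) ∩ Z) (bdry G A X ∩ D)
    have h3 : ((X ∪ bdry G A X) ∩ Z).card ≤ Z.card := card_le_card inter_subset_right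
    omega
  have hne : (D \ bdry G A X).Nonempty := by
    refine ⟨p, mem_sdiff.2 ⟨hp, ?_⟩⟩
    intro hpS
    exact (mem_sdiff.1 (hSA hpS)).2 hpX
  have hmin := hL.min (D \ bdry G A X) (hYA.trans hL.sub) hne hcard
  have hlt : ((D \ bdry G A X) ∪ bdry G A (D \ bdry G A X)).card < (X ∪ bdry G A X).card := by
    apply card_lt_card
    rw [ssubset_iff_of_subset]
    · refine ⟨q, (mem_sdiff.1 hq).1, ?_⟩
      intro h
      rcases mem_union.1 h with h | h
      · exact hqD (mem_sdiff.1 h).1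
      · rcases mem_union.1 (hbd h) with h | h
        · exact (mem_sdiff.1 hq).2 (mem_inter.1 h).2
        · exact hqD (mem_inter.1 h).2
    · intro y hy
      rcases mem_union.1 hy with h | h
      · exact (mem_sdiff.1 (hD (mem_sdiff.1 h).1)).1
      · rcases mem_union.1 (hbd h) with h | h
        · exact (mem_inter.1 h).1
        · exact mem_union_right _ (mem_inter.1 h).1
  omega

/-- Fact F1 -/
lemma leaf_link {G : SimpleGraph V} {A X : Finset V} {k0 : ℕ} (hL : Leaf G A X k0)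
    (Z : Finset V) (hZ : 2 * Z.card ≤ k0) (P1 P2 : Finset V) (h1 : P1.Nonempty)
    (h2 : P2.Nonempty) (h1X : P1 ⊆ X \ Z) (h2X : P2 ⊆ X \ Z) :
    ∃ C ⊆ (X ∪ bdry G A X) \ Z, Conn G C ∧ (∃ x ∈ C, x ∈ P1) ∧ ∃ x ∈ C, x ∈ P2 := by
  have hsub : X \ Z ⊆ (X ∪ bdry G A X) \ Z := sdiff_subset_sdiff subset_union_left le_rfl
  obtain ⟨D, hD, hPD, hreach, hcl⟩ := exists_reach G (h1X.trans hsub)
  by_cases hmeet : ∃ x ∈ D, x ∈ P2
  · obtain ⟨x, hxD, hx2⟩ := hmeet
    obtain ⟨C, hC, hconn, hxC, p, hp, hpC⟩ := hreach x hxD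
    exact ⟨C, hC.trans hD, hconn, ⟨p, hpC, hp⟩, x, hxC, hx2⟩
  · exfalso
    push Not at hmeet
    obtain ⟨p, hp⟩ := h1
    obtain ⟨q, hq⟩ := h2
    have hqD : q ∉ D := fun h => hmeet q h hq
    have hcards : (bdry G A X ∩ D).card + (bdry G A X ∩ (((X ∪ bdry G A X) \ Z) \ D)).card
        ≤ k0 := by
      rw [← card_union_of_disjoint]
      · refine le_trans (card_le_card ?_) hL.small
        exact union_subset inter_subset_left inter_subset_left
      · rw [disjoint_left]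
        intro a ha hb
        exact (mem_sdiff.1 (mem_inter.1 hb).2).2 (mem_inter.1 ha).2
    by_cases hcase : 2 * (bdry G A X ∩ D).card ≤ k0
    · exact leaf_contra hL Z D hZ hD hcl hcase p q (hPD hp) (mem_sdiff.1 (h1X hp)).1
        (hsub (h2X hq)) hqD
    · refine leaf_contra hL Z (((X ∪ bdry G A X) \ Z) \ D) hZ sdiff_subset ?_ (by omega) q p
        (mem_sdiff.2 ⟨hsub (h2X hq), hqD⟩) (mem_sdiff.1 (h2X hq)).1 (hsub (h1X hp)) ?_
      · intro x hx y hy hyD hxy
        have hyD' : y ∈ D := by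
          by_contra h
          exact hyD (mem_sdiff.2 ⟨hy, h⟩)
        exact hcl y hyD' x (mem_sdiff.1 hx).1 (mem_sdiff.1 hx).2 hxy.symm
      · intro h
        exact (mem_sdiff.1 h).2 (hPD hp)

end Pool.Agent.Lib.MP_5babb6_co.W
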