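import Mathlib
import Pool.Agent.Lib.MP_5babb6_co.W.Base
import Pool.Agent.Lib.MP_078aef_co_q.Menger

set_option autoImplicit false

/-!
Leaves: disjoint paths from the boundary.
-/

namespace Pool.Agent.Lib.MP_5babb6_co.W

open Finset Classical

variable {V : Type}

/-- the vertices of a chain are connected -/
private lemma lb_chain_conn {G : SimpleGraph V} : ∀ {l : List V}, l ≠ [] →
    l.IsChain G.Adj → Conn G l.toFinset := by
  intro l
  induction l with
  | nil => intro h _; exact absurd rfl h
  | cons a t ih =>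
    intro _ hc
    rcases t with _ | ⟨b, t⟩
    · have h1 : ([a] : List V).toFinset = {a} := by simp
      rw [h1]
      exact conn_singleton G a
    · rw [List.isChain_cons_cons] at hc
      have h1 := ih (List.cons_ne_nil b t) hc.2
      rw [List.toFinset_cons]
      exact h1.insert (x := b) (by simp) hc.1.symm

/-- a connected set contains a chain between any two of its vertices -/
private lemma lb_seg {G : SimpleGraph V} {C : Finset V} (hC : Conn G C) {x y : V} (hx : x ∈ C)
    (hy : y ∈ C) : ∃ l : List V, Pool.Agent.RamseyHam.Seg G x l y ∧ ∀ v ∈ l, v ∈ C := by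
  have hx' : x ∈ (C : Set V) := by simpa using hx
  have hy' : y ∈ (C : Set V) := by simpa using hy
  obtain ⟨w⟩ := hC.preconnected ⟨x, hx'⟩ ⟨y, hy'⟩
  have key : ∀ {a b : (C : Set V)} (w : (G.induce (C : Set V)).Walk a b),
      ∃ l : List V, Pool.Agent.RamseyHam.Seg G (a : V) l (b : V) ∧ ∀ v ∈ l, v ∈ C := by
    intro a b w
    induction w with
    | @nil a =>
      refine ⟨[(a : V)], Pool.Agent.RamseyHam.Seg.single _, ?_⟩
      intro v hv
      rw [List.mem_singleton] at hv
      subst hv
      exact a.2
    | @cons a b c h p ih =>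
      obtain ⟨l, h1, h2⟩ := ih
      refine ⟨[(a : V)] ++ l, (Pool.Agent.RamseyHam.Seg.single _).append h1 h, ?_⟩
      intro v hv
      rw [List.mem_append, List.mem_singleton] at hv
      rcases hv with rfl | hv
      · exact a.2
      · exact h2 v hv
  exact key w

/-- the graph `G` inside `B` -/
private def lbG (G : SimpleGraph V) (B : Finset V) : SimpleGraph V where
  Adj x y := G.Adj x y ∧ x ∈ B ∧ y ∈ B
  symm := by
    constructor
    rintro x y ⟨h, h1, h2⟩
    exact ⟨h.symm, h2, h1⟩
  loopless := by
    constructor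
    rintro x ⟨h, -⟩
    exact h.ne rfl

private lemma lbG_le (G : SimpleGraph V) (B : Finset V) : lbG G B ≤ G := fun _ _ h => h.1

/-- the vertices of a chain in `lbG G B` with first vertex in `B` lie in `B` -/
private lemma lb_mem {G : SimpleGraph V} {B : Finset V} : ∀ {l : List V} {a : V}, a ∈ B →
    (a :: l).IsChain (lbG G B).Adj → ∀ v ∈ a :: l, v ∈ B := by
  intro l
  induction l with
  | nil =>
    intro a ha _ v hv
    rw [List.mem_singleton] at hv
    subst hv
    exact ha
  | cons b t ih =>
    intro a ha hc v hv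
    rw [List.isChain_cons_cons] at hc
    rcases List.mem_cons.1 hv with rfl | hv
    · exact ha
    · exact ih hc.1.2.2 hc.2 v hv

/-- Fact F2: disjoint paths from the boundary to `Q` -/
lemma leaf_paths [Fintype V] {G : SimpleGraph V} {A X : Finset V} {k0 : ℕ}
    (hL : Leaf G A X k0) (Q : Finset V) (hQ : Q ⊆ X) (hQc : (bdry G A X).card ≤ Q.card) :
    ∃ (p : V → Finset V) (e : V → V),
      (∀ x ∈ bdry G A X, x ∈ p x ∧ p x ⊆ insert x X ∧ Conn G (p x) ∧ p x ∩ Q = {e x}) ∧
      ∀ x ∈ bdry G A X, ∀ y ∈ bdry G A X, x ≠ y → Disjoint (p x) (p y) := by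
  set S := bdry G A X with hS
  have hSX : Disjoint S X := by
    rw [Finset.disjoint_left]
    intro v hv hvX
    rw [hS, bdry, mem_filter, mem_sdiff] at hv
    exact hv.1.2 hvX
  obtain ⟨f, a, b, hf⟩ := Pool.Agent.RamQ.menger (lbG G (X ∪ S)) S Q S.card (by
    intro Z hZ
    by_contra hlt
    rw [not_le] at hlt
    have hne : (Q \ Z).Nonempty := by
      rw [Finset.sdiff_nonempty]
      intro h
      have := Finset.card_le_card h
      omega
    have hsub : Q \ Z ⊆ (X ∪ S) \ Z :=
      Finset.sdiff_subset_sdiff (hQ.trans Finset.subset_union_left) subset_rfl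
    obtain ⟨D, hDB, hPD, hDC, hDn⟩ := exists_reach G hsub
    have hDS : ∀ x ∈ D, x ∉ S := by
      intro x hxD hxS
      obtain ⟨C, hCD, hC, hxC, p, hpP, hpC⟩ := hDC x hxD
      obtain ⟨l, hl, hlC⟩ := lb_seg hC hxC hpC
      obtain ⟨v, hv, hvZ⟩ := hZ l x p hxS (mem_sdiff.1 hpP).1 ⟨by
        refine hl.chain.imp_of_mem_imp fun c d hc hd hcd => ?_
        have h1 := hDB (hCD (hlC c hc))
        have h2 := hDB (hCD (hlC d hd))
        exact ⟨hcd, (mem_sdiff.1 h1).1, (mem_sdiff.1 h2).1⟩, hl.head, hl.last⟩
      exact (mem_sdiff.1 (hDB (hCD (hlC v hv)))).2 hvZ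
    have hDX : D ⊆ X := by
      intro x hx
      rcases mem_union.1 (mem_sdiff.1 (hDB hx)).1 with h | h
      · exact h
      · exact absurd h (hDS x hx)
    have hbd : ∀ y ∈ bdry G A D, y ∈ X ∪ S ∧ y ∈ Z := by
      intro y hy
      rw [bdry, mem_filter, mem_sdiff] at hy
      obtain ⟨⟨hyA, hyD⟩, x, hx, hxy⟩ := hy
      have h1 : y ∈ X ∪ S := by
        by_cases hyX : y ∈ X
        · exact mem_union_left _ hyX
        · refine mem_union_right _ ?_
          rw [hS, bdry, mem_filter, mem_sdiff]
          exact ⟨⟨hyA, hyX⟩, x, hDX hx, hxy⟩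
      refine ⟨h1, ?_⟩
      by_contra hyZ
      exact hDn x hx y (mem_sdiff.2 ⟨h1, hyZ⟩) hyD hxy
    have hbZ : (bdry G A D).card ≤ Z.card :=
      Finset.card_le_card fun y hy => (hbd y hy).2
    have hsm : S.card ≤ k0 := hL.small
    have hmin := hL.min D (hDX.trans hL.sub) (hne.mono hPD) (by omega)
    have hss : D ∪ bdry G A D ⊆ X ∪ S := by
      apply Finset.union_subset (hDX.trans Finset.subset_union_left)
      intro y hy
      exact (hbd y hy).1
    have heq := Finset.eq_of_subset_of_card_le hss hmin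
    have hSZ : S ⊆ Z := by
      intro s hs
      have h1 : s ∈ D ∪ bdry G A D := by
        rw [heq]
        exact mem_union_right _ hs
      rcases mem_union.1 h1 with h | h
      · exact absurd hs (hDS s h)
      · exact (hbd s h).2
    have := Finset.card_le_card hSZ
    omega)
  have hainj : Function.Injective a := by
    intro i j hij
    by_contra hne
    have h1 : a i ∈ f i := List.mem_of_mem_head? (hf.sg i).head
    have h2 : a j ∈ f j := List.mem_of_mem_head? (hf.sg j).head
    exact hf.disj i j hne (a i) h1 (hij ▸ h2)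
  have hsurj : ∀ x ∈ S, ∃ i, a i = x := by
    intro x hx
    have h1 : Finset.univ.image a = S := by
      apply Finset.eq_of_subset_of_card_le
      · intro z hz
        obtain ⟨j, -, rfl⟩ := Finset.mem_image.1 hz
        exact hf.memA j
      · rw [Finset.card_image_of_injective _ hainj, Finset.card_univ, Fintype.card_fin]
    rw [← h1] at hx
    obtain ⟨j, -, hj⟩ := Finset.mem_image.1 hx
    exact ⟨j, hj⟩
  let I : V → Option (Fin S.card) := fun x => if h : ∃ i, a i = x then some h.choose else none
  have hI : ∀ x ∈ S, ∃ i, I x = some i ∧ a i = x := by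
    intro x hx
    have h := hsurj x hx
    exact ⟨h.choose, by simp only [I, dif_pos h], h.choose_spec⟩
  refine ⟨fun x => ((I x).elim [] f).toFinset, fun x => (I x).elim x b, ?_, ?_⟩
  · intro x hx
    obtain ⟨i, hi, hix⟩ := hI x hx
    simp only [hi, Option.elim_some]
    obtain ⟨hc, hh, hl⟩ := hf.sg i
    have hxf : x ∈ f i := hix ▸ List.mem_of_mem_head? hh
    have hbf : b i ∈ f i := List.mem_of_mem_getLast? hl
    have hB : ∀ v ∈ f i, v ∈ X ∪ S := by
      obtain ⟨t, ht⟩ := List.head?_eq_some_iff.1 hh
      rw [ht] at hc ⊢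
      exact lb_mem (mem_union_right _ (hf.memA i)) hc
    refine ⟨List.mem_toFinset.2 hxf, ?_, ?_, ?_⟩
    · intro v hv
      rw [List.mem_toFinset] at hv
      rw [mem_insert]
      rcases mem_union.1 (hB v hv) with h | h
      · exact Or.inr h
      · exact Or.inl (by rw [hf.onlyA i v hv h, hix])
    · exact (lb_chain_conn (List.ne_nil_of_mem hxf) hc).mono_graph (lbG_le G _)
    · ext v
      rw [mem_inter, List.mem_toFinset, mem_singleton]
      constructor
      · rintro ⟨h1, h2⟩
        exact hf.onlyB i v h1 h2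
      · rintro rfl
        exact ⟨hbf, hf.memB i⟩
  · intro x hx y hy hxy
    obtain ⟨i, hi, hix⟩ := hI x hx
    obtain ⟨j, hj, hjy⟩ := hI y hy
    simp only [hi, hj, Option.elim_some]
    have hij : i ≠ j := by
      rintro rfl
      exact hxy (hix.symm.trans hjy)
    rw [Finset.disjoint_left]
    intro v hv hv'
    rw [List.mem_toFinset] at hv hv'
    exact hf.disj i j hij v hv hv'

end Pool.Agent.Lib.MP_5babb6_co.W
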