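import Mathlib
import Pool.Agent.Lib.MP_5babb6_co.W.Rob

set_option autoImplicit false

/-!
Pairwise adjacent connected sets with prescribed roots.
-/

namespace Pool.Agent.Lib.MP_5babb6_co.W

open Finset Classical

variable {V : Type}

lemma rooted_aux {G : SimpleGraph V} {u c k k0 N : ℕ} (hu : u + k ≤ 400 * u)
    (hC : Cds V N u c) (hk0 : k0 * (c + 3) ≤ k) {S Q : Finset V}
    (hS : S.card ≤ k0) (hQ : Robust G Q k (400 * u)) (hQN : Q.card ≤ N) (e : V → V)
    (heQ : ∀ x ∈ S, e x ∈ Q) (hinj : ∀ x ∈ S, ∀ y ∈ S, e x = e y → x = y) (T : Finset V) :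
    T ⊆ S → ∃ D : V → Finset V, (∀ x ∈ T, D x ⊆ Q ∧ e x ∈ D x ∧ Conn G (D x) ∧
      (D x).card ≤ c + 2 ∧ ∀ y ∈ S, e y ∈ D x → y = x) ∧
      (∀ x ∈ T, ∀ y ∈ T, x ≠ y → Disjoint (D x) (D y)) ∧
      (∀ x ∈ T, ∀ y ∈ T, x ≠ y → ∃ a ∈ D x, ∃ b ∈ D y, G.Adj a b) ∧
      ∀ x ∈ T, ∀ z ∈ Q, z ∉ S.image e → z ∉ T.biUnion D → ∃ d ∈ D x, G.Adj d z := by
  induction T using Finset.induction_on with
  | empty =>
    intro _
    exact ⟨fun _ => ∅, by simp, by simp, by simp, by simp⟩
  | insert x T hxT ih =>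
    intro hTS
    obtain ⟨D, h1, h2, h3, h4⟩ := ih ((subset_insert x T).trans hTS)
    have hxS : x ∈ S := hTS (mem_insert_self x T)
    have hT' : ∀ y ∈ T, y ∈ S := fun y hy => hTS (mem_insert_of_mem hy)
    -- the sizes
    have hcard : (S.image e ∪ T.biUnion D).card ≤ k := by
      have c1 : (S.image e).card ≤ k0 := card_image_le.trans hS
      have c2 : (T.biUnion D).card ≤ T.card * (c + 2) :=
        card_biUnion_le_card_mul _ _ _ fun y hy => (h1 y hy).2.2.2.1
      have c3 : T.card + 1 ≤ k0 := by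
        rw [← card_insert_of_notMem hxT]
        exact (card_le_card hTS).trans hS
      have c4 := card_union_le (S.image e) (T.biUnion D)
      have c5 : (T.card + 1) * (c + 2) ≤ k0 * (c + 2) := Nat.mul_le_mul_right _ c3
      have c6 : k0 * (c + 3) = k0 + k0 * (c + 2) := by ring
      have c7 : (T.card + 1) * (c + 2) = T.card * (c + 2) + (c + 2) := by ring
      omega
    set R : Finset V := (S.image e ∪ T.biUnion D).erase (e x) with hR
    have hRc : R.card ≤ k := (card_le_card (erase_subset _ _)).trans hcard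
    -- a pure vertex
    obtain ⟨v, hv⟩ := (hQ.1 _ hcard).nonempty
    rw [mem_sdiff, mem_union, not_or] at hv
    obtain ⟨hvQ, hvE, hvD⟩ := hv
    -- a connected dominating set of the rest
    obtain ⟨Y, hYs, hYc, hYn, hYd⟩ := hC G (Q \ R)
      ((card_le_card sdiff_subset).trans hQN) (hQ.1 R hRc) (by
        intro w hw
        have d1 := hQ.2 w (mem_sdiff.1 hw).1
        have d2 := dg_le_sdiff (G := G) (X := Q) (R := R) (v := w)
        omega)
    have hexD : ∀ y ∈ T, e x ∉ D y := by
      intro y hy he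
      have := (h1 y hy).2.2.2.2 x hxS he
      exact hxT (this ▸ hy)
    have hexR : e x ∈ Q \ R := mem_sdiff.2 ⟨heQ x hxS, fun h => (mem_erase.1 h).1 rfl⟩
    have hvR : v ∈ Q \ R := by
      refine mem_sdiff.2 ⟨hvQ, fun h => ?_⟩
      rcases mem_union.1 (mem_erase.1 h).2 with h5 | h5
      · exact hvE h5
      · exact hvD h5
    have hvx : v ≠ e x := fun h => hvE (h ▸ mem_image_of_mem e hxS)
    -- elements of `Y` other than `e x` are pure
    have hpure : ∀ z ∈ Q \ R, z ≠ e x → z ∉ S.image e ∧ z ∉ T.biUnion D := by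
      intro z hz hne
      have h5 := (mem_sdiff.1 hz).2
      constructor
      · intro h6
        exact h5 (mem_erase.2 ⟨hne, mem_union_left _ h6⟩)
      · intro h6
        exact h5 (mem_erase.2 ⟨hne, mem_union_right _ h6⟩)
    set X : Finset V := Y ∪ {e x, v} with hX
    have hXR : X ⊆ Q \ R := by
      intro z hz
      rw [hX, mem_union, mem_insert, mem_singleton] at hz
      rcases hz with h5 | h5 | h5
      · exact hYs h5
      · rw [h5]
        exact hexR
      · rw [h5]
        exact hvR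
    have hXD : ∀ y ∈ T, Disjoint X (D y) := by
      intro y hy
      rw [disjoint_left]
      intro z hz hzD
      by_cases hne : z = e x
      · rw [hne] at hzD
        exact hexD y hy hzD
      · exact (hpure z (hXR hz) hne).2 (mem_biUnion.2 ⟨y, hy, hzD⟩)
    have hvX : v ∈ X := by
      rw [hX]
      simp
    have hXconn : Conn G X := by
      refine hYc.union_dom ?_
      intro y hy
      by_cases hyY : y ∈ Y
      · exact Or.inl hyY
      · refine Or.inr (hYd y ?_ hyY)
        rw [mem_insert, mem_singleton] at hy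
        rcases hy with h5 | h5
        · rw [h5]
          exact hexR
        · rw [h5]
          exact hvR
    refine ⟨fun y => if y = x then X else D y, ?_, ?_, ?_, ?_⟩
    · intro y hy
      dsimp only
      split_ifs with hyx
      · subst hyx
        refine ⟨hXR.trans sdiff_subset, ?_, hXconn, ?_, ?_⟩
        · rw [hX]
          simp
        · rw [hX]
          refine (card_union_le _ _).trans ?_
          have : ({e y, v} : Finset V).card ≤ 2 := card_le_two
          omega
        · intro w hw hwX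
          by_contra hne
          have hne' : e w ≠ e y := fun h => hne (hinj w hw y hxS h)
          exact (hpure _ (hXR hwX) hne').1 (mem_image_of_mem e hw)
      · exact h1 y ((mem_insert.1 hy).resolve_left hyx)
    · intro y hy w hw hne
      dsimp only
      split_ifs with hyx hwx hwx
      · exact absurd (hyx.trans hwx.symm) hne
      · exact hXD w ((mem_insert.1 hw).resolve_left hwx)
      · exact (hXD y ((mem_insert.1 hy).resolve_left hyx)).symm
      · exact h2 y ((mem_insert.1 hy).resolve_left hyx) w ((mem_insert.1 hw).resolve_left hwx) hne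
    · intro y hy w hw hne
      dsimp only
      split_ifs with hyx hwx hwx
      · exact absurd (hyx.trans hwx.symm) hne
      · obtain ⟨d, hd, hdv⟩ := h4 w ((mem_insert.1 hw).resolve_left hwx) v hvQ hvE hvD
        exact ⟨v, hvX, d, hd, hdv.symm⟩
      · obtain ⟨d, hd, hdv⟩ := h4 y ((mem_insert.1 hy).resolve_left hyx) v hvQ hvE hvD
        exact ⟨d, hd, v, hvX, hdv⟩
      · exact h3 y ((mem_insert.1 hy).resolve_left hyx) w ((mem_insert.1 hw).resolve_left hwx) hne
    · intro y hy z hz hzE hzD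
      have hzX : z ∉ X := by
        intro h5
        refine hzD (mem_biUnion.2 ⟨x, mem_insert_self x T, ?_⟩)
        rw [if_pos rfl]
        exact h5
      have hzD' : z ∉ T.biUnion D := by
        intro h5
        obtain ⟨w, hw, hzw⟩ := mem_biUnion.1 h5
        have hwx : w ≠ x := by
          intro h6
          rw [h6] at hw
          exact hxT hw
        refine hzD (mem_biUnion.2 ⟨w, mem_insert_of_mem hw, ?_⟩)
        rw [if_neg hwx]
        exact hzw
      dsimp only
      split_ifs with hyx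
      · have hzR : z ∈ Q \ R := by
          refine mem_sdiff.2 ⟨hz, fun h => ?_⟩
          rcases mem_union.1 (mem_erase.1 h).2 with h5 | h5
          · exact hzE h5
          · exact hzD' h5
        obtain ⟨d, hd, hdz⟩ := hYd z hzR (fun h => hzX (by rw [hX]; exact mem_union_left _ h))
        exact ⟨d, by rw [hX]; exact mem_union_left _ hd, hdz⟩
      · exact h4 y ((mem_insert.1 hy).resolve_left hyx) z hz hzE hzD'

lemma rooted {G : SimpleGraph V} {r s t k u c k0 : ℕ} (hp : Par r s t k u c)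
    (hC : Cds V (10 ^ 10 * u) u c) (hk0 : k0 * (c + 3) ≤ k) {S Q : Finset V}
    (hS : S.card ≤ k0) (hQ : Robust G Q k (400 * u)) (hQN : Q.card ≤ 10 ^ 10 * u)
    (p : V → Finset V) (e : V → V) (hpc : ∀ x ∈ S, Conn G (p x))
    (hpe : ∀ x ∈ S, p x ∩ Q = {e x})
    (hpd : ∀ x ∈ S, ∀ y ∈ S, x ≠ y → Disjoint (p x) (p y)) :
    ∃ D : V → Finset V, (∀ x ∈ S, p x ⊆ D x ∧ D x ⊆ p x ∪ Q ∧ Conn G (D x)) ∧
      (∀ x ∈ S, ∀ y ∈ S, x ≠ y → Disjoint (D x) (D y)) ∧
      ∀ x ∈ S, ∀ y ∈ S, x ≠ y → ∃ a ∈ D x, ∃ b ∈ D y, G.Adj a b := by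
  have hep : ∀ x ∈ S, e x ∈ p x ∧ e x ∈ Q := by
    intro x hx
    have h1 : e x ∈ p x ∩ Q := by
      rw [hpe x hx]
      exact mem_singleton_self _
    exact mem_inter.1 h1
  have hinj : ∀ x ∈ S, ∀ y ∈ S, e x = e y → x = y := by
    intro x hx y hy h
    by_contra hne
    have h1 := (hep x hx).1
    rw [h] at h1
    exact disjoint_left.1 (hpd x hx y hy hne) h1 (hep y hy).1
  have hu : u + k ≤ 400 * u := by
    have := hp.hu
    omega
  obtain ⟨D, h1, h2, h3, -⟩ := rooted_aux hu hC hk0 hS hQ hQN e (fun x hx => (hep x hx).2) hinj S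
    (Subset.refl S)
  have hpD : ∀ x ∈ S, ∀ y ∈ S, x ≠ y → Disjoint (p x) (D y) := by
    intro x hx y hy hne
    rw [disjoint_left]
    intro z hz hzD
    have h4 : z ∈ p x ∩ Q := mem_inter.2 ⟨hz, (h1 y hy).1 hzD⟩
    rw [hpe x hx, mem_singleton] at h4
    rw [h4] at hzD
    exact hne ((h1 y hy).2.2.2.2 x hx hzD)
  refine ⟨fun x => p x ∪ D x, ?_, ?_, ?_⟩
  · intro x hx
    refine ⟨subset_union_left, union_subset_union_right (h1 x hx).1, ?_⟩
    exact (hpc x hx).union (h1 x hx).2.2.1 ⟨e x, (hep x hx).1, e x, (h1 x hx).2.1, Or.inl rfl⟩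
  · intro x hx y hy hne
    rw [disjoint_union_left, disjoint_union_right, disjoint_union_right]
    exact ⟨⟨hpd x hx y hy hne, hpD x hx y hy hne⟩, (hpD y hy x hx hne.symm).symm,
      h2 x hx y hy hne⟩
  · intro x hx y hy hne
    obtain ⟨a, ha, b, hb, hab⟩ := h3 x hx y hy hne
    exact ⟨a, mem_union_right _ ha, b, mem_union_right _ hb, hab⟩

end Pool.Agent.Lib.MP_5babb6_co.W
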