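import Mathlib
import Pool.Agent.Lib.MP_5babb6_co.W.Big
import Pool.Agent.Lib.MP_5babb6_co.W.Rooted
import Pool.Agent.Lib.MP_5babb6_co.W.Engine
import Pool.Agent.Lib.MP_5babb6_co.W.LeafA
import Pool.Agent.Lib.MP_5babb6_co.W.LeafB

set_option autoImplicit false

/-!
The induction.
-/

namespace Pool.Agent.Lib.MP_5babb6_co.W

open Finset Classical

variable {V : Type}

private lemma mem_bdry {G : SimpleGraph V} {A X : Finset V} {y : V} :
    y ∈ bdry G A X ↔ y ∈ A ∧ y ∉ X ∧ ∃ x ∈ X, G.Adj x y := by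
  simp only [bdry, mem_filter, mem_sdiff, and_assoc]

/-- neighbours of a vertex of `X` lie in `X` or in its boundary -/
private lemma dg_leaf {G : SimpleGraph V} {A X : Finset V} {v : V} (hv : v ∈ X) :
    dg G A v ≤ dg G (X ∪ bdry G A X) v := by
  unfold dg
  apply card_le_card
  intro y hy
  rw [mem_nb] at hy ⊢
  refine ⟨?_, hy.2⟩
  rw [mem_union, mem_bdry]
  by_cases hyX : y ∈ X
  · exact Or.inl hyX
  · exact Or.inr ⟨hy.1, hyX, v, hv, hy.2⟩

/-- extend a colouring to a vertex of small degree -/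
private lemma extend_vertex {G : SimpleGraph V} {q : ℕ} {A : Finset V} {v : V}
    (hd : dg G A v < q) {f : V → Fin q}
    (hf : ∀ x ∈ A.erase v, ∀ y ∈ A.erase v, G.Adj x y → f x ≠ f y) :
    ∃ f : V → Fin q, ∀ x ∈ A, ∀ y ∈ A, G.Adj x y → f x ≠ f y := by
  have hex : ∃ κ : Fin q, κ ∉ (nb G A v).image f := by
    by_contra hcon
    push Not at hcon
    have h1 : (Finset.univ : Finset (Fin q)) ⊆ (nb G A v).image f := fun κ _ => hcon κ
    have h2 := card_le_card h1
    have h3 : ((nb G A v).image f).card ≤ (nb G A v).card := card_image_le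
    rw [card_univ, Fintype.card_fin] at h2
    unfold dg at hd
    omega
  obtain ⟨κ, hκ⟩ := hex
  have hκ' : ∀ y ∈ A, G.Adj v y → f y ≠ κ := by
    intro y hy hvy h
    exact hκ (h ▸ mem_image_of_mem f (mem_nb.2 ⟨hy, hvy⟩))
  refine ⟨Function.update f v κ, ?_⟩
  intro x hx y hy hxy
  by_cases h1 : x = v
  · subst h1
    rw [Function.update_self, Function.update_of_ne hxy.ne']
    exact (hκ' y hy hxy).symm
  · by_cases h2 : y = v
    · subst h2
      rw [Function.update_self, Function.update_of_ne h1]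
      exact hκ' x hx hxy.symm
    · rw [Function.update_of_ne h1, Function.update_of_ne h2]
      exact hf x (mem_erase.2 ⟨h1, hx⟩) y (mem_erase.2 ⟨h2, hy⟩) hxy

theorem main [Fintype V] {r s t k u c : ℕ} (hp : Par r s t k u c)
    (hC : Cds V (10 ^ 10 * u) u c) : ∀ (n : ℕ) (G : SimpleGraph V) (A : Finset V), A.card = n →
      ¬ HasK G r s A → ∃ f : V → Fin (r + s - 1), ∀ x ∈ A, ∀ y ∈ A, G.Adj x y → f x ≠ f y := by
  intro n
  induction n using Nat.strong_induction_on with
  | _ n ih =>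
  intro G A hAn hno
  obtain ⟨hr, hs, ht, hc, hu, h1, h2, hN⟩ := id hp
  by_cases hdeg : ∃ v ∈ A, dg G A v < r + s - 1
  · obtain ⟨v, hv, hvd⟩ := hdeg
    obtain ⟨f, hf⟩ := ih (A.erase v).card (by rw [← hAn]; exact card_erase_lt_of_mem hv) G
      (A.erase v) rfl (fun h => hno (h.mono (erase_subset _ _)))
    exact extend_vertex hvd hf
  push Not at hdeg
  rcases A.eq_empty_or_nonempty with hA | hA
  · exact ⟨fun _ => ⟨0, by omega⟩, fun x hx => by simp [hA] at hx⟩
  -- the leaf
  obtain ⟨k0, hk0⟩ : ∃ k0, k0 = k / (c + 3) := ⟨_, rfl⟩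
  have hk0c : k0 * (c + 3) ≤ k := by
    rw [hk0]
    exact Nat.div_mul_le_self _ _
  have hk0r : 20 * r ≤ k0 := by
    rw [hk0, Nat.le_div_iff_mul_le (by omega)]
    rw [mul_assoc]
    exact hN
  have hk0k : k0 ≤ k := by
    refine le_trans ?_ hk0c
    exact Nat.le_mul_of_pos_right _ (by omega)
  obtain ⟨X, hL⟩ := exists_leaf G hA k0
  obtain ⟨S, hS⟩ : ∃ S, S = bdry G A X := ⟨_, rfl⟩
  have hSc : S.card ≤ k0 := by
    rw [hS]
    exact hL.small
  have hSA : S ⊆ A := by
    intro y hy
    rw [hS, mem_bdry] at hy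
    exact hy.1
  have hXS : Disjoint X S := by
    rw [disjoint_left]
    intro y hy hyS
    rw [hS, mem_bdry] at hyS
    exact hyS.2.1 hy
  have hXA := hL.sub
  have hBA : X ∪ S ⊆ A := union_subset hXA hSA
  have hdB : ∀ v ∈ X, t ≤ dg G (X ∪ S) v + 1 := by
    intro v hv
    have e1 := hdeg v (hXA hv)
    have e2 := dg_leaf (G := G) (A := A) hv
    rw [← hS] at e2
    omega
  by_cases hn : 10 ^ 10 * u ≤ (X ∪ S).card
  · exfalso
    apply hno
    refine HasK.mono (big_leaf hp hC G subset_union_left ?_ hn hdB ?_) hBA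
    · have e1 : (X ∪ S) \ X ⊆ S := by
        intro y hy
        rw [mem_sdiff, mem_union] at hy
        exact hy.1.resolve_left hy.2
      exact (card_le_card e1).trans (hSc.trans hk0k)
    · intro Z hZ P1 P2 hP1 hP2 h1X h2X
      rw [hS]
      exact leaf_link hL Z (by omega) P1 P2 hP1 hP2 h1X h2X
  push Not at hn
  -- the small leaf
  have hXN : X.card ≤ 10 ^ 10 * u := (card_le_card subset_union_left).trans hn.le
  have hdX : ∀ v ∈ X, 400 * u + k * 25000000 ≤ dg G X v := by
    intro v hv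
    have e1 := hdB v hv
    have e2 : dg G (X ∪ S) v ≤ dg G X v + dg G S v := dg_union_le
    have e3 : dg G S v ≤ S.card := dg_le_card
    have e4 : k * 25000000 = 25 * u := by
      rw [hu]
      ring
    omega
  obtain ⟨Q, hQX, hQ⟩ := exists_robust G k (400 * u) 25000000 X hL.ne
    (by
      have e1 : 25000000 * (400 * u) = 10 ^ 10 * u := by ring
      rw [e1]
      exact hXN) hdX
  have hQc : 400 * u < Q.card := hQ.card_lt
  obtain ⟨p, e, hpe, hpd⟩ := leaf_paths hL Q hQX (by rw [← hS]; omega)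
  rw [← hS] at hpe hpd
  obtain ⟨D, hD1, hD2, hD3⟩ := rooted hp hC hk0c hSc hQ ((card_le_card hQX).trans hXN) p e
    (fun x hx => (hpe x hx).2.2.1) (fun x hx => (hpe x hx).2.2.2) hpd
  have hDX : ∀ a ∈ S, D a ⊆ insert a X := by
    intro a ha
    refine (hD1 a ha).2.1.trans (union_subset (hpe a ha).2.1 ?_)
    exact hQX.trans (subset_insert _ _)
  have hDa : ∀ a ∈ S, a ∈ D a := fun a ha => (hD1 a ha).1 (hpe a ha).1
  have hAX : (A \ X).card < n := by
    rw [← hAn]
    exact card_lt_card (sdiff_ssubset hXA hL.ne)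
  obtain ⟨f, hf⟩ := ih _ hAX (addClique G S) (A \ X) rfl (by
    intro h
    apply hno
    refine h.lift (fun a => if a ∈ S then D a else {a}) ?_ ?_ ?_ ?_
    · intro a ha
      rw [mem_sdiff] at ha
      split_ifs with haS
      · exact (hDX a haS).trans (insert_subset ha.1 hXA)
      · rw [singleton_subset_iff]
        exact ha.1
    · intro a ha
      split_ifs with haS
      · exact (hD1 a haS).2.2
      · exact conn_singleton G a
    · intro a ha b hb hab
      rw [mem_sdiff] at ha hb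
      split_ifs with haS hbS hbS
      · exact hD2 a haS b hbS hab
      · rw [disjoint_singleton_right]
        intro hbD
        rcases mem_insert.1 (hDX a haS hbD) with h | h
        · exact hab h.symm
        · exact hb.2 h
      · rw [disjoint_singleton_left]
        intro haD
        rcases mem_insert.1 (hDX b hbS haD) with h | h
        · exact hab h
        · exact ha.2 h
      · rw [disjoint_singleton]
        exact hab
    · intro a ha b hb hab
      have hin : ∀ a, a ∈ (if a ∈ S then D a else {a}) := by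
        intro a
        split_ifs with haS
        · exact hDa a haS
        · exact mem_singleton_self a
      obtain ⟨hne, hG | ⟨haS, hbS⟩⟩ := hab
      · exact ⟨a, hin a, b, hin b, hG⟩
      · rw [if_pos haS, if_pos hbS]
        exact hD3 a haS b hbS hne)
  have hSX : S ⊆ A \ X := by
    intro y hy
    rw [mem_sdiff]
    exact ⟨hSA hy, fun h => (disjoint_left.1 hXS) h hy⟩
  have hfi : Set.InjOn f S := by
    intro x hx y hy hxy
    by_contra hne
    exact hf x (hSX (mem_coe.1 hx)) y (hSX (mem_coe.1 hy))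
      ⟨hne, Or.inr ⟨mem_coe.1 hx, mem_coe.1 hy⟩⟩ hxy
  obtain ⟨g, hg1, hg2⟩ := engine hp hC G X S hXS hXN (hSc.trans hk0k)
    (fun h => hno ((hasK_of_star h).mono hBA)) f hfi
  refine ⟨fun v => if v ∈ X then g v else f v, ?_⟩
  have key : ∀ x ∈ A, ∀ y ∈ A, G.Adj x y → x ∈ X → y ∉ X → g x ≠ f y := by
    intro x _ y hy hxy hxX hyX
    have hyS : y ∈ S := by
      rw [hS, mem_bdry]
      exact ⟨hy, hyX, x, hxX, hxy⟩
    rw [← hg1 y hyS]
    exact hg2 x hxX y (mem_union_right _ hyS) hxy
  intro x hx y hy hxy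
  dsimp only
  split_ifs with hxX hyX hyX
  · exact hg2 x hxX y (mem_union_left _ hyX) hxy
  · exact key x hx y hy hxy hxX hyX
  · exact (key y hy x hx hxy.symm hyX hxX).symm
  · exact hf x (mem_sdiff.2 ⟨hx, hxX⟩) y (mem_sdiff.2 ⟨hy, hyX⟩) ⟨hxy.ne, Or.inl hxy⟩

end Pool.Agent.Lib.MP_5babb6_co.W
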