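import Mathlib
import Pool.Agent.Lib.MP_5babb6_co.Dom
import Pool.Agent.Lib.MP_5babb6_co.W.Defs

set_option autoImplicit false

/-!
Connected dominating sets in small vertex sets.
-/

namespace Pool.Agent.Lib.MP_5babb6_co.W

open Finset Classical

variable {V : Type}

lemma cds_of_log (V : Type) (N u q : ℕ) (h : (N : ℝ) * Real.log N < q * (u + 1)) :
    Cds V N u (3 * q - 2) := by
  intro G C hCV hX hdeg
  have hm : ∀ x ∈ C, u + 1 ≤ (C.filter (fun y => y = x ∨ G.Adj x y)).card := by
    intro x hx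
    have h1 := hdeg x hx
    unfold dg nb at h1
    have h3 : insert x (C.filter (fun y => G.Adj x y)) ⊆
        C.filter (fun y => y = x ∨ G.Adj x y) := by
      intro y hy
      rw [mem_filter]
      rcases mem_insert.1 hy with h | h
      · rw [h]
        exact ⟨hx, Or.inl rfl⟩
      · rw [mem_filter] at h
        exact ⟨h.1, Or.inr h.2⟩
    have h4 := card_le_card h3
    rw [card_insert_of_notMem (by rw [mem_filter]; exact fun h => h.2.ne rfl)] at h4
    omega
  obtain ⟨⟨x0, hx0⟩⟩ := hX.nonempty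
  have hx0' := mem_coe.1 hx0
  have hdC : u + 1 ≤ C.card := (hm x0 hx0').trans (card_le_card (filter_subset _ _))
  obtain ⟨S, hSC, hSk, hS⟩ := greedy G C (u + 1) hm q
  have hCpos : (0 : ℝ) < C.card := by
    have : 0 < C.card := by omega
    exact_mod_cast this
  have hlogC : (C.card : ℝ) * Real.log C.card < q * (u + 1) := by
    refine lt_of_le_of_lt ?_ h
    have h1 : (C.card : ℝ) ≤ N := by exact_mod_cast hCV
    have h2 : (1 : ℝ) ≤ C.card := by exact_mod_cast (by omega : 1 ≤ C.card)
    exact mul_le_mul h1 (Real.log_le_log hCpos h1) (Real.log_nonneg h2) (by linarith)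
  have hYe : C.filter (fun x => ∀ y ∈ S, ¬ (y = x ∨ G.Adj y x)) = ∅ := by
    by_contra hne
    have hpos : 1 ≤ (C.filter (fun x => ∀ y ∈ S, ¬ (y = x ∨ G.Adj y x))).card :=
      Finset.card_pos.2 (nonempty_iff_ne_empty.2 hne)
    have h1 : C.card ^ q ≤ C.card * (C.card - (u + 1)) ^ q := by
      calc C.card ^ q = 1 * C.card ^ q := (one_mul _).symm
        _ ≤ _ := Nat.mul_le_mul_right _ hpos
        _ ≤ _ := by convert hS
    have h2 : (C.card : ℝ) ^ q ≤ C.card * ((C.card : ℝ) - (u + 1)) ^ q := by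
      have := (Nat.cast_le (α := ℝ)).2 h1
      rw [Nat.cast_mul, Nat.cast_pow, Nat.cast_pow, Nat.cast_sub hdC] at this
      push_cast at this
      exact this
    have h3 : (C.card : ℝ) - (u + 1) ≤ C.card * Real.exp (-((u + 1) / C.card)) := by
      have h4 := Real.add_one_le_exp (-(((u : ℝ) + 1) / C.card))
      have h5 := mul_le_mul_of_nonneg_left h4 hCpos.le
      have h6 : (C.card : ℝ) * (-(((u : ℝ) + 1) / C.card) + 1) = C.card - (u + 1) := by
        field_simp
        ring
      rwa [h6] at h5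
    have h4 : ((C.card : ℝ) - (u + 1)) ^ q ≤
        (C.card : ℝ) ^ q * Real.exp (-(q * ((u + 1) / C.card))) := by
      have h5 : (0 : ℝ) ≤ (C.card : ℝ) - (u + 1) := by
        have : ((u + 1 : ℕ) : ℝ) ≤ C.card := by exact_mod_cast hdC
        push_cast at this
        linarith
      have h6 := pow_le_pow_left₀ h5 h3 q
      rw [mul_pow, ← Real.exp_nat_mul] at h6
      have h7 : (q : ℝ) * -((u + 1) / C.card) = -(q * ((u + 1) / C.card)) := by ring
      rwa [h7] at h6
    have h5 : Real.exp (-(q * ((u + 1) / C.card))) < (C.card : ℝ)⁻¹ := by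
      rw [← Real.exp_log (inv_pos.2 hCpos), Real.exp_lt_exp, Real.log_inv, neg_lt_neg_iff]
      rw [← mul_div_assoc, lt_div_iff₀ hCpos, mul_comm]
      exact hlogC
    have h6 : (0 : ℝ) < (C.card : ℝ) ^ q := pow_pos hCpos q
    have h7 : (C.card : ℝ) * ((C.card : ℝ) - (u + 1)) ^ q < (C.card : ℝ) ^ q := by
      calc (C.card : ℝ) * ((C.card : ℝ) - (u + 1)) ^ q
          ≤ C.card * ((C.card : ℝ) ^ q * Real.exp (-(q * ((u + 1) / C.card)))) :=
            mul_le_mul_of_nonneg_left h4 hCpos.le
        _ < C.card * ((C.card : ℝ) ^ q * (C.card : ℝ)⁻¹) :=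
            mul_lt_mul_of_pos_left (mul_lt_mul_of_pos_left h5 h6) hCpos
        _ = (C.card : ℝ) ^ q := by
            field_simp
    linarith
  have hSdom : ∀ x ∈ C, ∃ y ∈ S, y = x ∨ G.Adj y x := by
    intro x hx
    by_contra hcon
    push Not at hcon
    have : x ∈ C.filter (fun x => ∀ y ∈ S, ¬ (y = x ∨ G.Adj y x)) := by
      rw [mem_filter]
      exact ⟨hx, fun y hy h => by
        have := hcon y hy
        tauto⟩
    rw [hYe] at this
    simp at this
  obtain ⟨D, h1, h2, h3, h4⟩ := connect_dom G C S hX hSC hSdom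
  exact ⟨D, h1, h2, by omega, h4⟩

end Pool.Agent.Lib.MP_5babb6_co.W
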