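import Mathlib
import Pool.Agent.Lib.MP_5babb6_co.W.NumA

set_option autoImplicit false

/-!
The parameters.
-/

namespace Pool.Agent.Lib.MP_5babb6_co.W

open Finset Classical

variable {V : Type}

/-- `log` of a power of two times a number -/
private lemma numB_log_le (x : ℝ) (hx : 0 < x) (n : ℕ) (h : x ≤ 2 ^ n) : Real.log x ≤ n * 0.6932 := by
  have h1 : Real.log x ≤ Real.log (2 ^ n) := Real.log_le_log hx h
  rw [Real.log_pow] at h1
  have h2 := Real.log_two_lt_d9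
  have h3 : (n : ℝ) * Real.log 2 ≤ n * 0.6932 :=
    mul_le_mul_of_nonneg_left (by linarith) (Nat.cast_nonneg _)
  linarith

/-- the analytic inequality behind the choice of the parameters -/
private lemma numB_key (r t : ℝ) (hr : 1 ≤ r) (ht : 10 ^ 26 * r * Real.log (r + 1) ≤ t) :
    10 ^ 22 * (r * Real.log t) ≤ t ∧ (10 : ℝ) ^ 25 ≤ t ∧ 17 ≤ Real.log t := by
  have h2 := Real.log_two_gt_d9
  have hL : (0.69 : ℝ) ≤ Real.log (r + 1) := by
    have h3 : Real.log 2 ≤ Real.log (r + 1) := Real.log_le_log (by norm_num) (by linarith)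
    linarith
  have hrL : (0.69 : ℝ) ≤ r * Real.log (r + 1) := by nlinarith
  have ht0 : (10 : ℝ) ^ 25 ≤ t := by nlinarith
  have htpos : (0 : ℝ) < t := by linarith [show (0 : ℝ) < 10 ^ 25 by norm_num]
  have hlt : 17 ≤ Real.log t := by
    have h3 : Real.log (2 ^ 26) ≤ Real.log t :=
      Real.log_le_log (by norm_num) (le_trans (by norm_num) ht0)
    rw [Real.log_pow] at h3
    push_cast at h3
    linarith
  refine ⟨?_, ht0, hlt⟩
  have hy : (0 : ℝ) < 2 * 10 ^ 22 * r := by positivity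
  have h3 : Real.log (t / (2 * 10 ^ 22 * r)) ≤ t / (2 * 10 ^ 22 * r) - 1 :=
    Real.log_le_sub_one_of_pos (by positivity)
  rw [Real.log_div htpos.ne' hy.ne', Real.log_mul (by norm_num) (by linarith)] at h3
  have h4 : Real.log (2 * 10 ^ 22) ≤ 52 := by
    have := numB_log_le (2 * 10 ^ 22) (by norm_num) 75 (by norm_num)
    norm_num at this ⊢
    linarith
  have h5 : Real.log r ≤ Real.log (r + 1) := Real.log_le_log (by linarith) (by linarith)
  have h6 : Real.log t ≤ 52 + Real.log (r + 1) + t / (2 * 10 ^ 22 * r) := by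
    generalize Real.log (2 * 10 ^ 22) = z1 at h3 h4
    generalize t / (2 * 10 ^ 22 * r) = z2 at h3 ⊢
    linarith
  have h7 : 10 ^ 22 * (r * Real.log t) ≤
      10 ^ 22 * (r * (52 + Real.log (r + 1) + t / (2 * 10 ^ 22 * r))) := by
    apply mul_le_mul_of_nonneg_left _ (by norm_num)
    exact mul_le_mul_of_nonneg_left h6 (by linarith)
  have h8 : (10 : ℝ) ^ 22 * (r * (52 + Real.log (r + 1) + t / (2 * 10 ^ 22 * r))) =
      10 ^ 22 * (52 * r) + 10 ^ 22 * (r * Real.log (r + 1)) + t / 2 := by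
    field_simp
  rw [h8] at h7
  have h9 : 52 * r ≤ 77 * (r * Real.log (r + 1)) := by nlinarith
  nlinarith

theorem exists_par : ∃ K : ℝ, 0 < K ∧ ∀ r s : ℕ, 0 < r → 0 < s →
    K * r * Real.log (r + 1) ≤ s →
    ∃ t k u c, Par r s t k u c ∧ ∀ V : Type, Cds V (10 ^ 10 * u) u c := by
  refine ⟨10 ^ 26, by norm_num, fun r s hr hs h => ?_⟩
  have hr1 : (1 : ℝ) ≤ r := by exact_mod_cast hr
  have hts : 10 ^ 26 * (r : ℝ) * Real.log (r + 1) ≤ ((r + s : ℕ) : ℝ) := by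
    push_cast
    linarith
  obtain ⟨h1, h2, h3⟩ := numB_key r ((r + s : ℕ) : ℝ) hr1 hts
  obtain ⟨t, ht⟩ : ∃ t : ℕ, t = r + s := ⟨_, rfl⟩
  rw [← ht] at h1 h2 h3
  have ht25 : 10 ^ 25 ≤ t := by exact_mod_cast h2
  obtain ⟨k, hk⟩ : ∃ k : ℕ, k = t / 10 ^ 9 := ⟨_, rfl⟩
  have hk1 : 1000 ≤ k := by
    rw [hk, Nat.le_div_iff_mul_le (by norm_num)]
    exact le_trans (by norm_num) ht25
  have hk2 : k * 10 ^ 9 ≤ t := by
    rw [hk]
    exact Nat.div_mul_le_self _ _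
  have hk3 : t < (k + 1) * 10 ^ 9 := by
    rw [hk]
    have := Nat.lt_div_mul_add (a := t) (b := 10 ^ 9) (by norm_num)
    omega
  obtain ⟨u, hu⟩ : ∃ u : ℕ, u = 1000000 * k := ⟨_, rfl⟩
  obtain ⟨q0, hq0⟩ : ∃ q0 : ℕ, q0 = ⌊(10 : ℝ) ^ 10 * Real.log ((10 ^ 10 * u : ℕ) : ℝ)⌋₊ := ⟨_, rfl⟩
  have hu1 : (1 : ℝ) ≤ u := by
    have : 1 ≤ u := by omega
    exact_mod_cast this
  have hNpos : (0 : ℝ) < ((10 ^ 10 * u : ℕ) : ℝ) := by
    push_cast
    positivity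
  have hN7 : ((10 ^ 10 * u : ℕ) : ℝ) ≤ 10 ^ 7 * t := by
    have : 10 ^ 10 * u ≤ 10 ^ 7 * t := by omega
    exact_mod_cast this
  have htpos : (0 : ℝ) < t := by linarith [show (0 : ℝ) < 10 ^ 25 by norm_num]
  have hlogN : Real.log ((10 ^ 10 * u : ℕ) : ℝ) ≤ 2 * Real.log t := by
    have h4 := Real.log_le_log hNpos hN7
    rw [Real.log_mul (by norm_num) htpos.ne'] at h4
    have h5 := numB_log_le (10 ^ 7) (by norm_num) 24 (by norm_num)
    norm_num at h5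
    have h6 : (10 : ℝ) ^ 7 = 10000000 := by norm_num
    rw [h6] at h4
    linarith
  have hlogN0 : 0 ≤ Real.log ((10 ^ 10 * u : ℕ) : ℝ) := by
    apply Real.log_nonneg
    push_cast
    nlinarith
  have hqle : (q0 : ℝ) ≤ 10 ^ 10 * Real.log ((10 ^ 10 * u : ℕ) : ℝ) := by
    rw [hq0]
    exact Nat.floor_le (by positivity)
  have hqlt : (10 : ℝ) ^ 10 * Real.log ((10 ^ 10 * u : ℕ) : ℝ) < ((q0 + 1 : ℕ) : ℝ) := by
    rw [hq0]
    push_cast
    exact Nat.lt_floor_add_one _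
  refine ⟨t, k, u, 3 * (q0 + 1) - 2, ⟨hr, hs, ht, by omega, hu, by omega, by omega, ?_⟩, fun V => ?_⟩
  · have e1 : 3 * (q0 + 1) - 2 + 3 = 3 * q0 + 4 := by omega
    rw [e1]
    have h5 : ((20 * (r * (3 * q0 + 4)) : ℕ) : ℝ) ≤ (k : ℝ) := by
      push_cast
      have h6 : (3 * (q0 : ℝ) + 4) ≤ 7 * 10 ^ 10 * Real.log t := by
        nlinarith
      have h7 : 20 * ((r : ℝ) * (3 * (q0 : ℝ) + 4)) ≤ 20 * ((r : ℝ) * (7 * 10 ^ 10 * Real.log t)) := by
        apply mul_le_mul_of_nonneg_left _ (by norm_num)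
        exact mul_le_mul_of_nonneg_left h6 (by linarith)
      have h8 : (t : ℝ) < ((k : ℝ) + 1) * 10 ^ 9 := by exact_mod_cast hk3
      have h9 : (1000 : ℝ) ≤ k := by exact_mod_cast hk1
      nlinarith
    exact_mod_cast h5
  · apply cds_of_log
    have h5 : ((10 ^ 10 * u : ℕ) : ℝ) * Real.log ((10 ^ 10 * u : ℕ) : ℝ) =
        u * (10 ^ 10 * Real.log ((10 ^ 10 * u : ℕ) : ℝ)) := by
      push_cast
      ring
    rw [h5]
    have h6 : (u : ℝ) * (10 ^ 10 * Real.log ((10 ^ 10 * u : ℕ) : ℝ)) ≤ u * ((q0 + 1 : ℕ) : ℝ) :=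
      mul_le_mul_of_nonneg_left hqlt.le (by linarith)
    have h7 : (0 : ℝ) < ((q0 + 1 : ℕ) : ℝ) := by positivity
    nlinarith

end Pool.Agent.Lib.MP_5babb6_co.W
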