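import Mathlib
import Pool.Agent.Lib.MP_5babb6_co.W.Main
import Pool.Agent.Lib.MP_5babb6_co.W.NumB

set_option autoImplicit false

/-!
Theorem W.
-/

namespace Pool.Agent.Lib.MP_5babb6_co.W

open Finset Classical

variable {V : Type}

/-- the minor as a family of sets -/
lemma model_of_hasK {G : SimpleGraph V} {r s : ℕ} {X : Finset V} (h : HasK G r s X) :
    ∃ f : Fin r ⊕ Fin s → Set V,
      (∀ i, (G.induce (f i)).Connected) ∧
      Pairwise (fun i j => Disjoint (f i) (f j)) ∧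
      (∀ a : Fin r, ∀ b : Fin s,
        ∃ x ∈ f (Sum.inl a), ∃ y ∈ f (Sum.inr b), G.Adj x y) ∧
      ∀ a a' : Fin r, a ≠ a' →
        ∃ x ∈ f (Sum.inl a), ∃ y ∈ f (Sum.inl a'), G.Adj x y := by
  obtain ⟨A, B, -, -, hA, hB, hAA, hBB, hAB, hA2, hAB2⟩ := h
  refine ⟨Sum.elim (fun i => (A i : Set V)) (fun j => (B j : Set V)), ?_, ?_, ?_, ?_⟩
  · rintro (i | j)
    · exact hA i
    · exact hB j
  · rintro (i | j) (k | l) hne
    · exact Finset.disjoint_coe.2 (hAA i k (fun h => hne (by rw [h])))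
    · exact Finset.disjoint_coe.2 (hAB i l)
    · exact Finset.disjoint_coe.2 (hAB k j).symm
    · exact Finset.disjoint_coe.2 (hBB j l (fun h => hne (by rw [h])))
  · intro a b
    obtain ⟨x, hx, y, hy, hxy⟩ := hAB2 a b
    exact ⟨x, mem_coe.2 hx, y, mem_coe.2 hy, hxy⟩
  · intro a a' h
    obtain ⟨x, hx, y, hy, hxy⟩ := hA2 a a' h
    exact ⟨x, mem_coe.2 hx, y, mem_coe.2 hy, hxy⟩

theorem thm : ∃ K : ℝ, 0 < K ∧ ∀ r s : ℕ, 0 < r → 0 < s → K * r * Real.log (r + 1) ≤ s →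
    ∀ (V : Type) [Fintype V] (G : SimpleGraph V), ¬ G.Colorable (r + s - 1) →
      ∃ f : Fin r ⊕ Fin s → Set V,
        (∀ i, (G.induce (f i)).Connected) ∧
        Pairwise (fun i j => Disjoint (f i) (f j)) ∧
        (∀ a : Fin r, ∀ b : Fin s,
          ∃ x ∈ f (Sum.inl a), ∃ y ∈ f (Sum.inr b), G.Adj x y) ∧
        ∀ a a' : Fin r, a ≠ a' →
          ∃ x ∈ f (Sum.inl a), ∃ y ∈ f (Sum.inl a'), G.Adj x y := by
  obtain ⟨K, hK, h⟩ := exists_par
  refine ⟨K, hK, ?_⟩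
  intro r s hr hs hrs V _ G hG
  obtain ⟨t, k, u, c, hp, hC⟩ := h r s hr hs hrs
  by_contra hno
  apply hG
  obtain ⟨f, hf⟩ := main hp (hC V) _ G Finset.univ rfl (fun h => hno (model_of_hasK h))
  exact ⟨SimpleGraph.Coloring.mk f fun {x y} h => hf x (mem_univ _) y (mem_univ _) h⟩

end Pool.Agent.Lib.MP_5babb6_co.W
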